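import Pool.Agent.T9h56.EQ.Dense

/-!
# Compactness for separable vectors
-/

set_option autoImplicit false

namespace Pool.Agent.T9h56.EQ

open Polynomial Filter MeasureTheory Topology Pool.Agent.H261R2.CM Pool.Agent.T9h56.MT
  Pool.Agent.T9h56.SQ OnePoint

noncomputable section

variable {d k : ℕ}

/-- the polynomial with the coefficients `a` -/
def RPg {S : Type*} [CommRing S] (a : Fin (d + 1) → S) : S[X] := ∑ j, C (a j) * X ^ (j : ℕ)

/-- the resultant with the derivative -/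
def Res {S : Type*} [CommRing S] (a : Fin (d + 1) → S) : S :=
  resultant (RPg a) (RPg a).derivative d (d - 1)

theorem RPg_map {S T : Type*} [CommRing S] [CommRing T] (φ : S →+* T) (a : Fin (d + 1) → S) :
    RPg (fun j => φ (a j)) = (RPg a).map φ := by
  unfold RPg
  rw [Polynomial.map_sum]
  refine Finset.sum_congr rfl fun j _ => ?_
  rw [Polynomial.map_mul, Polynomial.map_C, Polynomial.map_pow, Polynomial.map_X]

theorem Res_map {S T : Type*} [CommRing S] [CommRing T] (φ : S →+* T) (a : Fin (d + 1) → S) :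
    Res (fun j => φ (a j)) = φ (Res a) := by
  unfold Res
  rw [RPg_map, Polynomial.derivative_map, resultant_map_map]

theorem Res_mul {S : Type*} [CommRing S] (g : S) (a : Fin (d + 1) → S) :
    Res (fun j => g * a j) = g ^ (d - 1) * (g ^ d * Res a) := by
  have h : RPg (fun j => g * a j) = C g * RPg a := by
    unfold RPg
    rw [Finset.mul_sum]
    refine Finset.sum_congr rfl fun j _ => ?_
    rw [C_mul, mul_assoc]
  unfold Res
  rw [h, Polynomial.derivative_C_mul, resultant_C_mul_left, resultant_C_mul_right]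

theorem coeff_RPg {S : Type*} [CommRing S] (a : Fin (d + 1) → S) (n : ℕ) :
    (RPg a).coeff n = if h : n < d + 1 then a ⟨n, h⟩ else 0 := by
  unfold RPg
  rw [Polynomial.finsetSum_coeff]
  simp only [Polynomial.coeff_C_mul, Polynomial.coeff_X_pow, mul_ite, mul_one, mul_zero]
  split_ifs with h
  · rw [Finset.sum_eq_single ⟨n, h⟩]
    · simp
    · intro j _ hj
      rw [if_neg]
      intro h1
      exact hj (Fin.ext h1.symm)
    · intro h1
      exact absurd (Finset.mem_univ _) h1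
  · refine Finset.sum_eq_zero fun j _ => ?_
    rw [if_neg]
    intro h1
    exact h (h1 ▸ j.2)

theorem last_ne_of_Res {S : Type*} [CommRing S] {a : Fin (d + 1) → S} (hd : 1 ≤ d)
    (h : Res a ≠ 0) : a (Fin.last d) ≠ 0 := by
  intro h0
  apply h
  have h1 : (RPg a).natDegree < d := by
    refine lt_of_le_of_ne ?_ ?_
    · rw [Polynomial.natDegree_le_iff_coeff_eq_zero]
      intro n hn
      rw [coeff_RPg, dif_neg (by omega)]
    · intro h2
      have h3 : (RPg a).coeff d = 0 := by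
        rw [coeff_RPg, dif_pos (Nat.lt_succ_self d)]
        exact h0
      have h4 : RPg a = 0 := by
        rw [← Polynomial.leadingCoeff_eq_zero, Polynomial.leadingCoeff, h2, h3]
      rw [h4, Polynomial.natDegree_zero] at h2
      omega
  rcases Nat.lt_or_ge 1 d with h2 | h2
  · refine resultant_eq_zero_of_lt_lt _ _ _ _ h1 ?_
    have h3 := Polynomial.natDegree_derivative_le (RPg a)
    omega
  · have hd1 : d = 1 := by omega
    subst hd1
    have h3 : RPg a = C ((RPg a).coeff 0) := Polynomial.eq_C_of_natDegree_eq_zero (by omega)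
    have h4 : (RPg a).derivative = 0 := by
      rw [h3, Polynomial.derivative_C]
    unfold Res
    rw [h4, resultant_zero_right]
    simp

theorem Res_eq {A : Fin (d + 1) → MvPolynomial (Fin k) ℤ} (hd : 1 ≤ d)
    (hA : A (Fin.last d) ≠ 0) :
    Res A = (-1) ^ (d * (d - 1) / 2) * A (Fin.last d) * (RP A).discr := by
  have h1 := resultant_deriv (f := RP A) (by
    rw [← Polynomial.natDegree_pos_iff_degree_pos, natDegree_RP hA]
    omega)
  rw [natDegree_RP hA, leadingCoeff_RP hA] at h1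
  exact h1

theorem Res_iff {A : Fin (d + 1) → MvPolynomial (Fin k) ℤ} (hd : 1 ≤ d) :
    Res A ≠ 0 ↔ A (Fin.last d) ≠ 0 ∧ (RP A).discr ≠ 0 := by
  constructor
  · intro h
    have h1 := last_ne_of_Res hd h
    refine ⟨h1, fun h2 => h ?_⟩
    rw [Res_eq hd h1, h2, mul_zero]
  · rintro ⟨h1, h2⟩
    rw [Res_eq hd h1]
    exact mul_ne_zero (mul_ne_zero (pow_ne_zero _ (neg_ne_zero.2 one_ne_zero)) h1) h2

/-- approximation by one-variable vectors -/
theorem approx2 (P : Fin (d + 1) → MvPolynomial (Fin k) ℤ) (hP : Prim P) (hR : Res P ≠ 0)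
    {ι : Type*} [Finite ι] (ψ : ι → (Fin (d + 1) → ℂ) → ℝ) (hψ : ∀ j, IsMetric (ψ j)) (ε : ℝ)
    (hε : 0 < ε) :
    ∃ a : Fin (d + 1) → ℤ[X], Prim a ∧ Res a ≠ 0 ∧ ∀ j, |H1 (ψ j) a - Hk (ψ j) P| < ε := by
  obtain ⟨i0, hi0⟩ := Prim.exists_ne hP
  set e : ℕ → Fin k → ℕ := fun (n : ℕ) (i : Fin k) => n ^ (i : ℕ) with he
  have he1 : AsympIndep (hyperfilter ℕ : Filter ℕ) e := fun s hs =>
    I2_hyper_le ((asympIndep_pow k) s hs)
  set v : ℕ → Fin (d + 1) → ℤ[X] := fun M i => spec (e M) (P i) with hv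
  have hsel : ∀ M, ∃ (g : ℤ[X]) (a : Fin (d + 1) → ℤ[X]), g ≠ 0 ∧ (∃ i, a i ≠ 0) ∧ Prim a ∧
      (v M i0 ≠ 0 → ∀ i, v M i = g * a i) := by
    intro M
    by_cases h : v M i0 ≠ 0
    · obtain ⟨g, hg, a, ha, hp⟩ := exists_prim (v M) ⟨i0, h⟩
      refine ⟨g, a, hg, ⟨i0, ?_⟩, hp, fun _ => ha⟩
      intro h0
      exact h (by rw [ha i0, h0, mul_zero])
    · refine ⟨1, fun _ => 1, one_ne_zero, ⟨i0, one_ne_zero⟩, fun π hπ => ?_, fun h' => absurd h' h⟩
      exact isUnit_of_dvd_one (hπ i0)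
  choose g a hg ha0 hap hga using hsel
  have hgood : ∀ᶠ M in (hyperfilter ℕ : Filter ℕ), v M i0 ≠ 0 := spec_ne_zero _ e he1 (P i0) hi0
  have hgood2 : ∀ᶠ M in (hyperfilter ℕ : Filter ℕ), spec (e M) (Res P) ≠ 0 :=
    spec_ne_zero _ e he1 (Res P) hR
  have hglim : Tendsto (fun M => Real.log (m1 (g M))) (hyperfilter ℕ : Filter ℕ) (𝓝 0) := by
    refine gcd_lim P ⟨i0, hi0⟩ hP e he1 g ?_
    filter_upwards [hgood] with M hM
    exact ⟨hg M, fun i => ⟨a M i, hga M hM i⟩⟩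
  have hlim : ∀ j, Tendsto (fun M => H1 (ψ j) (a M)) (hyperfilter ℕ : Filter ℕ)
      (𝓝 (Hk (ψ j) P)) := by
    intro j
    have h1 := (H_lim (hψ j) (hyperfilter ℕ : Filter ℕ) e he1 P ⟨i0, hi0⟩).sub hglim
    rw [sub_zero] at h1
    refine h1.congr' ?_
    filter_upwards [hgood] with M hM
    obtain ⟨i, hi⟩ := ha0 M
    rw [H1_mul (hψ j) (g M) (hg M) (a M) (fun i => spec (e M) (P i)) i hi (hga M hM)]
    ring
  have hev : ∀ᶠ M in (hyperfilter ℕ : Filter ℕ), ∀ j, |H1 (ψ j) (a M) - Hk (ψ j) P| < ε := by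
    rw [Filter.eventually_all]
    intro j
    have h1 := (Metric.tendsto_nhds.1 (hlim j)) ε hε
    filter_upwards [h1] with M hM
    rwa [Real.dist_eq] at hM
  obtain ⟨M, ⟨h1, h2⟩, h3⟩ := ((hev.and hgood).and hgood2).exists
  refine ⟨a M, hap M, ?_, h1⟩
  intro h4
  apply h3
  have h5 := Res_map (spec (e M)).toRingHom P
  have h6 : (fun j => (spec (e M)).toRingHom (P j)) = fun j => g M * a M j := by
    funext j
    exact hga M h2 j
  rw [h6, Res_mul, h4, mul_zero, mul_zero] at h5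
  exact h5.symm

theorem compact2 (a : ℕ → Fin (d + 1) → ℤ[X])
    (hprim : ∀ n, Prim (a n)) (hres : ∀ n, Res (a n) ≠ 0) (ψ₀ : (Fin (d + 1) → ℂ) → ℝ)
    (hψ₀ : IsMetric ψ₀) (K : ℝ) (hK : ∀ n, H1 ψ₀ (a n) ≤ K) :
    ∃ (k : ℕ) (C : Fin (d + 1) → MvPolynomial (Fin k) ℤ), Prim C ∧ Res C ≠ 0 ∧
      ∀ ψ : (Fin (d + 1) → ℂ) → ℝ, IsMetric ψ →
        Tendsto (fun n => H1 ψ (a n)) (hyperfilter ℕ : Filter ℕ) (𝓝 (Hk ψ C)) := by
  have ha0 : ∀ n, ∃ i, a n i ≠ 0 := fun n => Prim.exists_ne (hprim n)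
  obtain ⟨c, hc⟩ := hv_le_H1 hψ₀
  obtain ⟨k, e, C, Q, hC0, hC, he, _, hQ, hQlim⟩ := vec_compact a ha0 hprim (K + c)
    (fun n => (hc (a n) (ha0 n)).trans (by linarith [hK n]))
  refine ⟨k, C, hC, ?_, fun ψ hψ => ?_⟩
  · obtain ⟨n, hn⟩ := hQ.exists
    intro h0
    have h5 := Res_map (spec (e n)).toRingHom C
    have h6 : (fun j => (spec (e n)).toRingHom (C j)) = fun j => Q n * a n j := by
      funext j
      exact hn.2 j
    rw [h6, Res_mul, h0, map_zero] at h5
    exact mul_ne_zero (pow_ne_zero _ hn.1) (mul_ne_zero (pow_ne_zero _ hn.1) (hres n)) h5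
  · have h1 := (H_lim hψ (hyperfilter ℕ : Filter ℕ) e he C hC0).sub hQlim
    rw [sub_zero] at h1
    refine h1.congr' ?_
    filter_upwards [hQ] with n hn
    obtain ⟨i, hi⟩ := ha0 n
    rw [H1_mul hψ (Q n) hn.1 (a n) (fun i => spec (e n) (C i)) i hi hn.2]
    ring

end

end Pool.Agent.T9h56.EQ
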