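import Pool.Agent.T9h56.EQ.Rank

/-!
# Zeros in open sets, and sequences
-/

set_option autoImplicit false

namespace Pool.Agent.T9h56.EQ

open Polynomial Filter MeasureTheory Topology Pool.Agent.H261R2.CM Pool.Agent.T9h56.MT
  Pool.Agent.T9h56.SQ OnePoint

noncomputable section

variable {d k : ℕ}

/-- the mean of a function over the zeros -/
def mean (F : MvPolynomial (Fin (k + 1)) ℤ) (t : Fin k → ℝ) (f : OnePoint ℂ → ℝ) : ℝ :=
  (((slice F t).roots.map fun z : ℂ => f (z : OnePoint ℂ)).sum +
    ((F.degreeOf 0 : ℝ) - (slice F t).natDegree) * f ∞) / F.degreeOf 0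

theorem zeros_eq (F : MvPolynomial (Fin (k + 1)) ℤ) (t : Fin k → ℝ) (f : C(OnePoint ℂ, ℝ)) :
    zeros F t f = mean F t f := rfl

theorem mean_eq {A : Fin (d + 1) → MvPolynomial (Fin k) ℤ} (h : A (Fin.last d) ≠ 0)
    (t : Fin k → ℝ) (f : OnePoint ℂ → ℝ) : mean (FP A) t f = rs f (cv A t) / d := by
  unfold mean rs
  rw [slice_FP, degreeOf_FP h, nsmul_eq_mul, Nat.cast_sub (natDegree_pol_le _)]

theorem rs_mono {f g : OnePoint ℂ → ℝ} (h : ∀ x, f x ≤ g x) (c : Fin (d + 1) → ℂ) :
    rs f c ≤ rs g c := by
  unfold rs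
  refine add_le_add ?_ ?_
  · exact Multiset.sum_map_le_sum_map _ _ fun z _ => h _
  · exact nsmul_le_nsmul_right (h ∞) _

theorem multiset_tendsto (f : ℕ → ℂ → ℝ) (g : ℂ → ℝ)
    (h : ∀ z, Tendsto (fun n => f n z) atTop (𝓝 (g z))) (s : Multiset ℂ) :
    Tendsto (fun n => (s.map (f n)).sum) atTop (𝓝 (s.map g).sum) := by
  induction s using Multiset.induction_on with
  | empty => simp
  | cons a s ih =>
    simp only [Multiset.map_cons, Multiset.sum_cons]
    exact (h a).add ih

theorem rs_tendsto (f : ℕ → OnePoint ℂ → ℝ) (g : OnePoint ℂ → ℝ)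
    (h : ∀ x, Tendsto (fun n => f n x) atTop (𝓝 (g x))) (c : Fin (d + 1) → ℂ) :
    Tendsto (fun n => rs (f n) c) atTop (𝓝 (rs g c)) := by
  unfold rs
  refine (multiset_tendsto (fun n z => f n (z : OnePoint ℂ)) (fun z => g (z : OnePoint ℂ))
    (fun z => h _) _).add ?_
  simp only [nsmul_eq_mul]
  exact (h ∞).const_mul _

/-- continuous functions approximating the indicator of an open set from below -/
theorem exists_approx (V : Set (OnePoint ℂ)) (hV : IsOpen V) :
    ∃ f : ℕ → C(OnePoint ℂ, ℝ), (∀ n x, 0 ≤ f n x) ∧ (∀ n x, f n x ≤ V.indicator 1 x) ∧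
      ∀ x, Tendsto (fun n => f n x) atTop (𝓝 (V.indicator 1 x)) := by
  classical
  -- an exhaustion by closed sets
  obtain ⟨L, hLc, hLV, hLm⟩ : ∃ L : ℕ → Set (OnePoint ℂ), (∀ n, IsClosed (L n)) ∧
      (∀ n, L n ⊆ V) ∧ ∀ x ∈ V, ∀ᶠ n in atTop, x ∈ L n := by
    set W : Set ℂ := (fun z : ℂ => (z : OnePoint ℂ)) ⁻¹' V with hW
    have hWo : IsOpen W := hV.preimage OnePoint.continuous_coe
    set K : ℕ → Set ℂ := fun n => {z | ‖z‖ ≤ n ∧ 1 / ((n : ℝ) + 1) ≤ Metric.infDist z Wᶜ} with hK
    by_cases hWe : Wᶜ = ∅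
    · refine ⟨fun n => (fun z : ℂ => (z : OnePoint ℂ)) '' Metric.closedBall 0 n ∪
        (if ∞ ∈ V then {∞} else ∅), fun n => ?_, fun n => ?_, fun x hx => ?_⟩
      · refine IsClosed.union ?_ ?_
        · exact ((isCompact_closedBall (0 : ℂ) n).image OnePoint.continuous_coe).isClosed
        · split_ifs
          · exact isClosed_singleton
          · exact isClosed_empty
      · refine Set.union_subset ?_ ?_
        · rintro _ ⟨z, _, rfl⟩
          have : z ∈ W := by
            by_contra h
            have : z ∈ Wᶜ := h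
            rw [hWe] at this
            exact this
          exact this
        · split_ifs with h
          · rintro _ rfl
            exact h
          · exact Set.empty_subset _
      · induction x using OnePoint.rec with
        | infty =>
          refine Eventually.of_forall fun n => Or.inr ?_
          rw [if_pos hx]
          rfl
        | coe z =>
          filter_upwards [eventually_ge_atTop ⌈‖z‖⌉₊] with n hn
          refine Or.inl ⟨z, ?_, rfl⟩
          rw [mem_closedBall_zero_iff]
          exact Nat.ceil_le.1 hn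
    · have hne : (Wᶜ).Nonempty := Set.nonempty_iff_ne_empty.2 hWe
      refine ⟨fun n => (fun z : ℂ => (z : OnePoint ℂ)) '' K n ∪
        (if ∞ ∈ V then {∞} else ∅), fun n => ?_, fun n => ?_, fun x hx => ?_⟩
      · refine IsClosed.union ?_ ?_
        · have hKc : IsCompact (K n) := by
            refine (isCompact_closedBall (0 : ℂ) n).of_isClosed_subset ?_ ?_
            · exact (isClosed_le continuous_norm continuous_const).inter
                (isClosed_le continuous_const (Metric.continuous_infDist_pt _))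
            · intro z hz
              rw [mem_closedBall_zero_iff]
              exact hz.1
          exact (hKc.image OnePoint.continuous_coe).isClosed
        · split_ifs
          · exact isClosed_singleton
          · exact isClosed_empty
      · refine Set.union_subset ?_ ?_
        · rintro _ ⟨z, hz, rfl⟩
          have : z ∈ W := by
            by_contra h
            have h1 : z ∈ Wᶜ := h
            have h2 := Metric.infDist_zero_of_mem h1
            have h3 : 1 / ((n : ℝ) + 1) ≤ Metric.infDist z Wᶜ := hz.2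
            rw [h2] at h3
            have : (0 : ℝ) < 1 / ((n : ℝ) + 1) := by positivity
            linarith
          exact this
        · split_ifs with h
          · rintro _ rfl
            exact h
          · exact Set.empty_subset _
      · induction x using OnePoint.rec with
        | infty =>
          refine Eventually.of_forall fun n => Or.inr ?_
          rw [if_pos hx]
          rfl
        | coe z =>
          have hz : z ∈ W := hx
          have hpos : 0 < Metric.infDist z Wᶜ := by
            rw [← hWo.isClosed_compl.notMem_iff_infDist_pos hne]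
            exact fun h => h hz
          have h1 : ∀ᶠ n : ℕ in atTop, 1 / ((n : ℝ) + 1) < Metric.infDist z Wᶜ :=
            tendsto_one_div_add_atTop_nhds_zero_nat.eventually_lt_const hpos
          filter_upwards [eventually_ge_atTop ⌈‖z‖⌉₊, h1] with n hn hn2
          exact Or.inl ⟨z, ⟨Nat.ceil_le.1 hn, hn2.le⟩, rfl⟩
  have hdisj : ∀ n, Disjoint Vᶜ (L n) := fun n =>
    Set.disjoint_left.2 fun x hx hx2 => hx (hLV n hx2)
  choose f hf0 hf1 hf using fun n =>
    exists_continuous_zero_one_of_isClosed hV.isClosed_compl (hLc n) (hdisj n)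
  refine ⟨f, fun n x => (hf n x).1, fun n x => ?_, fun x => ?_⟩
  · by_cases hx : x ∈ V
    · rw [Set.indicator_of_mem hx]
      exact (hf n x).2
    · rw [Set.indicator_of_notMem hx]
      exact (hf0 n hx).le
  · by_cases hx : x ∈ V
    · rw [Set.indicator_of_mem hx]
      refine tendsto_const_nhds.congr' ?_
      filter_upwards [hLm x hx] with n hn
      exact (hf1 n hn).symm
    · rw [Set.indicator_of_notMem hx]
      refine tendsto_const_nhds.congr fun n => ?_
      exact (hf0 n hx).symm

theorem hr_tendsto (f : ℕ → C(OnePoint ℂ, ℝ)) (V : Set (OnePoint ℂ))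
    (h0 : ∀ n x, 0 ≤ f n x) (h1 : ∀ n x, f n x ≤ V.indicator 1 x)
    (h : ∀ x, Tendsto (fun n => f n x) atTop (𝓝 (V.indicator 1 x))) :
    Tendsto (fun n => hr (f n)) atTop (𝓝 (hr (V.indicator 1))) := by
  unfold hr
  refine intervalIntegral.tendsto_integral_filter_of_dominated_convergence (fun _ => 1) ?_ ?_ ?_ ?_
  · refine Eventually.of_forall fun n => ?_
    have h2 : Continuous fun s => f n ((ez s : ℂ) : OnePoint ℂ) :=
      (f n).continuous.comp (OnePoint.continuous_coe.comp ez_continuous)
    exact h2.aestronglyMeasurable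
  · refine Eventually.of_forall fun n => Eventually.of_forall fun s _ => ?_
    rw [Real.norm_of_nonneg (h0 n _)]
    refine (h1 n _).trans ?_
    exact Set.indicator_le_self' (fun _ _ => zero_le_one) _
  · exact intervalIntegrable_const
  · exact Eventually.of_forall fun s _ => h _

/-- the truncation of a continuous function -/
def trunc (g : Fun → ℝ) (hg : Continuous g) (B : ℝ) : BoundedContinuousFunction Fun ℝ :=
  BoundedContinuousFunction.ofNormedAddCommGroup (fun φ => max (-|B|) (min |B| (g φ)))
    (by fun_prop) |B| (fun φ => by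
      rw [Real.norm_eq_abs, abs_le]
      refine ⟨le_max_left _ _, max_le ?_ (min_le_left _ _)⟩
      have := abs_nonneg B
      linarith)

theorem trunc_apply (g : Fun → ℝ) (hg : Continuous g) {B : ℝ} {φ : Fun} (h : |g φ| ≤ B) :
    trunc g hg B φ = g φ := by
  have hB : |B| = B := abs_of_nonneg ((abs_nonneg _).trans h)
  show max (-|B|) (min |B| (g φ)) = g φ
  rw [hB]
  rw [abs_le] at h
  rw [min_eq_right h.2, max_eq_right h.1]

theorem abs_hr_le (f : C(OnePoint ℂ, ℝ)) {B : ℝ} (h : ∀ x, |f x| ≤ B) : |hr f| ≤ B := by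
  unfold hr
  rw [← Real.norm_eq_abs]
  have h1 := intervalIntegral.norm_integral_le_of_norm_le_const (a := 0) (b := 1)
    (f := fun s => f ((ez s : ℂ) : OnePoint ℂ)) (C := B) (fun s _ => by
      rw [Real.norm_eq_abs]
      exact h _)
  simpa using h1

theorem abs_emp_le (hd : 1 ≤ d) (f : OnePoint ℂ → ℝ) {B : ℝ} (h : ∀ x, |f x| ≤ B)
    (c : Fin (d + 1) → ℂ) : |rs f c / d| ≤ B := by
  have hdR : (0 : ℝ) < d := by exact_mod_cast (by omega : 0 < d)
  rw [abs_div, abs_of_pos hdR, div_le_iff₀ hdR, mul_comm]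
  exact rs_boundR h c

/-- **Polynomials with few zeros in an open set.** -/
theorem tame_open (V : Set (OnePoint ℂ)) (hV : IsOpen V) (δ : ℝ) (hδ : δ < hr (V.indicator 1)) :
    Tame {x | ∃ (k : ℕ) (F : MvPolynomial (Fin (k + 1)) ℤ), Adm F ∧
      ∫ t in Set.Icc (0 : Fin k → ℝ) 1, mean F t (V.indicator 1) ≤ δ ∧ x = mM F} := by
  obtain ⟨f, hf0, hf1, hft⟩ := exists_approx V hV
  have hf1' : ∀ n x, f n x ≤ 1 := fun n x => (hf1 n x).trans
    (Set.indicator_le_self' (fun _ _ => zero_le_one) _)
  have habs : ∀ n x, |f n x| ≤ 1 := fun n x => by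
    rw [abs_of_nonneg (hf0 n x)]
    exact hf1' n x
  have hev : ∀ n, Continuous fun φ : Fun => φ (f n) := fun n => continuous_apply _
  set 𝒬 : Set ((BoundedContinuousFunction Fun ℝ) → ℝ) :=
    {L | ∀ n, L (trunc (fun φ => φ (f n)) (hev n) 1) ≤ δ} with h𝒬
  have hcl : IsClosed 𝒬 := by
    rw [h𝒬, Set.setOf_forall]
    exact isClosed_iInter fun n => isClosed_le (continuous_apply _) continuous_const
  have hpt : ptH ∉ 𝒬 := by
    intro h
    have h1 : ∀ n, hr (f n) ≤ δ := by
      intro n
      have h2 := h n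
      have h3 : ptH (trunc (fun φ => φ (f n)) (hev n) 1) = hr (f n) := by
        unfold ptH
        rw [trunc_apply]
        · rfl
        · exact abs_hr_le (f n) (habs n)
      rwa [h3] at h2
    have h2 := le_of_tendsto' (hr_tendsto f V hf0 hf1 hft) h1
    linarith
  have hset : {x | ∃ (k : ℕ) (F : MvPolynomial (Fin (k + 1)) ℤ), Adm F ∧
      ∫ t in Set.Icc (0 : Fin k → ℝ) 1, mean F t (V.indicator 1) ≤ δ ∧ x = mM F} = MSet 𝒬 := by
    have key : ∀ (k : ℕ) (F : MvPolynomial (Fin (k + 1)) ℤ), Adm F →
        ((∫ t in Set.Icc (0 : Fin k → ℝ) 1, mean F t (V.indicator 1) ≤ δ) ↔ law F ∈ 𝒬) := by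
      intro k F hF
      obtain ⟨A, hA, hd, hP, hR, hl⟩ := hF.exists
      have hmean : ∀ (g : OnePoint ℂ → ℝ) t, mean F t g = rs g (cv A t) / F.degreeOf 0 := by
        intro g t
        have h6 := mean_eq hl t g
        rw [← hA] at h6
        exact h6
      have hlaw : ∀ n, law F (trunc (fun φ => φ (f n)) (hev n) 1) =
          ∫ t, mean F t (f n) ∂(cube k) := by
        intro n
        unfold law
        refine integral_congr_ae (Eventually.of_forall fun t => ?_)
        simp only
        rw [trunc_apply]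
        · rfl
        · rw [zeros_eq, hmean]
          exact abs_emp_le hd (f n) (habs n) _
      have hmeas : ∀ n, AEStronglyMeasurable (fun t => mean F t (f n)) (cube k) := by
        intro n
        have h1 : AEStronglyMeasurable (fun t => rs (f n) (cv A t)) (cube k) :=
          cube_meas (fun c hc => rs_continuousAt (f n).continuous c hc) hl
        have h2 := h1.mul (aestronglyMeasurable_const (b := (F.degreeOf 0 : ℝ)⁻¹))
        refine h2.congr (Eventually.of_forall fun t => ?_)
        simp only [Pi.mul_apply]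
        rw [hmean, div_eq_mul_inv]
      have hbd : ∀ n t, ‖mean F t (f n)‖ ≤ 1 := by
        intro n t
        rw [Real.norm_eq_abs, hmean]
        exact abs_emp_le hd (f n) (habs n) _
      have hlim : ∀ t, Tendsto (fun n => mean F t (f n)) atTop (𝓝 (mean F t (V.indicator 1))) := by
        intro t
        rw [hmean]
        refine ((rs_tendsto (fun n => f n) (V.indicator 1) hft (cv A t)).div_const _).congr
          fun n => ?_
        exact (hmean _ t).symm
      have hmeasV : AEStronglyMeasurable (fun t => mean F t (V.indicator 1)) (cube k) :=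
        aestronglyMeasurable_of_tendsto_ae atTop hmeas (Eventually.of_forall hlim)
      have hbdV : ∀ t, ‖mean F t (V.indicator 1)‖ ≤ 1 := by
        intro t
        rw [Real.norm_eq_abs, hmean]
        refine abs_emp_le hd _ (fun x => ?_) _
        by_cases hx : x ∈ V
        · rw [Set.indicator_of_mem hx]
          simp
        · rw [Set.indicator_of_notMem hx]
          simp
      have hiV : Integrable (fun t => mean F t (V.indicator 1)) (cube k) :=
        Integrable.of_bound hmeasV 1 (Eventually.of_forall hbdV)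
      have hi : ∀ n, Integrable (fun t => mean F t (f n)) (cube k) := fun n =>
        Integrable.of_bound (hmeas n) 1 (Eventually.of_forall (hbd n))
      constructor
      · intro h n
        rw [hlaw]
        refine le_trans (integral_mono (hi n) hiV fun t => ?_) h
        simp only
        rw [hmean, hmean]
        exact div_le_div_of_nonneg_right (rs_mono (hf1 n) _) (Nat.cast_nonneg _)
      · intro h
        have h1 : Tendsto (fun n => ∫ t, mean F t (f n) ∂(cube k)) atTop
            (𝓝 (∫ t, mean F t (V.indicator 1) ∂(cube k))) :=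
          tendsto_integral_of_dominated_convergence (fun _ => 1) hmeas (integrable_const _)
            (fun n => Eventually.of_forall (hbd n)) (Eventually.of_forall hlim)
        refine le_of_tendsto' h1 fun n => ?_
        rw [← hlaw]
        exact h n
    ext x
    constructor
    · rintro ⟨k, F, hF, h, hx⟩
      exact ⟨k, F, hF, (key k F hF).1 h, hx⟩
    · rintro ⟨k, F, hF, h, hx⟩
      exact ⟨k, F, hF, (key k F hF).2 h, hx⟩
  rw [hset]
  exact tame_MSet 𝒬 hcl hpt

/-- the polynomials which are far from equidistribution for one function -/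
theorem tame_test (f : C(OnePoint ℂ, ℝ)) (ε : ℝ) (hε : 0 < ε) :
    Tame {x | ∃ (k : ℕ) (F : MvPolynomial (Fin (k + 1)) ℤ), Adm F ∧
      ε ≤ ∫ t in Set.Icc (0 : Fin k → ℝ) 1, |zeros F t f - hr f| ∧ x = mM F} := by
  have hg : Continuous fun φ : Fun => |φ f - hr f| :=
    ((continuous_apply f).sub continuous_const).abs
  set 𝒬 : Set ((BoundedContinuousFunction Fun ℝ) → ℝ) :=
    {L | ε ≤ L (trunc (fun φ => |φ f - hr f|) hg (2 * ‖f‖))} with h𝒬
  have hcl : IsClosed 𝒬 := isClosed_le continuous_const (continuous_apply _)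
  have hfb : ∀ x, |f x| ≤ ‖f‖ := fun x => by
    rw [← Real.norm_eq_abs]
    exact f.norm_coe_le_norm x
  have hpt : ptH ∉ 𝒬 := by
    intro h
    have h3 : ptH (trunc (fun φ => |φ f - hr f|) hg (2 * ‖f‖)) = 0 := by
      unfold ptH
      have h4 : haarF f = hr f := rfl
      rw [trunc_apply]
      · rw [h4, sub_self, abs_zero]
      · rw [h4, sub_self, abs_zero, abs_zero]
        positivity
    have h2 : ε ≤ ptH (trunc (fun φ => |φ f - hr f|) hg (2 * ‖f‖)) := h
    rw [h3] at h2
    linarith
  have hset : {x | ∃ (k : ℕ) (F : MvPolynomial (Fin (k + 1)) ℤ), Adm F ∧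
      ε ≤ ∫ t in Set.Icc (0 : Fin k → ℝ) 1, |zeros F t f - hr f| ∧ x = mM F} = MSet 𝒬 := by
    have key : ∀ (k : ℕ) (F : MvPolynomial (Fin (k + 1)) ℤ), Adm F →
        law F (trunc (fun φ => |φ f - hr f|) hg (2 * ‖f‖)) =
          ∫ t in Set.Icc (0 : Fin k → ℝ) 1, |zeros F t f - hr f| := by
      intro k F hF
      obtain ⟨A, hA, hd, hP, hR, hl⟩ := hF.exists
      unfold law
      refine integral_congr_ae (Eventually.of_forall fun t => ?_)
      simp only
      rw [trunc_apply]
      rw [abs_abs]
      have hz : zeros F t f = rs f (cv A t) / F.degreeOf 0 := by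
        have h6 := congrFun (zeros_FP hl t) f
        rw [← hA] at h6
        exact h6
      rw [hz]
      refine (abs_sub _ _).trans ?_
      have h1 := abs_emp_le hd f hfb (cv A t)
      have h2 := abs_hr_le f hfb
      linarith
    ext x
    constructor
    · rintro ⟨k, F, hF, h, hx⟩
      refine ⟨k, F, hF, ?_, hx⟩
      show ε ≤ law F (trunc (fun φ => |φ f - hr f|) hg (2 * ‖f‖))
      rw [key k F hF]
      exact h
    · rintro ⟨k, F, hF, h, hx⟩
      refine ⟨k, F, hF, ?_, hx⟩
      rw [← key k F hF]
      exact h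
  rw [hset]
  exact tame_MSet 𝒬 hcl hpt

/-- **Sequences converging to a number outside the set are equidistributed.** -/
theorem seq_outside (kk : ℕ → ℕ) (F : ∀ n, MvPolynomial (Fin (kk n + 1)) ℤ)
    (hF : ∀ n, Adm (F n)) (μ : ℝ) (hlim : Tendsto (fun n => mM (F n)) atTop (𝓝 μ))
    (hμ : μ ∉ BB ∨ (μ = 1 ∧ ∀ n, mM (F n) ≠ 1)) (f : C(OnePoint ℂ, ℝ)) :
    Tendsto (fun n => ∫ t in Set.Icc (0 : Fin (kk n) → ℝ) 1, |zeros (F n) t f - hr f|) atTop
      (𝓝 0) := by
  by_contra hcon
  have hnn : ∀ n, 0 ≤ ∫ t in Set.Icc (0 : Fin (kk n) → ℝ) 1, |zeros (F n) t f - hr f| :=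
    fun n => integral_nonneg fun t => abs_nonneg _
  obtain ⟨ε, hε, hfreq⟩ : ∃ ε : ℝ, 0 < ε ∧ ∃ᶠ n in atTop,
      ε ≤ ∫ t in Set.Icc (0 : Fin (kk n) → ℝ) 1, |zeros (F n) t f - hr f| := by
    by_contra h
    push Not at h
    apply hcon
    rw [Metric.tendsto_nhds]
    intro ε hε
    have h1 := h ε hε
    filter_upwards [h1] with n hn
    rw [Real.dist_eq, sub_zero, abs_of_nonneg (hnn n)]
    exact hn
  obtain ⟨φ, hφ, hφε⟩ := Filter.extraction_of_frequently_atTop hfreq
  obtain ⟨h1, h2, ⟨δ, hδ, h3⟩, _⟩ := tame_test f ε hε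
  have hmem : ∀ n, mM (F (φ n)) ∈ {x | ∃ (k : ℕ) (F : MvPolynomial (Fin (k + 1)) ℤ), Adm F ∧
      ε ≤ ∫ t in Set.Icc (0 : Fin k → ℝ) 1, |zeros F t f - hr f| ∧ x = mM F} :=
    fun n => ⟨kk (φ n), F (φ n), hF _, hφε n, rfl⟩
  have hlim2 := hlim.comp hφ.tendsto_atTop
  rcases hμ with hμ | ⟨rfl, hμ⟩
  · exact hμ (h1 (h2.mem_of_tendsto hlim2 (Eventually.of_forall hmem)))
  · obtain ⟨n, hn⟩ := (hlim2.eventually_lt_const (show (1:ℝ) < 1 + δ by linarith)).exists
    rcases h3 _ (hmem n) with h | h
    · exact hμ _ h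
    · have : mM (F (φ n)) < 1 + δ := hn
      linarith

end

end Pool.Agent.T9h56.EQ
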