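import Pool.Agent.T9h56.EQ.Test
import Mathlib.Topology.ContinuousMap.SecondCountableSpace

/-!
# A countable dense family of metrics
-/

set_option autoImplicit false

namespace Pool.Agent.T9h56.EQ

open Polynomial Filter MeasureTheory Topology Pool.Agent.H261R2.CM Pool.Agent.T9h56.MT
  Pool.Agent.T9h56.SQ OnePoint

noncomputable section

variable {N : ℕ}

/-- the unit sphere -/
abbrev Sph (N : ℕ) : Type := Metric.sphere (0 : Fin N → ℂ) 1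

theorem unit_mem {c : Fin N → ℂ} (hc : c ≠ 0) :
    ((‖c‖⁻¹ : ℝ) : ℂ) • c ∈ Metric.sphere (0 : Fin N → ℂ) 1 := by
  rw [mem_sphere_zero_iff_norm, norm_smul, Complex.norm_real, norm_inv, norm_norm,
    inv_mul_cancel₀ (norm_ne_zero_iff.2 hc)]

theorem sph_ne (u : Sph N) : (u : Fin N → ℂ) ≠ 0 := by
  intro h
  have := mem_sphere_zero_iff_norm.1 u.2
  rw [h, norm_zero] at this
  exact zero_ne_one this

open Classical in
/-- the extension of a function on the sphere -/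
def Gx (g : C(Sph N, ℝ)) (c : Fin N → ℂ) : ℝ :=
  if h : c ≠ 0 then g ⟨((‖c‖⁻¹ : ℝ) : ℂ) • c, unit_mem h⟩ else 0

theorem Gx_continuousAt (g : C(Sph N, ℝ)) (c : Fin N → ℂ) (hc : c ≠ 0) : ContinuousAt (Gx g) c := by
  have h1 : IsOpen {c : Fin N → ℂ | c ≠ 0} := isOpen_ne
  have h2 : ContinuousOn (Gx g) {c : Fin N → ℂ | c ≠ 0} := by
    rw [continuousOn_iff_continuous_restrict]
    have h3 : ({c : Fin N → ℂ | c ≠ 0}).domRestrict (Gx g) = fun c : {c : Fin N → ℂ | c ≠ 0} =>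
        g ⟨((‖(c : Fin N → ℂ)‖⁻¹ : ℝ) : ℂ) • (c : Fin N → ℂ), unit_mem c.2⟩ := by
      funext c
      have h4 : (c : Fin N → ℂ) ≠ 0 := c.2
      rw [Set.domRestrict_apply, Gx, dif_pos h4]
    rw [h3]
    refine g.continuous.comp (Continuous.subtype_mk ?_ _)
    have h5 : Continuous fun c : {c : Fin N → ℂ | c ≠ 0} => ((‖(c : Fin N → ℂ)‖⁻¹ : ℝ) : ℂ) := by
      refine Complex.continuous_ofReal.comp (Continuous.inv₀ continuous_subtype_val.norm ?_)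
      exact fun x => norm_ne_zero_iff.2 x.2
    exact h5.smul continuous_subtype_val
  exact h2.continuousAt (h1.mem_nhds hc)

/-- invariance under rotations -/
def Inv (g : C(Sph N, ℝ)) : Prop :=
  ∀ u v : Sph N, (∃ z : ℂ, (v : Fin N → ℂ) = z • (u : Fin N → ℂ)) → g u = g v

theorem Gx_smul {g : C(Sph N, ℝ)} (hg : Inv g) (a : ℂ) (ha : a ≠ 0) (c : Fin N → ℂ) :
    Gx g (a • c) = Gx g c := by
  by_cases hc : c = 0
  · rw [hc, smul_zero]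
  · have h1 : a • c ≠ 0 := smul_ne_zero ha hc
    have h2 : c ≠ 0 := hc
    rw [Gx, dif_pos h1, Gx, dif_pos h2]
    refine (hg _ _ ⟨((‖a • c‖⁻¹ : ℝ) : ℂ) * a * (‖c‖ : ℂ), ?_⟩).symm
    simp only [smul_smul]
    congr 1
    have h3 : (‖c‖ : ℂ) ≠ 0 := by exact_mod_cast norm_ne_zero_iff.2 hc
    push_cast
    field_simp

theorem exists_dense_metrics (N : ℕ) : ∃ ψ : ℕ → (Fin N → ℂ) → ℝ, (∀ l, IsMetric (ψ l)) ∧
    ∀ φ : (Fin N → ℂ) → ℝ, IsMetric φ → ∀ ε : ℝ, 0 < ε → ∃ l, ∀ c, c ≠ 0 →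
      |Real.log (φ c) - Real.log (ψ l c)| ≤ ε := by
  haveI : Nonempty {g : C(Sph N, ℝ) // Inv g} := ⟨⟨0, fun _ _ _ => rfl⟩⟩
  set G : ℕ → {g : C(Sph N, ℝ) // Inv g} := TopologicalSpace.denseSeq _ with hG
  have hdense : DenseRange G := TopologicalSpace.denseRange_denseSeq _
  refine ⟨fun l c => ‖c‖ * Real.exp (Gx (G l).1 c), fun l =>
    metric_of _ (Gx_continuousAt _) (fun a ha c => Gx_smul (G l).2 a ha c), fun φ hφ ε hε => ?_⟩
  -- the function on the sphere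
  set g : C(Sph N, ℝ) := ⟨fun u => Real.log (φ u), by
    refine Continuous.log (hφ.1.comp continuous_subtype_val) fun u => ?_
    exact (hφ.2.2 _ (sph_ne u)).ne'⟩ with hg
  have hinv : Inv g := by
    rintro u v ⟨z, hz⟩
    simp only [hg, ContinuousMap.coe_mk]
    have h1 := mem_sphere_zero_iff_norm.1 u.2
    have h2 := mem_sphere_zero_iff_norm.1 v.2
    rw [hz, norm_smul, h1, mul_one] at h2
    rw [hz, hφ.2.1, h2, one_mul]
  obtain ⟨l, hl⟩ := hdense.exists_dist_lt (⟨g, hinv⟩ : {g : C(Sph N, ℝ) // Inv g}) hε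
  refine ⟨l, fun c hc => ?_⟩
  have h1 : dist g (G l).1 < ε := hl
  rw [ContinuousMap.dist_lt_iff hε] at h1
  have h2 := h1 ⟨((‖c‖⁻¹ : ℝ) : ℂ) • c, unit_mem hc⟩
  have hn : 0 < ‖c‖ := norm_pos_iff.2 hc
  have h3 : Real.log (‖c‖ * Real.exp (Gx (G l).1 c)) =
      Real.log ‖c‖ + (G l).1 ⟨((‖c‖⁻¹ : ℝ) : ℂ) • c, unit_mem hc⟩ := by
    rw [Real.log_mul hn.ne' (Real.exp_pos _).ne', Real.log_exp, Gx, dif_pos hc]
  have h4 : Real.log (φ c) = Real.log ‖c‖ + g ⟨((‖c‖⁻¹ : ℝ) : ℂ) • c, unit_mem hc⟩ := by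
    have h5 : φ c = ‖c‖ * φ (((‖c‖⁻¹ : ℝ) : ℂ) • c) := by
      rw [hφ.2.1, Complex.norm_real, norm_inv, norm_norm, ← mul_assoc, mul_inv_cancel₀ hn.ne',
        one_mul]
    have h6 : 0 < φ (((‖c‖⁻¹ : ℝ) : ℂ) • c) :=
      hφ.2.2 _ (sph_ne ⟨((‖c‖⁻¹ : ℝ) : ℂ) • c, unit_mem hc⟩)
    rw [h5, Real.log_mul hn.ne' h6.ne']
    rfl
  simp only [h3, h4]
  rw [Real.dist_eq] at h2
  have h7 : Real.log ‖c‖ + g ⟨((‖c‖⁻¹ : ℝ) : ℂ) • c, unit_mem hc⟩ -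
      (Real.log ‖c‖ + (G l).1 ⟨((‖c‖⁻¹ : ℝ) : ℂ) • c, unit_mem hc⟩) =
      g ⟨((‖c‖⁻¹ : ℝ) : ℂ) • c, unit_mem hc⟩ - (G l).1 ⟨((‖c‖⁻¹ : ℝ) : ℂ) • c, unit_mem hc⟩ := by
    ring
  rw [h7]
  exact h2.le

end

end Pool.Agent.T9h56.EQ
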