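import Pool.Agent.T9h56.EQ.Met

/-!
# The discriminant and the power sums of the reflected zeros
-/

set_option autoImplicit false

namespace Pool.Agent.T9h56.EQ

open Polynomial Filter MeasureTheory Topology Pool.Agent.H261R2.CM Pool.Agent.T9h56.MT
  Pool.Agent.T9h56.SQ OnePoint

noncomputable section

/-! ### one polynomial -/

theorem eval_der {q : ℂ[X]} {a : ℂ} (ha : a ∈ q.roots) :
    q.derivative.eval a = q.leadingCoeff * ((q.roots.erase a).map (a - ·)).prod := by
  have h1 := (IsAlgClosed.splits q).eq_prod_roots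
  conv_lhs => rw [h1]
  rw [Polynomial.derivative_C_mul, Polynomial.eval_mul, Polynomial.eval_C,
    Polynomial.eval_multiset_prod_X_sub_C_derivative ha]

theorem log_res {q : ℂ[X]} {d : ℕ} (hd : q.natDegree = d) (hd1 : 1 ≤ d)
    (hres : resultant q q.derivative d (d - 1) ≠ 0) :
    q.roots.Nodup ∧ Real.log ‖resultant q q.derivative d (d - 1)‖ =
      (2 * (d : ℝ) - 1) * Real.log ‖q.leadingCoeff‖ +
        ∑ a ∈ q.roots.toFinset, ∑ b ∈ q.roots.toFinset.erase a, Real.log ‖a - b‖ := by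
  have hq0 : q ≠ 0 := by
    rintro rfl
    simp at hd
    omega
  have hder : q.derivative.natDegree ≤ d - 1 := by
    rw [← hd]
    exact Polynomial.natDegree_derivative_le q
  have h1 := resultant_eq_prod_eval q q.derivative (d - 1) hder (IsAlgClosed.splits q)
  rw [hd] at h1
  rw [h1] at hres
  have h2 : (q.roots.map q.derivative.eval).prod ≠ 0 := right_ne_zero_of_mul hres
  have h3 : ∀ a ∈ q.roots, q.derivative.eval a ≠ 0 := by
    intro a ha h4
    apply h2
    rw [Multiset.prod_eq_zero_iff]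
    exact Multiset.mem_map.2 ⟨a, ha, h4⟩
  have hnd : q.roots.Nodup := by
    rw [Multiset.nodup_iff_count_le_one]
    intro a
    by_contra h4
    push Not at h4
    rw [Polynomial.count_roots] at h4
    have h5 := (Polynomial.one_lt_rootMultiplicity_iff_isRoot hq0).1 h4
    exact h3 a ((Polynomial.mem_roots hq0).2 h5.1) h5.2
  refine ⟨hnd, ?_⟩
  have hlc : q.leadingCoeff ≠ 0 := Polynomial.leadingCoeff_ne_zero.2 hq0
  have hcard : q.roots.toFinset.card = d := by
    rw [Multiset.toFinset_card_of_nodup hnd, ← hd]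
    exact IsAlgClosed.card_roots_eq_natDegree
  have h4 : (q.roots.map q.derivative.eval).prod = ∏ a ∈ q.roots.toFinset, q.derivative.eval a := by
    rw [Finset.prod, Multiset.toFinset_val, hnd.dedup]
  have h5 : ∀ a ∈ q.roots.toFinset, q.derivative.eval a =
      q.leadingCoeff * ∏ b ∈ q.roots.toFinset.erase a, (a - b) := by
    intro a ha
    rw [eval_der (Multiset.mem_toFinset.1 ha), Finset.prod, Finset.erase_val,
      Multiset.toFinset_val, hnd.dedup]
  rw [h1, h4, Finset.prod_congr rfl h5, norm_mul, norm_pow, norm_prod]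
  have h6 : ∀ a ∈ q.roots.toFinset, ∀ b ∈ q.roots.toFinset.erase a, ‖a - b‖ ≠ 0 := by
    intro a _ b hb
    exact norm_ne_zero_iff.2 (sub_ne_zero.2 (Finset.ne_of_mem_erase hb).symm)
  have h7 : ∀ a ∈ q.roots.toFinset, ‖q.leadingCoeff * ∏ b ∈ q.roots.toFinset.erase a, (a - b)‖ ≠ 0 := by
    intro a ha
    rw [norm_mul, norm_prod]
    exact mul_ne_zero (norm_ne_zero_iff.2 hlc) (Finset.prod_ne_zero_iff.2 (h6 a ha))
  rw [Real.log_mul (pow_ne_zero _ (norm_ne_zero_iff.2 hlc)) (Finset.prod_ne_zero_iff.2 h7),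
    Real.log_pow, Real.log_prod h7]
  have h8 : ∀ a ∈ q.roots.toFinset,
      Real.log ‖q.leadingCoeff * ∏ b ∈ q.roots.toFinset.erase a, (a - b)‖ =
      Real.log ‖q.leadingCoeff‖ + ∑ b ∈ q.roots.toFinset.erase a, Real.log ‖a - b‖ := by
    intro a ha
    rw [norm_mul, norm_prod, Real.log_mul (norm_ne_zero_iff.2 hlc)
      (Finset.prod_ne_zero_iff.2 (h6 a ha)), Real.log_prod (h6 a ha)]
  rw [Finset.sum_congr rfl h8, Finset.sum_add_distrib, Finset.sum_const, hcard, nsmul_eq_mul,
    Nat.cast_sub hd1]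
  push_cast
  ring

theorem log_mahler_eq (q : ℂ[X]) (hnd : q.roots.Nodup) : Real.log q.mahlerMeasure =
    Real.log ‖q.leadingCoeff‖ + ∑ a ∈ q.roots.toFinset, Real.log (max 1 ‖a‖) := by
  rw [← Polynomial.logMahlerMeasure_eq_log_MahlerMeasure,
    Polynomial.logMahlerMeasure_eq_log_leadingCoeff_add_sum_log_roots, Finset.sum,
    Multiset.toFinset_val, hnd.dedup]
  congr 2
  refine Multiset.map_congr rfl fun a _ => ?_
  rw [Real.posLog_eq_log_max_one (norm_nonneg _)]

/-- the reflection on the sphere -/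
def foldO : OnePoint ℂ → ℂ := fun x => x.elim 0 fold

theorem fold_continuous : Continuous fold := by
  unfold fold
  have h : Continuous fun z : ℂ => ((starRingEnd ℂ) z / (max (‖z‖ ^ 2) 1 : ℝ) : ℂ) := by
    refine Complex.continuous_conj.div ?_ ?_
    · exact Complex.continuous_ofReal.comp ((continuous_norm.pow 2).max continuous_const)
    · intro z
      have : (0 : ℝ) < max (‖z‖ ^ 2) 1 := lt_max_of_lt_right one_pos
      exact_mod_cast this.ne'
  have h2 : ∀ z : ℂ, ¬ ‖z‖ ≤ 1 → ((starRingEnd ℂ) z)⁻¹ = (starRingEnd ℂ) ((starRingEnd ℂ) z / (max (‖z‖ ^ 2) 1 : ℝ) : ℂ) := by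
    intro z hz
    have hz1 : 1 < ‖z‖ := not_le.1 hz
    have hz0 : z ≠ 0 := by
      rintro rfl
      simp at hz
    rw [max_eq_left (by nlinarith : (1:ℝ) ≤ ‖z‖ ^ 2)]
    rw [map_div₀, Complex.conj_conj, Complex.conj_ofReal, Complex.ofReal_pow, ← Complex.mul_conj']
    have hc : (starRingEnd ℂ) z ≠ 0 := by
      rw [Ne, map_eq_zero]
      exact hz0
    field_simp
  have h3 : (fun z : ℂ => if ‖z‖ ≤ 1 then z else ((starRingEnd ℂ) z)⁻¹) = fun z : ℂ =>
      if ‖z‖ ≤ 1 then z else (starRingEnd ℂ) ((starRingEnd ℂ) z / (max (‖z‖ ^ 2) 1 : ℝ) : ℂ) := by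
    funext z
    split_ifs with h
    · rfl
    · exact h2 z h
  rw [h3]
  refine Continuous.if_le continuous_id (Complex.continuous_conj.comp h) continuous_norm
    continuous_const ?_
  intro z hz
  simp only [hz, one_pow, max_self, Complex.ofReal_one, div_one, Complex.conj_conj]

theorem foldO_continuous : Continuous foldO := by
  rw [OnePoint.continuous_iff]
  refine ⟨?_, fold_continuous⟩
  show Tendsto fold (coclosedCompact ℂ) (𝓝 0)
  rw [Filter.coclosedCompact_eq_cocompact]
  have h1 : Tendsto (fun z : ℂ => ‖z‖⁻¹) (cocompact ℂ) (𝓝 0) :=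
    tendsto_inv_atTop_zero.comp (tendsto_norm_cocompact_atTop (E := ℂ))
  refine squeeze_zero_norm' ?_ h1
  have h2 : ∀ᶠ z : ℂ in cocompact ℂ, 1 < ‖z‖ :=
    (tendsto_norm_cocompact_atTop (E := ℂ)).eventually_gt_atTop 1
  filter_upwards [h2] with z hz
  unfold fold
  rw [if_neg (not_le.2 hz), norm_inv, RCLike.norm_conj]

variable {d k : ℕ}

/-- the power sums of the reflected zeros -/
def ps (n : ℕ) (c : Fin (d + 1) → ℂ) : ℂ := rs (fun x => foldO x ^ n) c

theorem ps_eq (n : ℕ) {c : Fin (d + 1) → ℂ} (h : c (Fin.last d) ≠ 0) (hnd : (pol c).roots.Nodup) :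
    ps n c = ∑ a ∈ (pol c).roots.toFinset, fold a ^ n := by
  unfold ps
  rw [rs_of_last _ h, Finset.sum, Multiset.toFinset_val, hnd.dedup]
  rfl

theorem ps_continuousAt (n : ℕ) (c : Fin (d + 1) → ℂ) (hc : c ≠ 0) : ContinuousAt (ps n) c :=
  rs_continuousAt (foldO_continuous.pow n) c hc

theorem rs_bound {f : OnePoint ℂ → ℂ} {B : ℝ} (hf : ∀ x, ‖f x‖ ≤ B) (c : Fin (d + 1) → ℂ) :
    ‖rs f c‖ ≤ d * B := by
  unfold rs
  have h1 : ‖((pol c).roots.map fun a : ℂ => f (a : OnePoint ℂ)).sum‖ ≤ (pol c).natDegree * B := by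
    have h2 : ∀ s : Multiset ℂ, ‖(s.map fun a : ℂ => f (a : OnePoint ℂ)).sum‖ ≤ Multiset.card s * B := by
      intro s
      induction s using Multiset.induction_on with
      | empty => simp
      | cons a s ih =>
        rw [Multiset.map_cons, Multiset.sum_cons, Multiset.card_cons]
        push_cast
        have := norm_add_le (f (a : OnePoint ℂ)) (s.map fun a : ℂ => f (a : OnePoint ℂ)).sum
        have := hf (a : OnePoint ℂ)
        linarith
    refine (h2 _).trans (le_of_eq ?_)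
    rw [IsAlgClosed.card_roots_eq_natDegree]
  have h3 : ‖(d - (pol c).natDegree) • f ∞‖ ≤ ((d : ℝ) - (pol c).natDegree) * B := by
    rw [nsmul_eq_mul, norm_mul, Complex.norm_natCast, Nat.cast_sub (natDegree_pol_le c)]
    refine mul_le_mul_of_nonneg_left (hf _) ?_
    rw [sub_nonneg]
    exact_mod_cast natDegree_pol_le c
  refine (norm_add_le _ _).trans ?_
  linarith

theorem norm_foldO (x : OnePoint ℂ) : ‖foldO x‖ ≤ 1 := by
  induction x using OnePoint.rec with
  | infty => simp [foldO]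
  | coe z => exact norm_fold_le z

theorem ps_bound (n : ℕ) (c : Fin (d + 1) → ℂ) : ‖ps n c‖ ≤ d := by
  have h := rs_bound (f := fun x => foldO x ^ n) (B := 1) (fun x => by
    rw [norm_pow]
    exact pow_le_one₀ (norm_nonneg _) (norm_foldO x)) c
  rwa [mul_one] at h

/-! ### integrals over the torus -/

/-- the unit cube -/
def cube (k : ℕ) : Measure (Fin k → ℝ) := (volume : Measure (Fin k → ℝ)).restrict (Set.Icc 0 1)

instance : IsProbabilityMeasure (cube k) := by
  refine ⟨?_⟩
  rw [cube, Measure.restrict_apply_univ, Real.volume_Icc_pi]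
  simp

theorem cube_meas {E : Type*} [TopologicalSpace E] [TopologicalSpace.PseudoMetrizableSpace E]
    {N : ℕ} {g : (Fin N → ℂ) → E}
    (hg : ∀ c, c ≠ 0 → ContinuousAt g c) {A : Fin N → MvPolynomial (Fin k) ℤ} {i : Fin N}
    (hi : A i ≠ 0) : AEStronglyMeasurable (fun t => g (cv A t)) (cube k) := by
  have h1 : ContinuousOn (fun t => g (cv A t)) {t | cv A t ≠ 0} := by
    intro t ht
    exact ((hg _ ht).comp (cv_continuous A).continuousAt).continuousWithinAt
  have h2 : IsOpen {t | cv A t ≠ 0} := isOpen_ne_fun (cv_continuous A) continuous_const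
  have h3 : ∀ᵐ t ∂(cube k), t ∈ {t | cv A t ≠ 0} := by
    filter_upwards [F_zero_null hi] with t ht
    exact cv_ne ht
  have h4 := h1.aestronglyMeasurable (μ := cube k) h2.measurableSet
  rwa [Measure.restrict_eq_self_of_ae_mem h3] at h4

/-- the polynomial over the ring of the other variables -/
def RP (A : Fin (d + 1) → MvPolynomial (Fin k) ℤ) : (MvPolynomial (Fin k) ℤ)[X] :=
  ∑ j, C (A j) * X ^ (j : ℕ)

theorem RP_eq (A : Fin (d + 1) → MvPolynomial (Fin k) ℤ) :
    MvPolynomial.finSuccEquiv ℤ k (FP A) = RP A := fse_PS A _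

theorem coeff_RP (A : Fin (d + 1) → MvPolynomial (Fin k) ℤ) (n : ℕ) :
    (RP A).coeff n = if h : n < d + 1 then A ⟨n, h⟩ else 0 := by
  unfold RP
  rw [Polynomial.finsetSum_coeff]
  simp only [Polynomial.coeff_C_mul, Polynomial.coeff_X_pow, mul_ite, mul_one, mul_zero]
  split_ifs with h
  · rw [Finset.sum_eq_single ⟨n, h⟩]
    · simp
    · intro j _ hj
      rw [if_neg]
      intro h1
      exact hj (Fin.ext h1.symm)
    · intro h1
      exact absurd (Finset.mem_univ _) h1
  · refine Finset.sum_eq_zero fun j _ => ?_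
    rw [if_neg]
    intro h1
    exact h (h1 ▸ j.2)

theorem natDegree_RP {A : Fin (d + 1) → MvPolynomial (Fin k) ℤ} (h : A (Fin.last d) ≠ 0) :
    (RP A).natDegree = d := by
  refine le_antisymm ?_ (Polynomial.le_natDegree_of_ne_zero ?_)
  · rw [Polynomial.natDegree_le_iff_coeff_eq_zero]
    intro n hn
    rw [coeff_RP, dif_neg (by omega)]
  · rw [coeff_RP, dif_pos (Nat.lt_succ_self d)]
    exact h

theorem leadingCoeff_RP {A : Fin (d + 1) → MvPolynomial (Fin k) ℤ} (h : A (Fin.last d) ≠ 0) :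
    (RP A).leadingCoeff = A (Fin.last d) := by
  rw [Polynomial.leadingCoeff, natDegree_RP h, coeff_RP, dif_pos (Nat.lt_succ_self d)]
  rfl

theorem map_RP (A : Fin (d + 1) → MvPolynomial (Fin k) ℤ) (t : Fin k → ℝ) :
    (RP A).map (J.tvh t) = pol (cv A t) := by
  unfold RP pol
  rw [Polynomial.map_sum]
  refine Finset.sum_congr rfl fun j _ => ?_
  rw [Polynomial.map_mul, Polynomial.map_C, Polynomial.map_pow, Polynomial.map_X]
  rfl

theorem leadingCoeff_pol {c : Fin (d + 1) → ℂ} (h : c (Fin.last d) ≠ 0) :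
    (pol c).leadingCoeff = c (Fin.last d) := by
  rw [Polynomial.leadingCoeff, natDegree_pol h, coeff_pol, dif_pos (Nat.lt_succ_self d)]
  rfl

/-- the pointwise inequality for the discriminant -/
theorem disc_le_ae {A : Fin (d + 1) → MvPolynomial (Fin k) ℤ} (hd : 2 ≤ d) (n : ℕ) (hn : 1 ≤ n)
    (hnd : n ≤ d) {t : Fin k → ℝ} (hA : A (Fin.last d) ≠ 0)
    (ht : tv (A (Fin.last d)) t ≠ 0) (hdisc : tv (RP A).discr t ≠ 0) :
    Real.log ‖tv (RP A).discr t‖ ≤ 2 * ((d : ℝ) - 1) * Real.log (mm (cv A t)) +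
      d * Real.log d + d - 1 / (4 * n) * ‖ps n (cv A t)‖ ^ 2 := by
  set q := pol (cv A t) with hq
  have hlast : (cv A t) (Fin.last d) ≠ 0 := ht
  have hqd : q.natDegree = d := natDegree_pol hlast
  have hlc : q.leadingCoeff = tv (A (Fin.last d)) t := leadingCoeff_pol hlast
  have h1 := resultant_deriv (f := RP A) (by
    rw [← Polynomial.natDegree_pos_iff_degree_pos, natDegree_RP hA]
    omega)
  rw [natDegree_RP hA, leadingCoeff_RP hA] at h1
  have h2 := resultant_map_map (RP A) (RP A).derivative d (d - 1) (J.tvh t)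
  rw [← Polynomial.derivative_map, map_RP, h1, map_mul, map_mul, ← J.tv_eq, ← J.tv_eq, ← hq] at h2
  have h3 : ‖tv ((-1 : MvPolynomial (Fin k) ℤ) ^ (d * (d - 1) / 2)) t‖ = 1 := by
    rw [J.tv_eq, map_pow, map_neg, map_one, norm_pow, norm_neg, norm_one, one_pow]
  have h4 : ‖resultant q q.derivative d (d - 1)‖ = ‖tv (A (Fin.last d)) t‖ * ‖tv (RP A).discr t‖ := by
    rw [h2, norm_mul, norm_mul, h3, one_mul]
    rfl
  have h5 : resultant q q.derivative d (d - 1) ≠ 0 := by
    rw [← norm_ne_zero_iff, h4]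
    exact mul_ne_zero (norm_ne_zero_iff.2 ht) (norm_ne_zero_iff.2 hdisc)
  obtain ⟨hnodup, h6⟩ := log_res hqd (by omega) h5
  rw [h4, Real.log_mul (norm_ne_zero_iff.2 ht) (norm_ne_zero_iff.2 hdisc), hlc] at h6
  have hcard : q.roots.toFinset.card = d := by
    rw [Multiset.toFinset_card_of_nodup hnodup, ← hqd]
    exact IsAlgClosed.card_roots_eq_natDegree
  have h7 := energy q.roots.toFinset (by rw [hcard]; exact hd) n hn (by rw [hcard]; exact hnd)
  rw [hcard, ← ps_eq n hlast hnodup] at h7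
  have h8 := log_mahler_eq q hnodup
  have h9 : Real.log (mm (cv A t)) = Real.log q.mahlerMeasure := rfl
  rw [h9, h8, hlc]
  linarith

/-- **The mean square of the power sums of the reflected zeros.** -/
theorem ps_mean {A : Fin (d + 1) → MvPolynomial (Fin k) ℤ} (hd : 2 ≤ d) (n : ℕ) (hn : 1 ≤ n)
    (hnd : n ≤ d) (hA : A (Fin.last d) ≠ 0) (hdisc : (RP A).discr ≠ 0) :
    ∫ t, ‖ps n (cv A t)‖ ^ 2 ∂(cube k) ≤
      4 * n * (2 * d * Hk mm A + d * Real.log d + d) := by
  have hpsm : AEStronglyMeasurable (fun t => ps n (cv A t)) (cube k) :=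
    cube_meas (fun c hc => ps_continuousAt n c hc) hA
  have hps : Integrable (fun t => ‖ps n (cv A t)‖ ^ 2) (cube k) := by
    refine Integrable.of_bound ((hpsm.norm).pow 2) ((d : ℝ) ^ 2) (Eventually.of_forall fun t => ?_)
    rw [Real.norm_of_nonneg (by positivity)]
    exact pow_le_pow_left₀ (norm_nonneg _) (ps_bound n _) 2
  have hmm : Integrable (fun t => Real.log (mm (cv A t))) (cube k) :=
    Hk_integrable mm_isMetric A _ hA
  have hD : Integrable (fun t => Real.log ‖tv (RP A).discr t‖) (cube k) := F_integrable hdisc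
  have h0 : 0 ≤ ∫ t, Real.log ‖tv (RP A).discr t‖ ∂(cube k) := by
    have h1 := one_le_mM _ hdisc
    unfold mM at h1
    have h2 := Real.log_nonneg h1
    rwa [Real.log_exp] at h2
  have hmm0 : 0 ≤ Hk mm A := by
    have h1 := one_le_mM (FP A) (PS_ne_zero A _ (fun i j h => Fin.ext h) ⟨_, hA⟩)
    rw [← log_mM_FP A ⟨_, hA⟩]
    exact Real.log_nonneg h1
  have i1 : Integrable (fun t => 2 * ((d : ℝ) - 1) * Real.log (mm (cv A t))) (cube k) :=
    hmm.const_mul _
  have i2 : Integrable (fun t => 2 * ((d : ℝ) - 1) * Real.log (mm (cv A t)) +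
      (d * Real.log d + d)) (cube k) := i1.add (integrable_const _)
  have i3 : Integrable (fun t => 1 / (4 * (n : ℝ)) * ‖ps n (cv A t)‖ ^ 2) (cube k) :=
    hps.const_mul _
  have h1 : ∫ t, Real.log ‖tv (RP A).discr t‖ ∂(cube k) ≤
      ∫ t, (2 * ((d : ℝ) - 1) * Real.log (mm (cv A t)) + (d * Real.log d + d) -
        1 / (4 * (n : ℝ)) * ‖ps n (cv A t)‖ ^ 2) ∂(cube k) := by
    refine integral_mono_ae hD (i2.sub i3) ?_
    filter_upwards [F_zero_null hA, F_zero_null hdisc] with t ht1 ht2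
    have := disc_le_ae hd n hn hnd hA ht1 ht2
    linarith
  rw [integral_sub i2 i3, integral_add i1 (integrable_const _), integral_const_mul,
    integral_const_mul, integral_const] at h1
  rw [probReal_univ, one_smul] at h1
  have h2 : ∫ t, Real.log (mm (cv A t)) ∂(cube k) = Hk mm A := rfl
  rw [h2] at h1
  have hnR : (1 : ℝ) ≤ n := by exact_mod_cast hn
  set I := ∫ t, ‖ps n (cv A t)‖ ^ 2 ∂(cube k) with hI
  have h3 : 1 / (4 * (n : ℝ)) * I ≤ 2 * d * Hk mm A + d * Real.log d + d := by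
    have h4 : 2 * ((d : ℝ) - 1) * Hk mm A ≤ 2 * d * Hk mm A := by nlinarith
    linarith
  have h5 : I = 4 * n * (1 / (4 * (n : ℝ)) * I) := by
    field_simp
  rw [h5]
  exact mul_le_mul_of_nonneg_left h3 (by positivity)

end

end Pool.Agent.T9h56.EQ
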