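import Pool.Agent.T9h56.EQ.Cor

/-!
# No polynomial is equidistributed
-/

set_option autoImplicit false

namespace Pool.Agent.T9h56.EQ

open Polynomial Filter MeasureTheory Topology Pool.Agent.H261R2.CM Pool.Agent.T9h56.MT
  Pool.Agent.T9h56.SQ OnePoint

noncomputable section

variable {d k : ℕ}

/-- bump functions with disjoint supports meeting the unit circle -/
theorem exists_bumps (d : ℕ) : ∃ f : Fin (d + 1) → C(OnePoint ℂ, ℝ), (∀ i x, 0 ≤ f i x) ∧
    (∀ i, 0 < hr (f i)) ∧ (∀ i, f i ∞ = 0) ∧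
    ∀ i j (z : ℂ), f i (z : OnePoint ℂ) ≠ 0 → f j (z : OnePoint ℂ) ≠ 0 → i = j := by
  set a : ℕ → ℝ := fun i => (i : ℝ) / (d + 1) with ha
  have hd0 : (0 : ℝ) < (d : ℝ) + 1 := by positivity
  have hstep : ∀ i : ℕ, a (i + 1) = a i + 1 / (d + 1) := by
    intro i
    simp only [ha]
    push_cast
    ring
  set V : Fin (d + 1) → Set ℂ := fun i => {z | a i < z.re ∧ z.re < a (i + 1)} with hV
  have hVo : ∀ i, IsOpen (V i) := fun i =>
    (isOpen_lt continuous_const Complex.continuous_re).inter
      (isOpen_lt Complex.continuous_re continuous_const)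
  have hVo' : ∀ i, IsOpen ((fun z : ℂ => (z : OnePoint ℂ)) '' V i) := fun i =>
    OnePoint.isOpenEmbedding_coe.isOpenMap _ (hVo i)
  set m : Fin (d + 1) → ℝ := fun i => a i + 1 / (2 * (d + 1)) with hm
  have hm0 : ∀ i, 0 ≤ m i := fun i => by
    simp only [hm, ha]
    positivity
  have hm1 : ∀ i, m i ≤ 1 := by
    intro i
    simp only [hm, ha]
    rw [div_add_div _ _ hd0.ne' (by positivity), div_le_one (by positivity)]
    have h1 : (i : ℕ) + 1 ≤ d + 1 := i.2
    have h2 : ((i : ℕ) : ℝ) + 1 ≤ (d : ℝ) + 1 := by exact_mod_cast h1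
    nlinarith
  set s : Fin (d + 1) → ℝ := fun i => Real.arccos (m i) / (2 * Real.pi) with hs
  have hs0 : ∀ i, s i ∈ Set.Icc (0:ℝ) 1 := by
    intro i
    have h1 := Real.arccos_nonneg (m i)
    have h2 := Real.arccos_le_pi (m i)
    have h3 := Real.pi_pos
    refine ⟨by positivity, ?_⟩
    rw [hs]
    simp only
    rw [div_le_one (by positivity)]
    linarith
  have hre : ∀ i, (ez (s i)).re = m i := by
    intro i
    unfold ez
    have h1 : 2 * (Real.pi : ℂ) * Complex.I * ((s i : ℝ) : ℂ) =
        ((Real.arccos (m i) : ℝ) : ℂ) * Complex.I := by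
      rw [hs]
      push_cast
      have : (Real.pi : ℂ) ≠ 0 := by exact_mod_cast Real.pi_ne_zero
      field_simp
    rw [h1, Complex.exp_ofReal_mul_I_re, Real.cos_arccos (by linarith [hm0 i]) (hm1 i)]
  have hmem : ∀ i, ez (s i) ∈ V i := by
    intro i
    have h1 : 0 < 1 / (2 * ((d : ℝ) + 1)) := by positivity
    have h2 : 1 / (2 * ((d : ℝ) + 1)) < 1 / (d + 1) := by
      rw [div_lt_div_iff_of_pos_left one_pos (by positivity) hd0]
      linarith
    constructor
    · rw [hre]
      simp only [hm]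
      linarith
    · rw [hre, hstep]
      simp only [hm]
      linarith
  choose f hf0 hf1 hf using fun i => exists_continuous_zero_one_of_isClosed
    (hVo' i).isClosed_compl (isClosed_singleton (x := ((ez (s i) : ℂ) : OnePoint ℂ))) (by
      rw [Set.disjoint_singleton_right]
      intro h
      exact h ⟨_, hmem i, rfl⟩)
  have hsupp : ∀ i (z : ℂ), f i (z : OnePoint ℂ) ≠ 0 → z ∈ V i := by
    intro i z hz
    by_contra h
    apply hz
    refine hf0 i ?_
    rintro ⟨w, hw, hwz⟩
    rw [OnePoint.coe_eq_coe] at hwz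
    exact h (hwz ▸ hw)
  refine ⟨f, fun i x => (hf i x).1, fun i => ?_, fun i => ?_, fun i j z hi hj => ?_⟩
  · unfold hr
    have hcont : Continuous fun s => f i ((ez s : ℂ) : OnePoint ℂ) :=
      (f i).continuous.comp (OnePoint.continuous_coe.comp ez_continuous)
    refine intervalIntegral.integral_pos zero_lt_one hcont.continuousOn
      (fun s _ => (hf i _).1) ⟨s i, hs0 i, ?_⟩
    rw [hf1 i rfl]
    exact one_pos
  · refine hf0 i ?_
    rintro ⟨w, _, hwz⟩
    exact OnePoint.coe_ne_infty w hwz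
  · have h1 := hsupp i z hi
    have h2 := hsupp j z hj
    obtain ⟨h3, h4⟩ := h1
    obtain ⟨h5, h6⟩ := h2
    have h7 : a i < a (j + 1) := h3.trans h6
    have h8 : a j < a (i + 1) := h5.trans h4
    simp only [ha] at h7 h8
    rw [div_lt_div_iff_of_pos_right hd0] at h7 h8
    have h9 : (i : ℕ) < (j : ℕ) + 1 := by exact_mod_cast h7
    have h10 : (j : ℕ) < (i : ℕ) + 1 := by exact_mod_cast h8
    exact Fin.ext (by omega)

/-- every admissible polynomial is far from equidistribution for some function -/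
theorem exists_far {F : MvPolynomial (Fin (k + 1)) ℤ} (hF : Adm F) :
    ∃ f : C(OnePoint ℂ, ℝ), 0 < ∫ t in Set.Icc (0 : Fin k → ℝ) 1, |zeros F t f - hr f| := by
  classical
  obtain ⟨A, hA, hd, hP, hR, hl⟩ := hF.exists
  have hz : ∀ (f : C(OnePoint ℂ, ℝ)) t, zeros F t f = rs f (cv A t) / F.degreeOf 0 := by
    intro f t
    have h6 := congrFun (zeros_FP hl t) f
    rw [← hA] at h6
    exact h6
  obtain ⟨f, hf0, hfh, hfi, hfd⟩ := exists_bumps (F.degreeOf 0)
  obtain ⟨m, hm, hmf⟩ : ∃ m : ℝ, 0 < m ∧ ∀ i, m ≤ hr (f i) := by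
    obtain ⟨i, _, hi⟩ := Finset.exists_min_image Finset.univ (fun i => hr (f i))
      ⟨0, Finset.mem_univ _⟩
    exact ⟨hr (f i), hfh i, fun j => hi j (Finset.mem_univ _)⟩
  have hkey : ∀ c : Fin (F.degreeOf 0 + 1) → ℂ, ∃ i, rs (f i) c = 0 := by
    intro c
    by_contra hcon
    push Not at hcon
    have h1 : ∀ i, ∃ z ∈ (pol c).roots.toFinset, f i (z : OnePoint ℂ) ≠ 0 := by
      intro i
      by_contra h
      push Not at h
      apply hcon i
      unfold rs
      rw [hfi, smul_zero, add_zero]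
      refine Multiset.sum_eq_zero fun x hx => ?_
      obtain ⟨z, hz, rfl⟩ := Multiset.mem_map.1 hx
      exact h z (Multiset.mem_toFinset.2 hz)
    choose z hz1 hz2 using h1
    have h2 : Fintype.card (Fin (F.degreeOf 0 + 1)) ≤ (pol c).roots.toFinset.card := by
      rw [← Finset.card_univ]
      refine Finset.card_le_card_of_injOn z (fun i _ => hz1 i) ?_
      intro i _ j _ hij
      refine hfd i j (z i) (hz2 i) ?_
      rw [hij]
      exact hz2 j
    have h3 := (pol c).roots.toFinset_card_le
    have h4 := (pol c).card_roots'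
    have h5 := natDegree_pol_le c
    rw [Fintype.card_fin] at h2
    omega
  have hint : ∀ i, Integrable (fun t => |zeros F t (f i) - hr (f i)|) (cube k) := by
    intro i
    have hfm : AEStronglyMeasurable (fun t => rs (f i) (cv A t)) (cube k) :=
      cube_meas (fun c hc => rs_continuousAt (f i).continuous c hc) hl
    have h1 : Integrable (fun t => rs (f i) (cv A t)) (cube k) := by
      refine Integrable.of_bound hfm ((F.degreeOf 0 : ℝ) * ‖f i‖) (Eventually.of_forall fun t => ?_)
      rw [Real.norm_eq_abs]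
      exact rs_boundR (fun x => by
        rw [← Real.norm_eq_abs]
        exact (f i).norm_coe_le_norm x) _
    have h2 := ((h1.div_const (F.degreeOf 0 : ℝ)).sub (integrable_const (hr (f i)))).abs
    refine h2.congr (Eventually.of_forall fun t => ?_)
    simp only [Pi.sub_apply]
    rw [hz]
  by_contra hcon
  push Not at hcon
  have h1 : m ≤ ∫ t, (∑ i, |zeros F t (f i) - hr (f i)|) ∂(cube k) := by
    have h2 : ∫ _ : Fin k → ℝ, m ∂(cube k) = m := by
      rw [integral_const, probReal_univ, one_smul]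
    rw [← h2]
    refine integral_mono (integrable_const _) (integrable_finsetSum _ fun i _ => hint i) fun t => ?_
    obtain ⟨i, hi⟩ := hkey (cv A t)
    have h3 : |zeros F t (f i) - hr (f i)| ≤ ∑ i, |zeros F t (f i) - hr (f i)| :=
      Finset.single_le_sum (f := fun i => |zeros F t (f i) - hr (f i)|)
        (fun i _ => abs_nonneg _) (Finset.mem_univ i)
    have h4 : |zeros F t (f i) - hr (f i)| = hr (f i) := by
      rw [hz, hi, zero_div, zero_sub, abs_neg, abs_of_pos (hfh i)]
    simp only
    linarith [hmf i]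
  rw [integral_finsetSum _ fun i _ => hint i] at h1
  have h2 : ∑ i, ∫ t, |zeros F t (f i) - hr (f i)| ∂(cube k) ≤ 0 :=
    Finset.sum_nonpos fun i _ => hcon (f i)
  linarith

end

end Pool.Agent.T9h56.EQ
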