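import Pool.Agent.T9h56.EQ.Comp2

/-!
# The law of the empirical measure of the zeros, closedness
-/

set_option autoImplicit false

namespace Pool.Agent.T9h56.EQ

open Polynomial Filter MeasureTheory Topology Pool.Agent.H261R2.CM Pool.Agent.T9h56.MT
  Pool.Agent.T9h56.SQ OnePoint BoundedContinuousFunction

noncomputable section

/-- functionals on the continuous functions on the sphere -/
abbrev Fun : Type := C(OnePoint ℂ, ℝ) → ℝ

variable {d k : ℕ}

/-- the empirical measure of the zeros -/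
def emp (c : Fin (d + 1) → ℂ) : Fun := fun f => rs f c / d

/-- the uniform measure of the unit circle -/
def haarF : Fun := fun f => hr f

/-- the law of the empirical measure -/
def lawA (A : Fin (d + 1) → MvPolynomial (Fin k) ℤ) : (Fun →ᵇ ℝ) → ℝ :=
  fun Ψ => ∫ t, Ψ (emp (cv A t)) ∂(cube k)

/-- the law of the constant measure -/
def ptH : (Fun →ᵇ ℝ) → ℝ := fun Ψ => Ψ haarF

theorem emp_continuousAt (c : Fin (d + 1) → ℂ) (hc : c ≠ 0) :
    ContinuousAt (emp : (Fin (d + 1) → ℂ) → Fun) c := by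
  rw [continuousAt_pi]
  intro f
  exact (rs_continuousAt f.continuous c hc).div_const _

theorem emp_smul {a : ℂ} (ha : a ≠ 0) (c : Fin (d + 1) → ℂ) : emp (a • c) = emp c := by
  funext f
  unfold emp
  rw [rs_smul _ ha]

theorem psi_continuousAt (Ψ : Fun →ᵇ ℝ) (c : Fin (d + 1) → ℂ) (hc : c ≠ 0) :
    ContinuousAt (fun c : Fin (d + 1) → ℂ => Ψ (emp c)) c :=
  Ψ.continuous.continuousAt.comp (emp_continuousAt c hc)

/-- the metric of a function of the empirical measure -/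
def pm (Ψ : Fun →ᵇ ℝ) (c : Fin (d + 1) → ℂ) : ℝ := ‖c‖ * Real.exp (Ψ (emp c))

theorem pm_isMetric (Ψ : Fun →ᵇ ℝ) : IsMetric (pm (d := d) Ψ) :=
  metric_of _ (psi_continuousAt Ψ) fun a ha c => by rw [emp_smul ha]

theorem psi_integrable (Ψ : Fun →ᵇ ℝ) {A : Fin (d + 1) → MvPolynomial (Fin k) ℤ}
    {i : Fin (d + 1)} (hi : A i ≠ 0) : Integrable (fun t => Ψ (emp (cv A t))) (cube k) := by
  refine Integrable.of_bound (cube_meas (fun c hc => psi_continuousAt Ψ c hc) hi) ‖Ψ‖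
    (Eventually.of_forall fun t => ?_)
  exact Ψ.norm_coe_le_norm _

theorem lawA_eq (Ψ : Fun →ᵇ ℝ) {A : Fin (d + 1) → MvPolynomial (Fin k) ℤ}
    {i : Fin (d + 1)} (hi : A i ≠ 0) :
    lawA A Ψ = Hk (pm Ψ) A - Hk (fun c : Fin (d + 1) → ℂ => ‖c‖) A := by
  have i1 : Integrable (fun t => Real.log ‖cv A t‖) (cube k) :=
    Hk_integrable norm_isMetric A i hi
  have h1 : Hk (pm Ψ) A = ∫ t, (Real.log ‖cv A t‖ + Ψ (emp (cv A t))) ∂(cube k) := by
    unfold Hk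
    refine integral_congr_ae ?_
    filter_upwards [F_zero_null hi] with t ht
    have h2 : cv A t ≠ 0 := cv_ne ht
    show Real.log (pm Ψ (cv A t)) = _
    unfold pm
    rw [Real.log_mul (norm_ne_zero_iff.2 h2) (Real.exp_pos _).ne', Real.log_exp]
  rw [h1, integral_add i1 (psi_integrable Ψ hi)]
  unfold lawA
  have h2 : Hk (fun c : Fin (d + 1) → ℂ => ‖c‖) A = ∫ t, Real.log ‖cv A t‖ ∂(cube k) := rfl
  rw [h2]
  ring

/-! ### metrics which are close -/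

theorem Hk_close {N : ℕ} {φ ψ : (Fin N → ℂ) → ℝ} (hφ : IsMetric φ) (hψ : IsMetric ψ) {ε : ℝ}
    (h : ∀ c, c ≠ 0 → |Real.log (φ c) - Real.log (ψ c)| ≤ ε)
    {A : Fin N → MvPolynomial (Fin k) ℤ} {i : Fin N} (hi : A i ≠ 0) :
    |Hk φ A - Hk ψ A| ≤ ε := by
  have i1 : Integrable (fun t => Real.log (φ (cv A t))) (cube k) := Hk_integrable hφ A i hi
  have i2 : Integrable (fun t => Real.log (ψ (cv A t))) (cube k) := Hk_integrable hψ A i hi
  have h1 : Hk φ A - Hk ψ A = ∫ t, (Real.log (φ (cv A t)) - Real.log (ψ (cv A t))) ∂(cube k) := by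
    rw [integral_sub i1 i2]
    rfl
  rw [h1, ← Real.norm_eq_abs]
  have h2 := norm_integral_le_of_norm_le_const (μ := cube k)
    (f := fun t => Real.log (φ (cv A t)) - Real.log (ψ (cv A t))) (C := ε) (by
      filter_upwards [F_zero_null hi] with t ht
      rw [Real.norm_eq_abs]
      exact h _ (cv_ne ht))
  rwa [probReal_univ, mul_one] at h2

theorem H1_close {N : ℕ} {φ ψ : (Fin N → ℂ) → ℝ} (hφ : IsMetric φ) (hψ : IsMetric ψ) {ε : ℝ}
    (h : ∀ c, c ≠ 0 → |Real.log (φ c) - Real.log (ψ c)| ≤ ε)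
    {a : Fin N → ℤ[X]} {i : Fin N} (hi : a i ≠ 0) :
    |H1 φ a - H1 ψ a| ≤ ε := by
  have i1 := H1_integrable hφ a i hi
  have i2 := H1_integrable hψ a i hi
  unfold H1
  rw [← intervalIntegral.integral_sub i1 i2, ← Real.norm_eq_abs]
  have hε : 0 ≤ ε := by
    have h1 : (fun _ => 1 : Fin N → ℂ) ≠ 0 := fun h => one_ne_zero (congrFun h i)
    exact (abs_nonneg _).trans (h _ h1)
  have h2 : ∫ t in (0:ℝ)..1, ‖Real.log (φ fun i => ev1 (a i) t) - Real.log (ψ fun i => ev1 (a i) t)‖ ≤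
      ∫ _ in (0:ℝ)..1, ε := by
    refine intervalIntegral.integral_mono_ae zero_le_one (i1.sub i2).norm intervalIntegrable_const ?_
    filter_upwards [D_ae_ne (a i) hi] with t ht
    rw [Real.norm_eq_abs]
    exact h _ (nonzero_of_ne i ht)
  rw [intervalIntegral.integral_const, sub_zero, one_smul] at h2
  exact (intervalIntegral.norm_integral_le_integral_norm zero_le_one).trans h2

/-! ### closedness -/

/-- the set of the Mahler measures -/
def SetM (𝒬 : Set ((Fun →ᵇ ℝ) → ℝ)) : Set ℝ :=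
  {x | ∃ (k d : ℕ) (A : Fin (d + 1) → MvPolynomial (Fin k) ℤ), 1 ≤ d ∧ Prim A ∧ Res A ≠ 0 ∧
    lawA A ∈ 𝒬 ∧ x = mM (FP A)}

/-- compactness for sequences of vectors of polynomials of one degree -/
theorem seq_compact (kk : ℕ → ℕ) (A : ∀ n, Fin (d + 1) → MvPolynomial (Fin (kk n)) ℤ)
    (hP : ∀ n, Prim (A n)) (hR : ∀ n, Res (A n) ≠ 0) (K : ℝ)
    (hK : ∀ n, Hk mm (A n) ≤ K) :
    ∃ (k : ℕ) (C : Fin (d + 1) → MvPolynomial (Fin k) ℤ), Prim C ∧ Res C ≠ 0 ∧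
      ∀ ψ : (Fin (d + 1) → ℂ) → ℝ, IsMetric ψ →
        Tendsto (fun n => Hk ψ (A n)) (hyperfilter ℕ : Filter ℕ) (𝓝 (Hk ψ C)) := by
  obtain ⟨ψ, hψ, hdense⟩ := exists_dense_metrics (d + 1)
  -- the metrics used at step `n`
  set Ψ : ∀ n : ℕ, Option (Fin (n + 1)) → (Fin (d + 1) → ℂ) → ℝ := fun n j =>
    j.elim mm fun l => ψ l with hΨ
  have hΨm : ∀ n j, IsMetric (Ψ n j) := by
    intro n j
    cases j with
    | none => exact mm_isMetric
    | some l => exact hψ l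
  choose a hap har hac using fun n => approx2 (A n) (hP n) (hR n) (Ψ n) (hΨm n)
    (1 / ((n : ℝ) + 1)) (by positivity)
  have h1n : ∀ n : ℕ, 1 / ((n : ℝ) + 1) ≤ 1 := by
    intro n
    rw [div_le_one (by positivity)]
    have : (0 : ℝ) ≤ n := Nat.cast_nonneg n
    linarith
  obtain ⟨k, C, hC, hCR, hClim⟩ := compact2 a hap har mm mm_isMetric (K + 1) (fun n => by
    have h1 := (abs_lt.1 (hac n none)).2
    have h2 : Ψ n none = mm := rfl
    rw [h2] at h1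
    linarith [hK n, h1n n])
  refine ⟨k, C, hC, hCR, fun φ hφ => ?_⟩
  have h2 : Tendsto (fun n => H1 φ (a n) - Hk φ (A n)) (hyperfilter ℕ : Filter ℕ) (𝓝 0) := by
    rw [Metric.tendsto_nhds]
    intro ε hε
    obtain ⟨l, hl⟩ := hdense φ hφ (ε / 4) (by positivity)
    have h3 : ∀ᶠ n : ℕ in atTop, 1 / ((n : ℝ) + 1) < ε / 4 :=
      tendsto_one_div_add_atTop_nhds_zero_nat.eventually_lt_const (by positivity)
    filter_upwards [I2_hyper_le h3, I2_hyper_le (eventually_ge_atTop l)] with n hn hln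
    have h4 := hac n (Option.some ⟨l, by omega⟩)
    have h5 : Ψ n (Option.some ⟨l, by omega⟩) = ψ l := rfl
    rw [h5] at h4
    obtain ⟨i, hi⟩ := Prim.exists_ne (hap n)
    obtain ⟨i', hi'⟩ := Prim.exists_ne (hP n)
    have h6 := H1_close hφ (hψ l) hl hi
    have h7 := Hk_close hφ (hψ l) hl hi'
    rw [Real.dist_eq, sub_zero]
    rw [abs_lt] at h4 ⊢
    rw [abs_le] at h6 h7
    constructor <;> linarith [h4.1, h4.2, h6.1, h6.2, h7.1, h7.2]
  have h3 := (hClim φ hφ).sub h2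
  rw [sub_zero] at h3
  refine h3.congr fun n => ?_
  ring

theorem lawA_tendsto (kk : ℕ → ℕ) (A : ∀ n, Fin (d + 1) → MvPolynomial (Fin (kk n)) ℤ)
    (hA : ∀ n, Prim (A n)) {C : Fin (d + 1) → MvPolynomial (Fin k) ℤ} (hC : Prim C)
    (h : ∀ ψ : (Fin (d + 1) → ℂ) → ℝ, IsMetric ψ →
        Tendsto (fun n => Hk ψ (A n)) (hyperfilter ℕ : Filter ℕ) (𝓝 (Hk ψ C))) :
    Tendsto (fun n => lawA (A n)) (hyperfilter ℕ : Filter ℕ) (𝓝 (lawA C)) := by
  rw [tendsto_pi_nhds]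
  intro Ψ
  obtain ⟨i, hi⟩ := Prim.exists_ne hC
  rw [lawA_eq Ψ hi]
  refine ((h _ (pm_isMetric Ψ)).sub (h _ norm_isMetric)).congr fun n => ?_
  obtain ⟨j, hj⟩ := Prim.exists_ne (hA n)
  rw [lawA_eq Ψ hj]

/-- the neighbourhoods of the Haar measure -/
theorem psi_near (Ψ : Fun →ᵇ ℝ) (ε : ℝ) (hε : 0 < ε) :
    ∃ (I : Finset C(OnePoint ℂ, ℝ)) (K : ℝ), 0 ≤ K ∧ ∀ φ : Fun,
      |Ψ φ - Ψ haarF| ≤ ε + K * ∑ f ∈ I, |φ f - haarF f| := by
  classical
  have h1 : {φ : Fun | |Ψ φ - Ψ haarF| < ε} ∈ 𝓝 haarF := by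
    have h2 := (Metric.tendsto_nhds.1 (Ψ.continuous.tendsto haarF)) ε hε
    filter_upwards [h2] with φ hφ
    rwa [Real.dist_eq] at hφ
  rw [nhds_pi, Filter.mem_pi] at h1
  obtain ⟨I, hI, t, ht, hsub⟩ := h1
  have h2 : ∀ f, ∃ δ : ℝ, 0 < δ ∧ ∀ y, |y - haarF f| < δ → y ∈ t f := by
    intro f
    obtain ⟨δ, hδ, hb⟩ := Metric.mem_nhds_iff.1 (ht f)
    exact ⟨δ, hδ, fun y hy => hb (by rwa [Metric.mem_ball, Real.dist_eq])⟩
  choose δ hδ hδt using h2
  obtain ⟨I', rfl⟩ := hI.exists_finset_coe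
  refine ⟨I', ∑ f ∈ I', 2 * ‖Ψ‖ / δ f, Finset.sum_nonneg fun f _ => by
    have := hδ f
    positivity, fun φ => ?_⟩
  have hnn : ∀ f, 0 ≤ 2 * ‖Ψ‖ / δ f := fun f => by
    have := hδ f
    positivity
  by_cases hφ : ∀ f ∈ I', |φ f - haarF f| < δ f
  · have h3 : φ ∈ {φ : Fun | |Ψ φ - Ψ haarF| < ε} := hsub fun f hf => hδt f _ (hφ f hf)
    have h4 : 0 ≤ (∑ f ∈ I', 2 * ‖Ψ‖ / δ f) * ∑ f ∈ I', |φ f - haarF f| :=
      mul_nonneg (Finset.sum_nonneg fun f _ => hnn f) (Finset.sum_nonneg fun f _ => abs_nonneg _)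
    have h5 : |Ψ φ - Ψ haarF| < ε := h3
    linarith
  · push Not at hφ
    obtain ⟨f, hf, hf2⟩ := hφ
    have h3 : |Ψ φ - Ψ haarF| ≤ 2 * ‖Ψ‖ := by
      have h4 := Ψ.norm_coe_le_norm φ
      have h5 := Ψ.norm_coe_le_norm haarF
      rw [Real.norm_eq_abs] at h4 h5
      exact (abs_sub _ _).trans (by linarith)
    have h4 : 2 * ‖Ψ‖ ≤ 2 * ‖Ψ‖ / δ f * |φ f - haarF f| := by
      rw [div_mul_eq_mul_div, le_div_iff₀ (hδ f)]
      exact mul_le_mul_of_nonneg_left hf2 (by positivity)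
    have h5 : 2 * ‖Ψ‖ / δ f ≤ ∑ f ∈ I', 2 * ‖Ψ‖ / δ f :=
      Finset.single_le_sum (fun f _ => hnn f) hf
    have h6 : |φ f - haarF f| ≤ ∑ f ∈ I', |φ f - haarF f| :=
      Finset.single_le_sum (f := fun f => |φ f - haarF f|) (fun f _ => abs_nonneg _) hf
    have h7 : 2 * ‖Ψ‖ / δ f * |φ f - haarF f| ≤
        (∑ f ∈ I', 2 * ‖Ψ‖ / δ f) * ∑ f ∈ I', |φ f - haarF f| :=
      mul_le_mul h5 h6 (abs_nonneg _) (Finset.sum_nonneg fun f _ => hnn f)
    linarith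

/-- the degree is bounded when one function of the empirical measure is far from its value -/
theorem deg_psi (Ψ : Fun →ᵇ ℝ) (ε : ℝ) (hε : 0 < ε) :
    ∃ C : ℝ, 0 ≤ C ∧ ∀ (k d : ℕ) (A : Fin (d + 1) → MvPolynomial (Fin k) ℤ), 1 ≤ d →
      Res A ≠ 0 → ε ≤ |lawA A Ψ - ptH Ψ| → (d : ℝ) ≤ C * (1 + Hk mm A) := by
  classical
  obtain ⟨I, K, hK, h⟩ := psi_near Ψ (ε / 2) (by positivity)
  set η : ℝ := ε / (2 * (K + 1) * (I.card + 1)) with hη
  have hη0 : 0 < η := by positivity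
  choose C hC hdeg using fun f : C(OnePoint ℂ, ℝ) => deg_bound f f.continuous η hη0
  refine ⟨∑ f ∈ I, C f, Finset.sum_nonneg fun f _ => hC f, fun k d A hd hR hε2 => ?_⟩
  obtain ⟨hA, hdisc⟩ := (Res_iff hd).1 hR
  have hL := Hk_mm_nonneg hA
  have hdR : (0 : ℝ) < d := by exact_mod_cast (by omega : 0 < d)
  have hfi : ∀ f : C(OnePoint ℂ, ℝ), Integrable (fun t => |emp (cv A t) f - haarF f|) (cube k) := by
    intro f
    have hfm : AEStronglyMeasurable (fun t => rs f (cv A t)) (cube k) :=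
      cube_meas (fun c hc => rs_continuousAt f.continuous c hc) hA
    have h1 : Integrable (fun t => rs f (cv A t)) (cube k) := by
      refine Integrable.of_bound hfm ((d : ℝ) * ‖f‖) (Eventually.of_forall fun t => ?_)
      rw [Real.norm_eq_abs]
      exact rs_boundR (fun x => by
        rw [← Real.norm_eq_abs]
        exact f.norm_coe_le_norm x) _
    exact ((h1.div_const _).sub (integrable_const _)).abs
  have h1 : |lawA A Ψ - ptH Ψ| ≤ ∫ t, |Ψ (emp (cv A t)) - Ψ haarF| ∂(cube k) := by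
    have h2 : lawA A Ψ - ptH Ψ = ∫ t, (Ψ (emp (cv A t)) - Ψ haarF) ∂(cube k) := by
      rw [integral_sub (psi_integrable Ψ hA) (integrable_const _), integral_const, probReal_univ,
        one_smul]
      rfl
    rw [h2]
    exact abs_integral_le_integral_abs
  have h2 : ∫ t, |Ψ (emp (cv A t)) - Ψ haarF| ∂(cube k) ≤
      ∫ t, (ε / 2 + K * ∑ f ∈ I, |emp (cv A t) f - haarF f|) ∂(cube k) := by
    refine integral_mono ((psi_integrable Ψ hA).sub (integrable_const _)).abs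
      ((integrable_const _).add ((integrable_finsetSum _ fun f _ => hfi f).const_mul _)) fun t => ?_
    exact h _
  rw [integral_add (integrable_const _) ((integrable_finsetSum _ fun f _ => hfi f).const_mul _),
    integral_const, probReal_univ, one_smul, integral_const_mul,
    integral_finsetSum _ fun f _ => hfi f] at h2
  have h3 : ε / 2 ≤ K * ∑ f ∈ I, ∫ t, |emp (cv A t) f - haarF f| ∂(cube k) := by linarith
  have h4 : ∃ f ∈ I, η ≤ ∫ t, |emp (cv A t) f - haarF f| ∂(cube k) := by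
    by_contra hcon
    push Not at hcon
    have h5 : ∑ f ∈ I, ∫ t, |emp (cv A t) f - haarF f| ∂(cube k) ≤ I.card * η := by
      rw [← nsmul_eq_mul]
      exact Finset.sum_le_card_nsmul _ _ _ fun f hf => (hcon f hf).le
    have h6 : K * ∑ f ∈ I, ∫ t, |emp (cv A t) f - haarF f| ∂(cube k) ≤ K * (I.card * η) :=
      mul_le_mul_of_nonneg_left h5 hK
    have h7 : K * (I.card * η) < ε / 2 := by
      rw [hη]
      have h8 : K * ((I.card : ℝ) * (ε / (2 * (K + 1) * (I.card + 1)))) =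
          ε / 2 * (K * I.card / ((K + 1) * (I.card + 1))) := by
        field_simp
      rw [h8]
      have h9 : K * (I.card : ℝ) / ((K + 1) * (I.card + 1)) < 1 := by
        rw [div_lt_one (by positivity)]
        have : (0 : ℝ) ≤ I.card := Nat.cast_nonneg _
        nlinarith
      have : 0 < ε / 2 := by positivity
      nlinarith
    linarith
  obtain ⟨f, hf, hf2⟩ := h4
  have h5 : ∫ t, |rs f (cv A t) - d * hr f| ∂(cube k) =
      d * ∫ t, |emp (cv A t) f - haarF f| ∂(cube k) := by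
    rw [← integral_const_mul]
    refine integral_congr_ae (Eventually.of_forall fun t => ?_)
    simp only [emp, haarF]
    rw [← abs_of_pos hdR, ← abs_mul, abs_of_pos hdR]
    congr 1
    field_simp
  have h6 := hdeg f k d A hA hdisc (by
    rw [h5, mul_comm]
    exact mul_le_mul_of_nonneg_left hf2 hdR.le)
  refine h6.trans (mul_le_mul_of_nonneg_right ?_ (by linarith))
  exact Finset.single_le_sum (fun f _ => hC f) hf

/-- **The degree is bounded.** -/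
theorem deg_law (𝒬 : Set ((Fun →ᵇ ℝ) → ℝ)) (hc : IsClosed 𝒬) (hp : ptH ∉ 𝒬) :
    ∃ C : ℝ, 0 ≤ C ∧ ∀ (k d : ℕ) (A : Fin (d + 1) → MvPolynomial (Fin k) ℤ), 1 ≤ d →
      Res A ≠ 0 → lawA A ∈ 𝒬 → (d : ℝ) ≤ C * (1 + Hk mm A) := by
  classical
  have h1 : 𝒬ᶜ ∈ 𝓝 ptH := hc.isOpen_compl.mem_nhds hp
  rw [nhds_pi, Filter.mem_pi] at h1
  obtain ⟨I, hI, t, ht, hsub⟩ := h1
  have h2 : ∀ Ψ, ∃ δ : ℝ, 0 < δ ∧ ∀ y, |y - ptH Ψ| < δ → y ∈ t Ψ := by
    intro Ψ
    obtain ⟨δ, hδ, hb⟩ := Metric.mem_nhds_iff.1 (ht Ψ)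
    exact ⟨δ, hδ, fun y hy => hb (by rwa [Metric.mem_ball, Real.dist_eq])⟩
  choose δ hδ hδt using h2
  obtain ⟨I', rfl⟩ := hI.exists_finset_coe
  choose C hC hdeg using fun Ψ : Fun →ᵇ ℝ => deg_psi Ψ (δ Ψ) (hδ Ψ)
  refine ⟨∑ Ψ ∈ I', C Ψ, Finset.sum_nonneg fun f _ => hC f, fun k d A hd hR hA => ?_⟩
  obtain ⟨hAl, _⟩ := (Res_iff hd).1 hR
  have hL := Hk_mm_nonneg hAl
  have h3 : ∃ Ψ ∈ I', δ Ψ ≤ |lawA A Ψ - ptH Ψ| := by
    by_contra hcon
    push Not at hcon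
    exact hsub (fun Ψ hΨ => hδt Ψ _ (hcon Ψ hΨ)) hA
  obtain ⟨Ψ, hΨ, h4⟩ := h3
  refine (hdeg Ψ k d A hd hR h4).trans (mul_le_mul_of_nonneg_right ?_ (by linarith))
  exact Finset.single_le_sum (fun f _ => hC f) hΨ

theorem log_mM_eq {A : Fin (d + 1) → MvPolynomial (Fin k) ℤ} (hA : Prim A) :
    mM (FP A) = Real.exp (Hk mm A) := by
  have h := Prim.exists_ne hA
  rw [← log_mM_FP A h, Real.exp_log]
  exact lt_of_lt_of_le one_pos (one_le_mM (FP A) (PS_ne_zero A _ (fun i j h => Fin.ext h) h))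

/-- **Closedness.** -/
theorem closed_SetM (𝒬 : Set ((Fun →ᵇ ℝ) → ℝ)) (hc : IsClosed 𝒬) (hp : ptH ∉ 𝒬) :
    IsClosed (SetM 𝒬) := by
  refine IsSeqClosed.isClosed ?_
  intro x μ hx hlim
  choose kk dd A hd hP hR hlaw hxA using hx
  obtain ⟨C, hC, hdeg⟩ := deg_law 𝒬 hc hp
  obtain ⟨K, hK⟩ := hlim.bddAbove_range
  have hL0 : ∀ n, 0 ≤ Hk mm (A n) := fun n => Hk_mm_nonneg ((Res_iff (hd n)).1 (hR n)).1
  have hLK : ∀ n, Hk mm (A n) ≤ K := by
    intro n
    have h1 : x n ≤ K := hK ⟨n, rfl⟩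
    rw [hxA n, log_mM_eq (hP n)] at h1
    have h2 := Real.add_one_le_exp (Hk mm (A n))
    linarith
  have hdb : ∀ n, dd n ≤ ⌊C * (1 + K)⌋₊ := by
    intro n
    refine Nat.le_floor ?_
    refine (hdeg _ _ (A n) (hd n) (hR n) (hlaw n)).trans ?_
    exact mul_le_mul_of_nonneg_left (by linarith [hLK n]) hC
  -- a subsequence of constant degree
  obtain ⟨d, hdfreq⟩ : ∃ d, ∃ᶠ n in atTop, dd n = d := by
    by_contra hcon
    push Not at hcon
    have h1 : ∀ᶠ n in atTop, ∀ d ∈ Finset.range (⌊C * (1 + K)⌋₊ + 1), dd n ≠ d := by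
      rw [Filter.eventually_all_finset]
      intro d _
      exact hcon d
    obtain ⟨n, hn⟩ := h1.exists
    exact hn (dd n) (Finset.mem_range.2 (Nat.lt_succ_of_le (hdb n))) rfl
  obtain ⟨φ, hφ, hφd⟩ := Filter.extraction_of_frequently_atTop hdfreq
  have hcast : ∀ n, ∃ B : Fin (d + 1) → MvPolynomial (Fin (kk (φ n))) ℤ, Prim B ∧ Res B ≠ 0 ∧
      lawA B ∈ 𝒬 ∧ x (φ n) = mM (FP B) ∧ Hk mm B ≤ K := by
    intro n
    have h1 := hφd n
    have h2 : ∀ (e : ℕ) (he : dd (φ n) = e), ∃ B : Fin (e + 1) → MvPolynomial (Fin (kk (φ n))) ℤ,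
        Prim B ∧ Res B ≠ 0 ∧ lawA B ∈ 𝒬 ∧ x (φ n) = mM (FP B) ∧ Hk mm B ≤ K := by
      intro e he
      subst he
      exact ⟨A (φ n), hP _, hR _, hlaw _, hxA _, hLK _⟩
    exact h2 d h1
  choose B hBP hBR hBlaw hBx hBK using hcast
  obtain ⟨k, D, hDP, hDR, hDlim⟩ := seq_compact (fun n => kk (φ n)) B hBP hBR K hBK
  have hd1 : 1 ≤ d := by
    rw [← hφd 0]
    exact hd _
  refine ⟨k, d, D, hd1, hDP, hDR, ?_, ?_⟩
  · exact hc.mem_of_tendsto (lawA_tendsto _ B hBP hDP hDlim) (Eventually.of_forall hBlaw)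
  · have h1 : Tendsto (fun n => x (φ n)) (hyperfilter ℕ : Filter ℕ) (𝓝 μ) :=
      hyper_tendsto (hlim.comp hφ.tendsto_atTop)
    have h2 : Tendsto (fun n => x (φ n)) (hyperfilter ℕ : Filter ℕ) (𝓝 (mM (FP D))) := by
      rw [log_mM_eq hDP]
      refine ((Real.continuous_exp.tendsto _).comp (hDlim mm mm_isMetric)).congr fun n => ?_
      rw [hBx n, log_mM_eq (hBP n)]
      rfl
    exact tendsto_nhds_unique h1 h2

end

end Pool.Agent.T9h56.EQ
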