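import Pool.Agent.T9h56.EQ.Roots
import Pool.Agent.T9h56.SQ.Comp
import Pool.Agent.T9h56.SQ.Cop
import Pool.Agent.T9h56.SQ.Forms

/-!
# The metrics given by the zeros, and the Mahler measure as a height
-/

set_option autoImplicit false

namespace Pool.Agent.T9h56.EQ

open Polynomial Filter MeasureTheory Topology Pool.Agent.H261R2.CM Pool.Agent.T9h56.MT
  Pool.Agent.T9h56.SQ

noncomputable section

theorem metric_of {N : ℕ} (g : (Fin N → ℂ) → ℝ) (hg : ∀ c, c ≠ 0 → ContinuousAt g c)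
    (hinv : ∀ a : ℂ, a ≠ 0 → ∀ c, g (a • c) = g c) :
    IsMetric fun c : Fin N → ℂ => ‖c‖ * Real.exp (g c) := by
  have hsph : ∀ c : Fin N → ℂ, c ≠ 0 → ∃ u ∈ Metric.sphere (0 : Fin N → ℂ) 1, g c = g u := by
    intro c hc
    have hn : ‖c‖ ≠ 0 := norm_ne_zero_iff.2 hc
    refine ⟨((‖c‖⁻¹ : ℝ) : ℂ) • c, ?_, ?_⟩
    · rw [mem_sphere_zero_iff_norm, norm_smul, Complex.norm_real, norm_inv, norm_norm,
        inv_mul_cancel₀ hn]
    · rw [hinv]
      exact_mod_cast inv_ne_zero hn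
  have hb : ∃ B : ℝ, ∀ c : Fin N → ℂ, c ≠ 0 → g c ≤ B := by
    have hcont : ContinuousOn g (Metric.sphere (0 : Fin N → ℂ) 1) := by
      intro u hu
      refine (hg u ?_).continuousWithinAt
      rintro rfl
      rw [mem_sphere_zero_iff_norm, norm_zero] at hu
      exact zero_ne_one hu
    obtain ⟨B, hB⟩ := (isCompact_sphere (0 : Fin N → ℂ) 1).bddAbove_image hcont
    refine ⟨B, fun c hc => ?_⟩
    obtain ⟨u, hu, he⟩ := hsph c hc
    rw [he]
    exact hB ⟨u, hu, rfl⟩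
  obtain ⟨B, hB⟩ := hb
  refine ⟨?_, ?_, ?_⟩
  · rw [continuous_iff_continuousAt]
    intro c
    by_cases hc : c = 0
    · subst hc
      have h0 : Tendsto (fun c : Fin N → ℂ => ‖c‖ * Real.exp B) (𝓝 0) (𝓝 0) := by
        have h1 : Continuous fun c : Fin N → ℂ => ‖c‖ * Real.exp B := continuous_norm.mul continuous_const
        have h2 := h1.tendsto 0
        rwa [norm_zero, zero_mul] at h2
      rw [ContinuousAt]
      simp only [norm_zero, zero_mul]
      refine squeeze_zero (fun c => by positivity) (fun c => ?_) h0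
      by_cases hc : c = 0
      · simp [hc]
      · exact mul_le_mul_of_nonneg_left (Real.exp_le_exp.2 (hB c hc)) (norm_nonneg _)
    · exact continuous_norm.continuousAt.mul (Real.continuous_exp.continuousAt.comp (hg c hc))
  · intro a c
    by_cases ha : a = 0
    · simp [ha]
    · simp only
      rw [hinv a ha, norm_smul, mul_assoc]
  · intro c hc
    have := norm_pos_iff.2 hc
    positivity

theorem norm_isMetric {N : ℕ} : IsMetric fun c : Fin N → ℂ => ‖c‖ :=
  ⟨continuous_norm, fun a c => norm_smul a c, fun _ hc => norm_pos_iff.2 hc⟩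

variable {d : ℕ}

theorem mm_smul (a : ℂ) (c : Fin (d + 1) → ℂ) : mm (a • c) = ‖a‖ * mm c := by
  unfold mm
  rw [pol_smul, Polynomial.mahlerMeasure_mul, Polynomial.mahlerMeasure_const]

theorem mm_isMetric : IsMetric (mm : (Fin (d + 1) → ℂ) → ℝ) := by
  refine ⟨?_, fun a c => mm_smul a c, fun c hc =>
    Polynomial.mahlerMeasure_pos_of_ne_zero (pol_ne_zero hc)⟩
  rw [continuous_iff_continuousAt]
  intro c
  by_cases hc : c = 0
  · subst hc
    have h0 : Tendsto (fun c : Fin (d + 1) → ℂ => ((d : ℝ) + 1) * ‖c‖) (𝓝 0) (𝓝 0) := by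
      have h1 : Continuous fun c : Fin (d + 1) → ℂ => ((d : ℝ) + 1) * ‖c‖ :=
        continuous_const.mul continuous_norm
      have h2 := h1.tendsto 0
      rwa [norm_zero, mul_zero] at h2
    have h1 : mm (0 : Fin (d + 1) → ℂ) = 0 := by
      unfold mm
      rw [pol_zero, Polynomial.mahlerMeasure_zero]
    rw [ContinuousAt, h1]
    exact squeeze_zero (fun c => Polynomial.mahlerMeasure_nonneg _) (fun c => mm_le c) h0
  · exact mm_continuousAt c hc

/-! ### Fubini -/

theorem cube_fub {k : ℕ} (G : (Fin (k + 1) → ℝ) → ℝ)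
    (hG : IntegrableOn G (Set.Icc (0 : Fin (k + 1) → ℝ) 1)) :
    ∫ t in Set.Icc (0 : Fin (k + 1) → ℝ) 1, G t =
      ∫ y in Set.Icc (0 : Fin k → ℝ) 1, ∫ s in Set.Icc (0 : ℝ) 1, G (Fin.cons s y) := by
  have hmp := volume_preserving_piFinSuccAbove (fun _ : Fin (k + 1) => ℝ) 0
  have h1 : Set.Icc (0 : Fin (k + 1) → ℝ) 1 =
      (MeasurableEquiv.piFinSuccAbove (fun _ : Fin (k + 1) => ℝ) 0) ⁻¹'
        (Set.Icc (0 : ℝ) 1 ×ˢ Set.Icc (0 : Fin k → ℝ) 1) := by
    ext t
    simp only [Set.mem_Icc, Set.mem_preimage, Set.mem_prod, Pi.le_def,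
      MeasurableEquiv.piFinSuccAbove_apply, Fin.insertNthEquiv_symm_apply, Pi.zero_apply,
      Pi.one_apply, Fin.forall_fin_succ, Fin.removeNth, Fin.zero_succAbove]
    tauto
  have hcons : ∀ t : Fin (k + 1) → ℝ,
      (fun y : ℝ × (Fin k → ℝ) => G (Fin.cons y.1 y.2))
        (MeasurableEquiv.piFinSuccAbove (fun _ : Fin (k + 1) => ℝ) 0 t) = G t := by
    intro t
    simp only
    congr 1
    funext i
    refine Fin.cases ?_ (fun i => ?_) i
    · rfl
    · rfl
  have h2 := hmp.setIntegral_preimage_emb (MeasurableEquiv.measurableEmbedding _)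
    (fun y : ℝ × (Fin k → ℝ) => G (Fin.cons y.1 y.2))
    (Set.Icc (0 : ℝ) 1 ×ˢ Set.Icc (0 : Fin k → ℝ) 1)
  simp only [← h1] at h2
  have h3 : ∫ t in Set.Icc (0 : Fin (k + 1) → ℝ) 1, G t =
      ∫ t in Set.Icc (0 : Fin (k + 1) → ℝ) 1, (fun y : ℝ × (Fin k → ℝ) => G (Fin.cons y.1 y.2))
        (MeasurableEquiv.piFinSuccAbove (fun _ : Fin (k + 1) => ℝ) 0 t) :=
    integral_congr_ae (Eventually.of_forall fun t => (hcons t).symm)
  rw [h3]
  have h5 : IntegrableOn (fun y : ℝ × (Fin k → ℝ) => G (Fin.cons y.1 y.2))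
      (Set.Icc (0 : ℝ) 1 ×ˢ Set.Icc (0 : Fin k → ℝ) 1) (volume.prod volume) := by
    have h6 := (hmp.integrableOn_comp_preimage (MeasurableEquiv.measurableEmbedding _)
      (f := fun y : ℝ × (Fin k → ℝ) => G (Fin.cons y.1 y.2))
      (s := Set.Icc (0 : ℝ) 1 ×ˢ Set.Icc (0 : Fin k → ℝ) 1))
    rw [← Measure.volume_eq_prod]
    refine h6.1 ?_
    rw [← h1]
    refine hG.congr (Eventually.of_forall fun t => ?_)
    exact (hcons t).symm
  refine h2.trans ?_
  have h4 : (volume : Measure (ℝ × (Fin k → ℝ))) = volume.prod volume := Measure.volume_eq_prod _ _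
  rw [h4]
  have h7 := setIntegral_prod_swap (μ := (volume : Measure ℝ))
    (ν := (volume : Measure (Fin k → ℝ))) (Set.Icc (0 : ℝ) 1) (Set.Icc (0 : Fin k → ℝ) 1)
    (fun y : ℝ × (Fin k → ℝ) => G (Fin.cons y.1 y.2))
  rw [← h7, setIntegral_prod]
  · rfl
  · exact h5.swap

/-- the vector of the values -/
def cv {N k : ℕ} (A : Fin N → MvPolynomial (Fin k) ℤ) (t : Fin k → ℝ) : Fin N → ℂ :=
  fun i => tv (A i) t

theorem cv_continuous {N k : ℕ} (A : Fin N → MvPolynomial (Fin k) ℤ) : Continuous (cv A) :=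
  continuous_pi fun i => F_continuous_tv (A i)

theorem cv_ne {N k : ℕ} {A : Fin N → MvPolynomial (Fin k) ℤ} {i : Fin N} {t : Fin k → ℝ}
    (h : tv (A i) t ≠ 0) : cv A t ≠ 0 := fun h1 => h (congrFun h1 i)

/-- the polynomial with the coefficients `A` -/
def FP {k : ℕ} (A : Fin (d + 1) → MvPolynomial (Fin k) ℤ) : MvPolynomial (Fin (k + 1)) ℤ :=
  PS A fun j => (j : ℕ)

theorem tv_FP {k : ℕ} (A : Fin (d + 1) → MvPolynomial (Fin k) ℤ) (s : ℝ) (y : Fin k → ℝ) :
    tv (FP A) (Fin.cons s y) = (pol (cv A y)).eval (ez s) := by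
  unfold FP PS pol
  rw [J.tv_eq, map_sum, Polynomial.eval_finsetSum]
  refine Finset.sum_congr rfl fun i _ => ?_
  rw [map_mul, map_pow, ← J.tv_eq, ← J.tv_eq, J.tv_rename, J.tv_X]
  simp only [Polynomial.eval_mul, Polynomial.eval_C, Polynomial.eval_pow, Polynomial.eval_X]
  rfl

theorem log_mM_FP {k : ℕ} (A : Fin (d + 1) → MvPolynomial (Fin k) ℤ) (hA : ∃ i, A i ≠ 0) :
    Real.log (mM (FP A)) = Hk mm A := by
  have hne : FP A ≠ 0 := PS_ne_zero A _ (fun i j h => Fin.ext h) hA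
  unfold mM
  rw [Real.log_exp, cube_fub _ (F_integrable hne)]
  unfold Hk
  refine integral_congr_ae (Eventually.of_forall fun y => ?_)
  simp only
  rw [integral_Icc_eq_integral_Ioc, ← intervalIntegral.integral_of_le zero_le_one]
  have h1 : (∫ s in (0:ℝ)..1, Real.log ‖tv (FP A) (Fin.cons s y)‖) =
      ∫ s in (0:ℝ)..1, (fun z => Real.log ‖(pol (cv A y)).eval z‖) (ez s) := by
    refine intervalIntegral.integral_congr fun s _ => ?_
    simp only
    rw [tv_FP]
  rw [h1]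
  have h2 := D_circleAverage (fun z => Real.log ‖(pol (cv A y)).eval z‖)
  rw [← h2, ← Polynomial.logMahlerMeasure_def, Polynomial.logMahlerMeasure_eq_log_MahlerMeasure]
  rfl

end

end Pool.Agent.T9h56.EQ
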