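import Mathlib

/-!
# The energy inequality for a finite set of complex numbers
-/

set_option autoImplicit false

namespace Pool.Agent.T9h56.EQ

open ComplexConjugate

noncomputable section

/-- Reflection of the outside of the unit disc. -/
def fold (z : ℂ) : ℂ := if ‖z‖ ≤ 1 then z else (conj z)⁻¹

theorem norm_fold_le (z : ℂ) : ‖fold z‖ ≤ 1 := by
  unfold fold
  split_ifs with h
  · exact h
  · rw [norm_inv, RCLike.norm_conj]
    exact inv_le_one_of_one_le₀ (le_of_lt (not_le.1 h))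

theorem disc_le {a b : ℂ} (ha : ‖a‖ ≤ 1) (hb : ‖b‖ ≤ 1) : ‖a - b‖ ≤ ‖1 - a * conj b‖ := by
  have h1 : ‖a - b‖ ^ 2 ≤ ‖1 - a * conj b‖ ^ 2 := by
    have e1 : ‖a - b‖ ^ 2 = (a.re - b.re) ^ 2 + (a.im - b.im) ^ 2 := by
      rw [← Complex.normSq_eq_norm_sq, Complex.normSq_apply]
      simp
      ring
    have e2 : ‖1 - a * conj b‖ ^ 2 = (1 - (a.re * b.re + a.im * b.im)) ^ 2 +
        (a.im * b.re - a.re * b.im) ^ 2 := by
      rw [← Complex.normSq_eq_norm_sq, Complex.normSq_apply]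
      simp
      ring
    have e3 : ‖a‖ ^ 2 = a.re ^ 2 + a.im ^ 2 := by
      rw [← Complex.normSq_eq_norm_sq, Complex.normSq_apply]
      ring
    have e4 : ‖b‖ ^ 2 = b.re ^ 2 + b.im ^ 2 := by
      rw [← Complex.normSq_eq_norm_sq, Complex.normSq_apply]
      ring
    have h2 : a.re ^ 2 + a.im ^ 2 ≤ 1 := by
      rw [← e3]
      exact pow_le_one₀ (norm_nonneg _) ha
    have h3 : b.re ^ 2 + b.im ^ 2 ≤ 1 := by
      rw [← e4]
      exact pow_le_one₀ (norm_nonneg _) hb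
    rw [e1, e2]
    nlinarith [mul_nonneg (sub_nonneg.2 h2) (sub_nonneg.2 h3)]
  exact le_of_sq_le_sq h1 (norm_nonneg _)

theorem pair_le (a b : ℂ) :
    ‖a - b‖ ≤ max 1 ‖a‖ * max 1 ‖b‖ * ‖1 - fold a * conj (fold b)‖ := by
  unfold fold
  split_ifs with ha hb hb
  · rw [max_eq_left ha, max_eq_left hb, one_mul, one_mul]
    exact disc_le ha hb
  · have hb1 : 1 < ‖b‖ := not_le.1 hb
    have hb0 : b ≠ 0 := by
      rintro rfl
      simp at hb
    rw [max_eq_left ha, max_eq_right hb1.le, one_mul, map_inv₀, Complex.conj_conj, ← norm_mul]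
    refine le_of_eq ?_
    rw [← norm_neg]
    congr 1
    field_simp
    ring
  · have ha1 : 1 < ‖a‖ := not_le.1 ha
    have ha0 : a ≠ 0 := by
      rintro rfl
      simp at ha
    rw [max_eq_left hb, max_eq_right ha1.le, mul_one]
    have h1 : ‖1 - (conj a)⁻¹ * conj b‖ = ‖1 - a⁻¹ * b‖ := by
      rw [← RCLike.norm_conj (1 - a⁻¹ * b)]
      simp
    rw [h1, ← norm_mul]
    refine le_of_eq ?_
    congr 1
    field_simp
  · have ha1 : 1 < ‖a‖ := not_le.1 ha
    have ha0 : a ≠ 0 := by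
      rintro rfl
      simp at ha
    have hb1 : 1 < ‖b‖ := not_le.1 hb
    have hb0 : b ≠ 0 := by
      rintro rfl
      simp at hb
    rw [max_eq_right ha1.le, max_eq_right hb1.le]
    have h1 : ‖a - b‖ = ‖a‖ * ‖b‖ * ‖(conj a)⁻¹ - (conj b)⁻¹‖ := by
      have h2 : ‖(conj a)⁻¹ - (conj b)⁻¹‖ = ‖a⁻¹ - b⁻¹‖ := by
        rw [← RCLike.norm_conj (a⁻¹ - b⁻¹)]
        simp
      rw [h2, ← norm_mul, ← norm_mul, ← norm_neg (a * b * (a⁻¹ - b⁻¹))]
      congr 1
      field_simp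
      ring
    rw [h1]
    refine mul_le_mul_of_nonneg_left ?_ (by positivity)
    refine disc_le ?_ ?_
    · rw [norm_inv, RCLike.norm_conj]
      exact inv_le_one_of_one_le₀ ha1.le
    · rw [norm_inv, RCLike.norm_conj]
      exact inv_le_one_of_one_le₀ hb1.le

theorem reg_le {z : ℂ} (hz : ‖z‖ ≤ 1) {r : ℝ} (h0 : 0 ≤ r) (h1 : r < 1) :
    ‖1 - z‖ ≤ 2 / (1 + r) * ‖1 - r * z‖ := by
  have hr : (0 : ℝ) < 1 + r := by linarith
  rw [div_mul_eq_mul_div, le_div_iff₀ hr]
  have e1 : ‖1 - z‖ ^ 2 = (1 - z.re) ^ 2 + z.im ^ 2 := by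
    rw [← Complex.normSq_eq_norm_sq, Complex.normSq_apply]
    simp
    ring
  have e2 : ‖1 - r * z‖ ^ 2 = (1 - r * z.re) ^ 2 + (r * z.im) ^ 2 := by
    rw [← Complex.normSq_eq_norm_sq, Complex.normSq_apply]
    simp
    ring
  have e3 : ‖z‖ ^ 2 = z.re ^ 2 + z.im ^ 2 := by
    rw [← Complex.normSq_eq_norm_sq, Complex.normSq_apply]
    ring
  have h3 : z.re ^ 2 + z.im ^ 2 ≤ 1 := by
    rw [← e3]
    exact pow_le_one₀ (norm_nonneg _) hz
  have h4 : -1 ≤ z.re := by
    nlinarith [sq_nonneg z.im, sq_nonneg (z.re + 1)]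
  have h5 : (‖1 - z‖ * (1 + r)) ^ 2 ≤ (2 * ‖1 - r * z‖) ^ 2 := by
    rw [mul_pow, mul_pow, e1, e2]
    have key : 2 ^ 2 * ((1 - r * z.re) ^ 2 + (r * z.im) ^ 2) -
        ((1 - z.re) ^ 2 + z.im ^ 2) * (1 + r) ^ 2 =
        (1 - r) * ((3 + r) + 2 * z.re * (1 - r) - (z.re ^ 2 + z.im ^ 2) * (1 + 3 * r)) := by
      ring
    have h6 : 0 ≤ (3 + r) + 2 * z.re * (1 - r) - (z.re ^ 2 + z.im ^ 2) * (1 + 3 * r) := by
      nlinarith [mul_nonneg (sub_nonneg.2 h3) (by linarith : (0:ℝ) ≤ 1 + 3 * r),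
        mul_nonneg (by linarith : (0:ℝ) ≤ 1 - r) (by linarith : (0:ℝ) ≤ 1 + z.re)]
    have h7 := mul_nonneg (by linarith : (0:ℝ) ≤ 1 - r) h6
    linarith
  exact le_of_sq_le_sq h5 (by positivity)

theorem reg_log {z : ℂ} (hz : ‖z‖ ≤ 1) (hz1 : 1 - z ≠ 0) {r : ℝ} (h0 : 0 ≤ r) (h1 : r < 1) :
    Real.log ‖1 - z‖ ≤ (1 - r) + Real.log ‖1 - r * z‖ := by
  have hr : (0 : ℝ) < 1 + r := by linarith
  have h2 := reg_le hz h0 h1
  have h3 : 0 < ‖1 - z‖ := norm_pos_iff.2 hz1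
  have h4 : 0 < ‖1 - r * z‖ := by
    by_contra h
    have h5 : ‖1 - r * z‖ = 0 := le_antisymm (not_lt.1 h) (norm_nonneg _)
    rw [h5, mul_zero] at h2
    linarith
  have h5 := Real.log_le_log h3 h2
  rw [Real.log_mul (by positivity) h4.ne'] at h5
  have h6 : Real.log (2 / (1 + r)) ≤ 1 - r := by
    have h7 := Real.log_le_sub_one_of_pos (show (0:ℝ) < 2 / (1 + r) by positivity)
    have h8 : 2 / (1 + r) - 1 ≤ 1 - r := by
      rw [sub_le_iff_le_add, div_le_iff₀ hr]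
      nlinarith
    linarith
  linarith

theorem series (ι : Type*) [Fintype ι] (β : ι → ℂ) (hβ : ∀ i, ‖β i‖ ≤ 1) {r : ℝ} (h0 : 0 ≤ r)
    (h1 : r < 1) (n : ℕ) :
    ∑ i, ∑ j, Real.log ‖1 - r * (β i * conj (β j))‖ ≤ -(r ^ n / n * ‖∑ i, β i ^ n‖ ^ 2) := by
  have hw : ∀ i j, ‖(r : ℂ) * (β i * conj (β j))‖ < 1 := by
    intro i j
    rw [norm_mul, Complex.norm_real, Real.norm_of_nonneg h0, norm_mul, RCLike.norm_conj]
    have h2 : ‖β i‖ * ‖β j‖ ≤ 1 := mul_le_one₀ (hβ i) (norm_nonneg _) (hβ j)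
    nlinarith [mul_nonneg (norm_nonneg (β i)) (norm_nonneg (β j))]
  have hs : ∀ i j, HasSum (fun m : ℕ => (((r : ℂ) * (β i * conj (β j))) ^ m / m).re)
      (-Real.log ‖1 - r * (β i * conj (β j))‖) := by
    intro i j
    have h2 := Complex.hasSum_re (Complex.hasSum_taylorSeries_neg_log (hw i j))
    rw [Complex.neg_re, Complex.log_re] at h2
    exact h2
  have hs2 := hasSum_sum (s := Finset.univ) fun i _ => hasSum_sum (s := Finset.univ)
    fun j _ => hs i j
  have hterm : ∀ m : ℕ, (∑ i, ∑ j, (((r : ℂ) * (β i * conj (β j))) ^ m / m).re) =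
      r ^ m / m * ‖∑ i, β i ^ m‖ ^ 2 := by
    intro m
    have h2 : (((r ^ m / m * ‖∑ i, β i ^ m‖ ^ 2 : ℝ) : ℂ)) =
        ∑ i, ∑ j, (((r : ℂ) * (β i * conj (β j))) ^ m / m) := by
      push_cast
      rw [← Complex.mul_conj', map_sum, Finset.sum_mul_sum, Finset.mul_sum]
      refine Finset.sum_congr rfl fun i _ => ?_
      rw [Finset.mul_sum]
      refine Finset.sum_congr rfl fun j _ => ?_
      rw [map_pow]
      ring
    have h3 := congrArg Complex.re h2
    rw [Complex.ofReal_re, Complex.re_sum] at h3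
    rw [h3]
    exact Finset.sum_congr rfl fun i _ => (Complex.re_sum _ _).symm
  simp only [hterm] at hs2
  have h2 := le_hasSum hs2 n fun m _ => by positivity
  simp only [Finset.sum_neg_distrib] at h2
  linarith

/-- **The energy inequality.** -/
theorem energy (S : Finset ℂ) (hd : 2 ≤ S.card) (n : ℕ) (hn : 1 ≤ n) (hnd : n ≤ S.card) :
    ∑ a ∈ S, ∑ b ∈ S.erase a, Real.log ‖a - b‖ ≤
      2 * ((S.card : ℝ) - 1) * ∑ a ∈ S, Real.log (max 1 ‖a‖) + S.card * Real.log S.card + S.card -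
        1 / (4 * n) * ‖∑ a ∈ S, fold a ^ n‖ ^ 2 := by
  set d := S.card with hdd
  have hdR : (2 : ℝ) ≤ d := by exact_mod_cast hd
  have hd0 : (0 : ℝ) < d := by linarith
  set r : ℝ := 1 - 1 / d with hr
  have hr0 : 0 ≤ r := by
    rw [hr, sub_nonneg, div_le_one hd0]
    linarith
  have hr1 : r < 1 := by
    rw [hr]
    have : (0:ℝ) < 1 / d := by positivity
    linarith
  have h1r : 1 - r = 1 / d := by rw [hr]; ring
  -- pointwise
  have hpt : ∀ a ∈ S, ∀ b ∈ S.erase a, Real.log ‖a - b‖ ≤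
      Real.log (max 1 ‖a‖) + Real.log (max 1 ‖b‖) + ((1 - r) +
        Real.log ‖1 - r * (fold a * conj (fold b))‖) := by
    intro a _ b hb
    have hab : a - b ≠ 0 := sub_ne_zero.2 (Finset.ne_of_mem_erase hb).symm
    have h1 := pair_le a b
    have h2 : 0 < ‖a - b‖ := norm_pos_iff.2 hab
    have h3 : 1 - fold a * conj (fold b) ≠ 0 := by
      intro h
      rw [h, norm_zero, mul_zero] at h1
      linarith
    have h4 : ‖fold a * conj (fold b)‖ ≤ 1 := by
      rw [norm_mul, RCLike.norm_conj]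
      exact mul_le_one₀ (norm_fold_le a) (norm_nonneg _) (norm_fold_le b)
    have h5 := Real.log_le_log h2 h1
    rw [Real.log_mul (by positivity) (norm_ne_zero_iff.2 h3), Real.log_mul (by positivity)
      (by positivity)] at h5
    have h6 := reg_log h4 h3 hr0 hr1
    linarith
  have hsum1 : ∑ a ∈ S, ∑ b ∈ S.erase a, Real.log ‖a - b‖ ≤
      ∑ a ∈ S, ∑ b ∈ S.erase a, (Real.log (max 1 ‖a‖) + Real.log (max 1 ‖b‖) + ((1 - r) +
        Real.log ‖1 - r * (fold a * conj (fold b))‖)) :=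
    Finset.sum_le_sum fun a ha => Finset.sum_le_sum fun b hb => hpt a ha b hb
  have hcard : ∀ a ∈ S, ((S.erase a).card : ℝ) = d - 1 := by
    intro a ha
    rw [Finset.card_erase_of_mem ha, Nat.cast_sub (by omega)]
    simp [hdd]
  set T : ℝ := ∑ a ∈ S, Real.log (max 1 ‖a‖) with hT
  have hA : ∑ a ∈ S, ∑ b ∈ S.erase a, Real.log (max 1 ‖a‖) = (d - 1) * T := by
    rw [hT, Finset.mul_sum]
    refine Finset.sum_congr rfl fun a ha => ?_
    rw [Finset.sum_const, nsmul_eq_mul, hcard a ha]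
  have hB : ∑ a ∈ S, ∑ b ∈ S.erase a, Real.log (max 1 ‖b‖) = (d - 1) * T := by
    have h1 : ∀ a ∈ S, ∑ b ∈ S.erase a, Real.log (max 1 ‖b‖) = T - Real.log (max 1 ‖a‖) := by
      intro a ha
      rw [hT, ← Finset.add_sum_erase S _ ha]
      ring
    rw [Finset.sum_congr rfl h1, Finset.sum_sub_distrib, Finset.sum_const, nsmul_eq_mul, ← hT]
    ring
  have hC : ∑ a ∈ S, ∑ _b ∈ S.erase a, (1 - r) ≤ d := by
    have h1 : ∑ a ∈ S, ∑ _b ∈ S.erase a, (1 - r) = d * ((d - 1) * (1 - r)) := by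
      rw [Finset.sum_congr rfl fun a ha => by rw [Finset.sum_const, nsmul_eq_mul, hcard a ha],
        Finset.sum_const, nsmul_eq_mul]
    rw [h1, h1r]
    have h2 : (d:ℝ) * ((d - 1) * (1 / d)) = d - 1 := by
      field_simp
    rw [h2]
    linarith
  have hD : ∑ a ∈ S, ∑ b ∈ S.erase a, Real.log ‖1 - r * (fold a * conj (fold b))‖ ≤
      d * Real.log d - r ^ n / n * ‖∑ a ∈ S, fold a ^ n‖ ^ 2 := by
    have h1 : ∀ a ∈ S, ∑ b ∈ S.erase a, Real.log ‖1 - r * (fold a * conj (fold b))‖ ≤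
        ∑ b ∈ S, Real.log ‖1 - r * (fold a * conj (fold b))‖ + Real.log d := by
      intro a ha
      rw [← Finset.add_sum_erase S _ ha]
      have h2 : (1 : ℝ) / d ≤ ‖1 - r * (fold a * conj (fold a))‖ := by
        rw [Complex.mul_conj', ← Complex.ofReal_pow, ← Complex.ofReal_mul, ← Complex.ofReal_one,
          ← Complex.ofReal_sub, Complex.norm_real]
        refine le_trans ?_ (le_abs_self _)
        have h3 : ‖fold a‖ ^ 2 ≤ 1 := pow_le_one₀ (norm_nonneg _) (norm_fold_le a)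
        nlinarith
      have h3 := Real.log_le_log (by positivity) h2
      rw [Real.log_div one_ne_zero hd0.ne', Real.log_one] at h3
      linarith
    have h2 := Finset.sum_le_sum h1
    rw [Finset.sum_add_distrib, Finset.sum_const, nsmul_eq_mul] at h2
    have h3 := series S (fun i : S => fold i) (fun i => norm_fold_le _) hr0 hr1 n
    have h4 : ∑ i : S, ∑ j : S, Real.log ‖1 - r * (fold (i : ℂ) * conj (fold (j : ℂ)))‖ =
        ∑ a ∈ S, ∑ b ∈ S, Real.log ‖1 - r * (fold a * conj (fold b))‖ := by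
      rw [Finset.sum_coe_sort S fun a => ∑ j : S, Real.log ‖1 - r * (fold a * conj (fold (j : ℂ)))‖]
      refine Finset.sum_congr rfl fun a _ => ?_
      rw [Finset.sum_coe_sort S fun b => Real.log ‖1 - r * (fold a * conj (fold b))‖]
    have h5 : ∑ i : S, fold (i : ℂ) ^ n = ∑ a ∈ S, fold a ^ n :=
      Finset.sum_coe_sort S fun a => fold a ^ n
    rw [h4, h5] at h3
    linarith
  have hrn : (1 : ℝ) / 4 ≤ r ^ n := by
    have h1 : r ^ d ≤ r ^ n := pow_le_pow_of_le_one hr0 hr1.le hnd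
    have h2 : (1 : ℝ) / 4 ≤ r ^ d := by
      have h3 : (1 : ℝ) / 4 ≤ (1 - 1 / (d : ℝ)) ^ d := by
        have h4 : ∀ m : ℕ, 2 ≤ m → (1 : ℝ) / 4 ≤ (1 - 1 / (m : ℝ)) ^ m := by
          intro m hm
          induction m, hm using Nat.le_induction with
          | base => norm_num
          | succ m hm ih =>
            refine ih.trans ?_
            have hmR : (2 : ℝ) ≤ m := by exact_mod_cast hm
            have hm0 : (0 : ℝ) < m := by linarith
            have e1 : (1 - 1 / (m : ℝ)) = (m - 1) / m := by field_simp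
            have e2 : (1 - 1 / ((m + 1 : ℕ) : ℝ)) = m / (m + 1) := by
              push_cast
              field_simp
              ring
            rw [e1, e2]
            -- (m/(m+1))^(m+1) ≥ ((m-1)/m)^m by Bernoulli
            have h5 : ((m : ℝ) - 1) / m = m / (m + 1) * (1 - 1 / (m : ℝ) ^ 2) := by
              field_simp
              ring
            rw [h5, mul_pow, pow_succ ((m : ℝ) / (m + 1)) m]
            refine mul_le_mul_of_nonneg_left ?_ (by positivity)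
            have h6 : (1 : ℝ) + m * (1 / ((m : ℝ) ^ 2 - 1)) ≤ (1 + 1 / ((m : ℝ) ^ 2 - 1)) ^ m :=
              one_add_mul_le_pow (by
                have : (0:ℝ) < (m:ℝ) ^ 2 - 1 := by nlinarith
                have : (0:ℝ) < 1 / ((m:ℝ) ^ 2 - 1) := by positivity
                linarith) m
            have h7 : (0:ℝ) < (m:ℝ) ^ 2 - 1 := by nlinarith
            have h8 : (1 - 1 / (m : ℝ) ^ 2) = (1 + 1 / ((m : ℝ) ^ 2 - 1))⁻¹ := by
              field_simp
              ring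
            rw [h8, inv_pow]
            have h9 : (m : ℝ) / (m + 1) = ((1 : ℝ) + 1 / m)⁻¹ := by
              field_simp
            rw [h9]
            refine inv_anti₀ (by positivity) ?_
            refine le_trans ?_ h6
            have h10 : (1 : ℝ) / m ≤ m * (1 / ((m : ℝ) ^ 2 - 1)) := by
              rw [mul_one_div, div_le_div_iff₀ hm0 h7]
              nlinarith
            linarith
        exact h4 d hd
      rw [hr]
      exact h3
    linarith
  have hnR : (1 : ℝ) ≤ n := by exact_mod_cast hn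
  have hE : 1 / (4 * (n:ℝ)) * ‖∑ a ∈ S, fold a ^ n‖ ^ 2 ≤ r ^ n / n * ‖∑ a ∈ S, fold a ^ n‖ ^ 2 := by
    refine mul_le_mul_of_nonneg_right ?_ (by positivity)
    rw [div_le_div_iff₀ (by positivity) (by linarith)]
    nlinarith
  have hsum2 : ∑ a ∈ S, ∑ b ∈ S.erase a, (Real.log (max 1 ‖a‖) + Real.log (max 1 ‖b‖) + ((1 - r) +
        Real.log ‖1 - r * (fold a * conj (fold b))‖)) =
      ∑ a ∈ S, ∑ b ∈ S.erase a, Real.log (max 1 ‖a‖) +
      ∑ a ∈ S, ∑ b ∈ S.erase a, Real.log (max 1 ‖b‖) + (∑ a ∈ S, ∑ _b ∈ S.erase a, (1 - r) +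
      ∑ a ∈ S, ∑ b ∈ S.erase a, Real.log ‖1 - r * (fold a * conj (fold b))‖) := by
    simp only [Finset.sum_add_distrib]
  rw [hsum2, hA, hB] at hsum1
  linarith

end

end Pool.Agent.T9h56.EQ
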