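import Pool.Agent.T9h56.EQ.Disc

/-!
# Zeros far from the unit circle
-/

set_option autoImplicit false

namespace Pool.Agent.T9h56.EQ

open Polynomial Filter MeasureTheory Topology Pool.Agent.H261R2.CM Pool.Agent.T9h56.MT
  Pool.Agent.T9h56.SQ OnePoint

noncomputable section

theorem one_sub_fold {a : ℂ} (ha : a ≠ 0) :
    1 - ‖fold a‖ ≤ 2 * Real.log (max 1 ‖a‖) - Real.log ‖a‖ := by
  have hpos : 0 < ‖a‖ := norm_pos_iff.2 ha
  unfold fold
  split_ifs with h
  · rw [max_eq_left h, Real.log_one, mul_zero, zero_sub]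
    have := Real.log_le_sub_one_of_pos hpos
    linarith
  · have h1 : 1 < ‖a‖ := not_le.1 h
    rw [max_eq_right h1.le, norm_inv, RCLike.norm_conj]
    have := Real.log_le_sub_one_of_pos (inv_pos.2 hpos)
    rw [Real.log_inv] at this
    linarith

theorem log_norm_coeff_zero {q : ℂ[X]} (h0 : q.coeff 0 ≠ 0) :
    (q.roots.map fun a : ℂ => Real.log ‖a‖).sum = Real.log ‖q.coeff 0‖ - Real.log ‖q.leadingCoeff‖ := by
  have hq : q ≠ 0 := by
    rintro rfl
    exact h0 rfl
  have h1 := (IsAlgClosed.splits q).coeff_zero_eq_leadingCoeff_mul_prod_roots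
  have h2 : ∀ a ∈ q.roots, a ≠ 0 := by
    rintro a ha rfl
    apply h0
    rw [Polynomial.coeff_zero_eq_eval_zero]
    exact (Polynomial.mem_roots hq).1 ha
  have h3 : ‖q.coeff 0‖ = ‖q.leadingCoeff‖ * (q.roots.map fun a : ℂ => ‖a‖).prod := by
    rw [h1, norm_mul, norm_mul, norm_pow, norm_neg, norm_one, one_pow, one_mul]
    congr 1
    have h4 : ∀ s : Multiset ℂ, ‖s.prod‖ = (s.map fun a : ℂ => ‖a‖).prod := by
      intro s
      induction s using Multiset.induction_on with
      | empty => simp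
      | cons a s ih => rw [Multiset.prod_cons, norm_mul, ih, Multiset.map_cons, Multiset.prod_cons]
    exact h4 _
  have h5 : (q.roots.map fun a : ℂ => ‖a‖).prod ≠ 0 := by
    rw [Ne, Multiset.prod_eq_zero_iff]
    intro h
    obtain ⟨a, ha, h6⟩ := Multiset.mem_map.1 h
    exact h2 a ha (norm_eq_zero.1 h6)
  have h6 : Real.log (q.roots.map fun a : ℂ => ‖a‖).prod = (q.roots.map fun a : ℂ => Real.log ‖a‖).sum := by
    rw [Real.log_multiset_prod, Multiset.map_map]
    · rfl
    · intro x hx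
      obtain ⟨a, ha, rfl⟩ := Multiset.mem_map.1 hx
      exact norm_ne_zero_iff.2 (h2 a ha)
  rw [h3, Real.log_mul (norm_ne_zero_iff.2 (Polynomial.leadingCoeff_ne_zero.2 hq)) h5, h6]
  ring

theorem sum_one_sub_fold {q : ℂ[X]} (h0 : q.coeff 0 ≠ 0) :
    (q.roots.map fun a : ℂ => 1 - ‖fold a‖).sum ≤
      2 * Real.log q.mahlerMeasure - Real.log ‖q.leadingCoeff‖ - Real.log ‖q.coeff 0‖ := by
  have hq : q ≠ 0 := by
    rintro rfl
    exact h0 rfl
  have h2 : ∀ a ∈ q.roots, a ≠ 0 := by
    rintro a ha rfl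
    apply h0
    rw [Polynomial.coeff_zero_eq_eval_zero]
    exact (Polynomial.mem_roots hq).1 ha
  have h1 : (q.roots.map fun a : ℂ => 1 - ‖fold a‖).sum ≤
      (q.roots.map fun a : ℂ => 2 * Real.log (max 1 ‖a‖) - Real.log ‖a‖).sum :=
    Multiset.sum_map_le_sum_map _ _ fun a ha => one_sub_fold (h2 a ha)
  have h1' : (q.roots.map fun a : ℂ => 2 * Real.log (max 1 ‖a‖) - Real.log ‖a‖).sum =
      2 * (q.roots.map fun a : ℂ => Real.log (max 1 ‖a‖)).sum -
        (q.roots.map fun a : ℂ => Real.log ‖a‖).sum := by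
    rw [Multiset.sum_map_sub, Multiset.sum_map_mul_left]
  rw [h1', log_norm_coeff_zero h0] at h1
  have h3 : Real.log q.mahlerMeasure = Real.log ‖q.leadingCoeff‖ +
      (q.roots.map fun a : ℂ => Real.log (max 1 ‖a‖)).sum := by
    rw [← Polynomial.logMahlerMeasure_eq_log_MahlerMeasure,
      Polynomial.logMahlerMeasure_eq_log_leadingCoeff_add_sum_log_roots]
    congr 2
    refine Multiset.map_congr rfl fun a _ => ?_
    rw [Real.posLog_eq_log_max_one (norm_nonneg _)]
  linarith

theorem sum_one_sub_fold' {q : ℂ[X]} {j : ℕ} (hj : j = 0 ∨ (j = 1 ∧ q.coeff 0 = 0))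
    (h0 : q.coeff j ≠ 0) :
    (q.roots.map fun a : ℂ => 1 - ‖fold a‖).sum ≤
      1 + 2 * Real.log q.mahlerMeasure - Real.log ‖q.leadingCoeff‖ - Real.log ‖q.coeff j‖ := by
  rcases hj with rfl | ⟨rfl, h1⟩
  · have := sum_one_sub_fold h0
    linarith
  · obtain ⟨q1, hq1⟩ := Polynomial.X_dvd_iff.2 h1
    have hc : q1.coeff 0 = q.coeff 1 := by
      rw [hq1, Polynomial.coeff_X_mul]
    have hq10 : q1 ≠ 0 := by
      rintro rfl
      rw [← hc] at h0
      exact h0 rfl
    have h2 := sum_one_sub_fold (q := q1) (by rw [hc]; exact h0)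
    have h3 : q.roots = {0} + q1.roots := by
      rw [hq1, Polynomial.roots_mul (mul_ne_zero Polynomial.X_ne_zero hq10), Polynomial.roots_X]
    have h4 : q.mahlerMeasure = q1.mahlerMeasure := by
      rw [hq1, Polynomial.mahlerMeasure_mul]
      have h5 : (X : ℂ[X]).mahlerMeasure = 1 := by
        have := Polynomial.mahlerMeasure_X_sub_C 0
        rw [C_0, sub_zero, norm_zero, max_eq_left zero_le_one] at this
        exact this
      rw [h5, one_mul]
    have h5 : q.leadingCoeff = q1.leadingCoeff := by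
      rw [hq1, Polynomial.leadingCoeff_mul, Polynomial.leadingCoeff_X, one_mul]
    rw [h3, Multiset.map_add, Multiset.sum_add, Multiset.map_singleton, Multiset.sum_singleton, h4,
      h5, ← hc]
    have h6 : ‖fold 0‖ = 0 := by simp [fold]
    rw [h6]
    linarith

/-- the distance to the circle, on the sphere -/
def wO : OnePoint ℂ → ℝ := fun x => 1 - ‖foldO x‖

theorem wO_continuous : Continuous wO := continuous_const.sub foldO_continuous.norm

theorem wO_nonneg (x : OnePoint ℂ) : 0 ≤ wO x := sub_nonneg.2 (norm_foldO x)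

theorem wO_le (x : OnePoint ℂ) : wO x ≤ 1 := by
  unfold wO
  linarith [norm_nonneg (foldO x)]

variable {d k : ℕ}

theorem ofReal_msum (s : Multiset ℂ) (g : ℂ → ℝ) :
    (((s.map g).sum : ℝ) : ℂ) = (s.map fun a => (g a : ℂ)).sum := by
  induction s using Multiset.induction_on with
  | empty => simp
  | cons a s ih => simp only [Multiset.map_cons, Multiset.sum_cons, Complex.ofReal_add, ih]

/-- bound for the real sums over the zeros -/
theorem rs_boundR {f : OnePoint ℂ → ℝ} {B : ℝ} (hf : ∀ x, |f x| ≤ B) (c : Fin (d + 1) → ℂ) :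
    |rs f c| ≤ d * B := by
  have h1 := rs_bound (f := fun x => (f x : ℂ)) (B := B) (fun x => by
    rw [Complex.norm_real]
    exact hf x) c
  have h2 : rs (fun x => (f x : ℂ)) c = ((rs f c : ℝ) : ℂ) := by
    unfold rs
    rw [Complex.ofReal_add, ofReal_msum, nsmul_eq_mul, nsmul_eq_mul]
    push_cast
    rfl
  rw [h2, Complex.norm_real] at h1
  exact h1

theorem exists_low {A : Fin (d + 1) → MvPolynomial (Fin k) ℤ} (hd : 2 ≤ d)
    (hA : A (Fin.last d) ≠ 0) (hdisc : (RP A).discr ≠ 0) :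
    A 0 ≠ 0 ∨ A ⟨1, by omega⟩ ≠ 0 := by
  by_contra hcon
  push Not at hcon
  obtain ⟨h0, h1⟩ := hcon
  have h2 : A (Fin.last d) * (RP A).discr ≠ 0 := mul_ne_zero hA hdisc
  obtain ⟨t, ht⟩ := exists_tv_ne h2
  rw [J.tv_mul] at ht
  have ht1 : tv (A (Fin.last d)) t ≠ 0 := left_ne_zero_of_mul ht
  have ht2 : tv (RP A).discr t ≠ 0 := right_ne_zero_of_mul ht
  set q := pol (cv A t) with hq
  have hlast : (cv A t) (Fin.last d) ≠ 0 := ht1
  have hqd : q.natDegree = d := natDegree_pol hlast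
  have h3 := resultant_deriv (f := RP A) (by
    rw [← Polynomial.natDegree_pos_iff_degree_pos, natDegree_RP hA]
    omega)
  rw [natDegree_RP hA, leadingCoeff_RP hA] at h3
  have h4 := resultant_map_map (RP A) (RP A).derivative d (d - 1) (J.tvh t)
  rw [← Polynomial.derivative_map, map_RP, h3, map_mul, map_mul, ← hq] at h4
  have h5 : resultant q q.derivative d (d - 1) ≠ 0 := by
    rw [h4]
    refine mul_ne_zero (mul_ne_zero ?_ ht1) ht2
    rw [map_pow, map_neg, map_one]
    exact pow_ne_zero _ (neg_ne_zero.2 one_ne_zero)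
  obtain ⟨hnodup, _⟩ := log_res hqd (by omega) h5
  have hq0 : q ≠ 0 := pol_ne_zero fun h => ht1 (congrFun h (Fin.last d))
  have h6 : q.coeff 0 = 0 := by
    rw [hq, coeff_pol, dif_pos (by omega)]
    show tv (A 0) t = 0
    rw [h0, J.tv_eq, map_zero]
  have h7 : q.coeff 1 = 0 := by
    rw [hq, coeff_pol, dif_pos (by omega)]
    show tv (A ⟨1, _⟩) t = 0
    rw [h1, J.tv_eq, map_zero]
  have h8 : 1 < q.rootMultiplicity 0 := by
    rw [Polynomial.one_lt_rootMultiplicity_iff_isRoot hq0]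
    refine ⟨?_, ?_⟩
    · rw [Polynomial.IsRoot, ← Polynomial.coeff_zero_eq_eval_zero]
      exact h6
    · rw [Polynomial.IsRoot, ← Polynomial.coeff_zero_eq_eval_zero, Polynomial.coeff_derivative, h7,
        zero_mul]
  rw [← Polynomial.count_roots] at h8
  have := Multiset.nodup_iff_count_le_one.1 hnodup 0
  omega

/-- **The mean number of zeros far from the circle.** -/
theorem w_mean {A : Fin (d + 1) → MvPolynomial (Fin k) ℤ} (hd : 2 ≤ d)
    (hA : A (Fin.last d) ≠ 0) (hdisc : (RP A).discr ≠ 0) :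
    ∫ t, rs wO (cv A t) ∂(cube k) ≤ 1 + 2 * Hk mm A := by
  obtain ⟨j, hj1, hj2⟩ : ∃ j : Fin (d + 1), A j ≠ 0 ∧ ((j : ℕ) = 0 ∨ ((j : ℕ) = 1 ∧ A 0 = 0)) := by
    by_cases h0 : A 0 = 0
    · rcases exists_low hd hA hdisc with h | h
      · exact absurd h0 h
      · exact ⟨⟨1, by omega⟩, h, Or.inr ⟨rfl, h0⟩⟩
    · exact ⟨0, h0, Or.inl rfl⟩
  have hwm : AEStronglyMeasurable (fun t => rs wO (cv A t)) (cube k) :=
    cube_meas (fun c hc => rs_continuousAt wO_continuous c hc) hA
  have hw : Integrable (fun t => rs wO (cv A t)) (cube k) := by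
    refine Integrable.of_bound hwm ((d : ℝ) * 1) (Eventually.of_forall fun t => ?_)
    rw [Real.norm_eq_abs]
    refine rs_boundR (fun x => ?_) _
    rw [abs_of_nonneg (wO_nonneg x)]
    exact wO_le x
  have hmm : Integrable (fun t => Real.log (mm (cv A t))) (cube k) :=
    Hk_integrable mm_isMetric A _ hA
  have i1 : Integrable (fun t => Real.log ‖tv (A (Fin.last d)) t‖) (cube k) := F_integrable hA
  have i2 : Integrable (fun t => Real.log ‖tv (A j) t‖) (cube k) := F_integrable hj1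
  have hnn : ∀ {B : MvPolynomial (Fin k) ℤ}, B ≠ 0 → 0 ≤ ∫ t, Real.log ‖tv B t‖ ∂(cube k) := by
    intro B hB
    have h1 := one_le_mM _ hB
    unfold mM at h1
    have h2 := Real.log_nonneg h1
    rwa [Real.log_exp] at h2
  have i3 : Integrable (fun t => 1 + 2 * Real.log (mm (cv A t))) (cube k) :=
    (integrable_const _).add (hmm.const_mul _)
  have i4 : Integrable (fun t => 1 + 2 * Real.log (mm (cv A t)) -
      Real.log ‖tv (A (Fin.last d)) t‖) (cube k) := i3.sub i1
  have h1 : ∫ t, rs wO (cv A t) ∂(cube k) ≤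
      ∫ t, (1 + 2 * Real.log (mm (cv A t)) - Real.log ‖tv (A (Fin.last d)) t‖ -
        Real.log ‖tv (A j) t‖) ∂(cube k) := by
    refine integral_mono_ae hw (i4.sub i2) ?_
    filter_upwards [F_zero_null hA, F_zero_null hj1] with t ht1 ht2
    have hlast : (cv A t) (Fin.last d) ≠ 0 := ht1
    rw [rs_of_last wO hlast]
    have hcj : (pol (cv A t)).coeff (j : ℕ) = tv (A j) t := coeff_pol' _ j
    have h3 := sum_one_sub_fold' (q := pol (cv A t)) (j := (j : ℕ)) (by
      rcases hj2 with h | ⟨h, h4⟩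
      · exact Or.inl h
      · refine Or.inr ⟨h, ?_⟩
        rw [coeff_pol, dif_pos (by omega)]
        show tv (A 0) t = 0
        rw [h4, J.tv_eq, map_zero]) (by rw [hcj]; exact ht2)
    rw [hcj, leadingCoeff_pol hlast] at h3
    exact h3
  rw [integral_sub i4 i2, integral_sub i3 i1, integral_add (integrable_const _) (hmm.const_mul _),
    integral_const_mul, integral_const, probReal_univ, one_smul] at h1
  have h2 : ∫ t, Real.log (mm (cv A t)) ∂(cube k) = Hk mm A := rfl
  rw [h2] at h1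
  have := hnn hA
  have := hnn hj1
  linarith

end

end Pool.Agent.T9h56.EQ
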