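import Pool.Agent.T9h56.EQ.Trans
import Pool.Agent.T9h56.SQ.Boyd
import Pool.Agent.T9h56.MT.Fin

/-!
# The gap and the rank
-/

set_option autoImplicit false

namespace Pool.Agent.T9h56.EQ

open Polynomial Filter MeasureTheory Topology Pool.Agent.H261R2.CM Pool.Agent.T9h56.MT
  Pool.Agent.T9h56.SQ OnePoint

noncomputable section

variable {d k : ℕ}

theorem Hk_rename {N : ℕ} (ψ : (Fin N → ℂ) → ℝ) (A : Fin N → MvPolynomial (Fin k) ℤ) :
    Hk ψ (fun i => MvPolynomial.rename Fin.succ (A i)) = Hk ψ A := by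
  unfold Hk
  simp_rw [J.tv_rename]
  have h := J.cube_split (k := k) (fun _ => 1)
    (fun y => Real.log (ψ fun i => tv (A i) y))
  simp only [one_mul] at h
  rw [h]
  have h1 : (∫ _ in Set.Icc (0 : ℝ) 1, (1 : ℝ)) = 1 := by
    rw [setIntegral_const, measureReal_def, Real.volume_Icc]
    simp
  rw [h1, one_mul]

theorem norm_le_mm (d : ℕ) : ∃ c : ℝ, ∀ (k : ℕ) (A : Fin (d + 1) → MvPolynomial (Fin k) ℤ),
    (∃ i, A i ≠ 0) → Hk (fun c : Fin (d + 1) → ℂ => ‖c‖) A ≤ Hk mm A + c := by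
  obtain ⟨c1, c2, hc1, hc2, hb⟩ := (mm_isMetric (d := d)).bounds
  refine ⟨-Real.log c1, ?_⟩
  rintro k A ⟨i, hi⟩
  have i1 : Integrable (fun t => Real.log ‖cv A t‖) (cube k) :=
    Hk_integrable norm_isMetric A i hi
  have i2 : Integrable (fun t => Real.log (mm (cv A t))) (cube k) :=
    Hk_integrable mm_isMetric A i hi
  have h1 : ∫ t, Real.log ‖cv A t‖ ∂(cube k) ≤
      ∫ t, (Real.log (mm (cv A t)) + -Real.log c1) ∂(cube k) := by
    refine integral_mono_ae i1 (i2.add (integrable_const _)) ?_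
    filter_upwards [F_zero_null hi] with t ht
    have h2 : 0 < ‖cv A t‖ := norm_pos_iff.2 (cv_ne ht)
    have h3 := Real.log_le_log (by positivity) (hb (cv A t)).1
    rw [Real.log_mul hc1.ne' h2.ne'] at h3
    linarith
  rw [integral_add i2 (integrable_const _), integral_const, probReal_univ, one_smul] at h1
  exact h1

theorem mem_LL (d : ℕ) : ∃ c : ℝ, ∀ (k : ℕ) (A : Fin (d + 1) → MvPolynomial (Fin k) ℤ),
    Prim A → mM (FP A) ∈ LL (Hk mm A + c) := by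
  obtain ⟨c, hc⟩ := norm_le_mm d
  refine ⟨c + Real.log ((d + 1 : ℕ) : ℝ), ?_⟩
  intro k A hA
  obtain ⟨i0, hi0⟩ := Prim.exists_ne hA
  have hF0 : FP A ≠ 0 := PS_ne_zero A _ (fun i j h => Fin.ext h) ⟨i0, hi0⟩
  set P : Fin (d + 1) → MvPolynomial (Fin (k + 1)) ℤ := fun i => MvPolynomial.rename Fin.succ (A i)
    with hP
  have hPp : Prim P := prim_rename Fin.succ (Fin.succ_injective _) hA ⟨i0, hi0⟩
  set s : Fin (d + 1) → ℕ := fun j => (j : ℕ) with hs
  have hsi : Function.Injective s := fun i j h => Fin.ext h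
  have hPS0 : PS P s ≠ 0 := PS_ne_zero P s hsi (Prim.exists_ne hPp)
  have hF'0 : MvPolynomial.rename Fin.succ (FP A) ≠ 0 := J.rename_ne_zero (k := k + 1) hF0
  refine ⟨k + 2, by omega, MvPolynomial.rename Fin.succ (FP A), PS P s, hF'0, hPS0,
    relPrime_PS hPp hF0 hsi, ?_, (J.mM_rename (FP A)).symm⟩
  set P2 : Fin (d + 1) → MvPolynomial (Fin (k + 2)) ℤ := fun i => MvPolynomial.rename Fin.succ (P i)
    with hP2
  have hP2i : P2 i0 ≠ 0 := J.rename_ne_zero (k := k + 1) (J.rename_ne_zero hi0)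
  have hH2 : Hk (fun c : Fin (d + 1) → ℂ => ‖c‖) P2 = Hk (fun c : Fin (d + 1) → ℂ => ‖c‖) A := by
    rw [hP2, Hk_rename, hP, Hk_rename]
  have hcv : ∀ t, cv P2 t = (fun i => tv (P i) (fun j => t j.succ) : Fin (d + 1) → ℂ) := by
    intro t
    funext i
    exact J.tv_rename _ _
  have hcv2 : ∀ t, cv P2 t =
      (fun i => tv (A i) (fun j => t j.succ.succ) : Fin (d + 1) → ℂ) := by
    intro t
    funext i
    rw [hcv]
    exact J.tv_rename _ _
  have hpt : ∀ t, max ‖tv (MvPolynomial.rename Fin.succ (FP A)) t‖ ‖tv (PS P s) t‖ ≤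
      ((d + 1 : ℕ) : ℝ) * ‖cv P2 t‖ := by
    intro t
    refine max_le ?_ ?_
    · rw [J.tv_rename, hcv2]
      exact norm_PS_le A s fun j => t j.succ
    · rw [hcv]
      exact norm_PS_le P s t
  unfold mx
  have hint2 : IntegrableOn (fun t => Real.log (max ‖tv (MvPolynomial.rename Fin.succ (FP A)) t‖
      ‖tv (PS P s) t‖)) (Set.Icc (0 : Fin (k + 2) → ℝ) 1) := by
    have h7 := K4_intk thM thM_cont thM_ge (MvPolynomial.rename Fin.succ (FP A))
      (PS P s) hF'0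
    have h8 : ∀ t, Real.log (max ‖tv (MvPolynomial.rename Fin.succ (FP A)) t‖
        ‖tv (PS P s) t‖) = 1 / 2 * Real.log (thM
          ‖tv (MvPolynomial.rename Fin.succ (FP A)) t‖ ‖tv (PS P s) t‖) := by
      intro t
      rw [thM_log (norm_nonneg _) (norm_nonneg _)]
      ring
    simp only [h8]
    exact h7.const_mul (1 / 2)
  have i2 : Integrable (fun t => Real.log ‖cv P2 t‖) (cube (k + 2)) :=
    Hk_integrable norm_isMetric P2 i0 hP2i
  have h9 : (∫ t in Set.Icc (0 : Fin (k + 2) → ℝ) 1, Real.log (max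
      ‖tv (MvPolynomial.rename Fin.succ (FP A)) t‖ ‖tv (PS P s) t‖)) ≤
      ∫ t, (Real.log ‖cv P2 t‖ + Real.log ((d + 1 : ℕ) : ℝ)) ∂(cube (k + 2)) := by
    refine integral_mono_ae hint2 (i2.add (integrable_const _)) ?_
    filter_upwards [F_zero_null hF'0, F_zero_null hP2i] with t ht ht2
    have h10 : 0 < ‖tv (MvPolynomial.rename Fin.succ (FP A)) t‖ := norm_pos_iff.2 ht
    have h2 : 0 < ‖cv P2 t‖ := norm_pos_iff.2 (cv_ne ht2)
    have h11 : Real.log (((d + 1 : ℕ) : ℝ) * ‖cv P2 t‖) =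
        Real.log ((d + 1 : ℕ) : ℝ) + Real.log ‖cv P2 t‖ :=
      Real.log_mul (by positivity) h2.ne'
    have h12 := Real.log_le_log (lt_of_lt_of_le h10 (le_max_left _ _)) (hpt t)
    linarith
  rw [integral_add i2 (integrable_const _), integral_const, probReal_univ, one_smul] at h9
  have h13 : ∫ t, Real.log ‖cv P2 t‖ ∂(cube (k + 2)) = Hk (fun c : Fin (d + 1) → ℂ => ‖c‖) P2 := rfl
  rw [h13, hH2] at h9
  have h14 := hc k A ⟨i0, hi0⟩
  linarith

/-- the degree is bounded below every bound -/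
theorem deg_bdd (𝒬 : Set ((BoundedContinuousFunction Fun ℝ) → ℝ)) (hc : IsClosed 𝒬)
    (hp : ptH ∉ 𝒬) (B : ℝ) :
    ∃ D : ℕ, ∀ (k d : ℕ) (A : Fin (d + 1) → MvPolynomial (Fin k) ℤ), 1 ≤ d → Prim A →
      Res A ≠ 0 → lawA A ∈ 𝒬 → mM (FP A) ≤ B → d ≤ D := by
  obtain ⟨C, hC, hdeg⟩ := deg_law 𝒬 hc hp
  refine ⟨⌊C * (1 + B)⌋₊, fun k d A hd hP hR hlaw hB => ?_⟩
  refine Nat.le_floor ?_
  refine (hdeg _ _ A hd hR hlaw).trans ?_
  refine mul_le_mul_of_nonneg_left ?_ hC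
  rw [log_mM_eq hP] at hB
  have h2 := Real.add_one_le_exp (Hk mm A)
  linarith

theorem gap_SetM (𝒬 : Set ((BoundedContinuousFunction Fun ℝ) → ℝ)) (hc : IsClosed 𝒬)
    (hp : ptH ∉ 𝒬) : ∃ δ : ℝ, 0 < δ ∧ ∀ x ∈ SetM 𝒬, x = 1 ∨ 1 + δ ≤ x := by
  obtain ⟨D, hD⟩ := deg_bdd 𝒬 hc hp 2
  obtain ⟨δ, hδ, hgap⟩ := gap_TS (D + 1)
  refine ⟨min 1 δ, lt_min one_pos hδ, ?_⟩
  rintro x ⟨k, d, A, hd, hP, hR, hlaw, rfl⟩
  rcases le_or_gt 2 (mM (FP A)) with h | h
  · right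
    have := min_le_left 1 δ
    linarith
  · have hdD := hD k d A hd hP hR hlaw h.le
    have h1 : mM (FP A) ∈ TS {S | S.card ≤ D + 1} := by
      refine ⟨k, FP A, PS_ne_zero A _ (fun i j h => Fin.ext h) (Prim.exists_ne hP),
        ⟨Finset.range (D + 1), ?_, ?_⟩, (prim_iff A).1 hP, rfl⟩
      · simp
      · refine support_PS A _ ((Finset.range (D + 1) : Finset ℕ) : Set ℕ) fun i _ => ?_
        rw [Finset.mem_coe, Finset.mem_range]
        have := i.2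
        omega
    rcases hgap _ (fun S hS => hS) _ h1 with h2 | h2
    · exact Or.inl h2
    · right
      have := min_le_right 1 δ
      linarith

theorem rank_SetM (𝒬 : Set ((BoundedContinuousFunction Fun ℝ) → ℝ)) (hc : IsClosed 𝒬)
    (hp : ptH ∉ 𝒬) (B : ℝ) : ∃ m : ℕ, ∀ x ∈ derivedSet^[m] (SetM 𝒬), B ≤ x := by
  refine rank_of_companion _ (fun B => ?_) B
  obtain ⟨D, hD⟩ := deg_bdd 𝒬 hc hp B
  choose c hcc using mem_LL
  refine ⟨Real.log B + ∑ d ∈ Finset.range (D + 1), |c d|, ?_⟩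
  rintro x ⟨⟨k, d, A, hd, hP, hR, hlaw, rfl⟩, hxB⟩
  have hxB' : mM (FP A) < B := hxB
  have hdD := hD k d A hd hP hR hlaw hxB'.le
  refine LL_mono ?_ (hcc d k A hP)
  have h1 : Hk mm A ≤ Real.log B := by
    rw [← log_mM_FP A (Prim.exists_ne hP)]
    refine Real.log_le_log ?_ hxB'.le
    exact lt_of_lt_of_le one_pos (one_le_mM (FP A)
      (PS_ne_zero A _ (fun i j h => Fin.ext h) (Prim.exists_ne hP)))
  have h2 : |c d| ≤ ∑ d ∈ Finset.range (D + 1), |c d| :=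
    Finset.single_le_sum (f := fun d => |c d|) (fun d _ => abs_nonneg _)
      (Finset.mem_range.2 (by omega))
  have h3 := le_abs_self (c d)
  linarith

/-- subsets of Boyd's set which are closed, have a gap above one and finite rank below bounds -/
def Tame (S : Set ℝ) : Prop :=
  S ⊆ BB ∧ IsClosed S ∧ (∃ δ : ℝ, 0 < δ ∧ ∀ x ∈ S, x = 1 ∨ 1 + δ ≤ x) ∧
    ∀ B : ℝ, ∃ m : ℕ, ∀ x ∈ derivedSet^[m] S, B ≤ x

theorem tame_MSet (𝒬 : Set ((BoundedContinuousFunction Fun ℝ) → ℝ)) (hc : IsClosed 𝒬)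
    (hp : ptH ∉ 𝒬) : Tame (MSet 𝒬) := by
  refine ⟨?_, ?_, ?_, ?_⟩
  · rintro x ⟨k, F, hF, _, hx⟩
    refine ⟨k + 1, by omega, F, ?_, hx⟩
    rintro rfl
    exact not_squarefree_zero hF.2.2
  · rw [MSet_eq]
    exact closed_SetM 𝒬 hc hp
  · rw [MSet_eq]
    exact gap_SetM 𝒬 hc hp
  · rw [MSet_eq]
    exact rank_SetM 𝒬 hc hp

/-- the degree bound for one test function -/
theorem deg_test (f : C(OnePoint ℂ, ℝ)) (ε : ℝ) (hε : 0 < ε) :
    ∃ C : ℝ, ∀ (k : ℕ) (F : MvPolynomial (Fin (k + 1)) ℤ), Adm F →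
      ε ≤ ∫ t in Set.Icc (0 : Fin k → ℝ) 1, |zeros F t f - hr f| →
        (F.degreeOf 0 : ℝ) ≤ C * (1 + Real.log (mM F)) := by
  obtain ⟨C, hC, hdeg⟩ := deg_bound f f.continuous ε hε
  refine ⟨C, fun k F hF h => ?_⟩
  obtain ⟨A, hA, hd, hP, hR, hl⟩ := hF.exists
  obtain ⟨_, hdisc⟩ := (Res_iff hd).1 hR
  have hdR : (0 : ℝ) < F.degreeOf 0 := by exact_mod_cast (by omega : 0 < F.degreeOf 0)
  have h5 : ∫ t, |rs f (cv A t) - F.degreeOf 0 * hr f| ∂(cube k) =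
      F.degreeOf 0 * ∫ t in Set.Icc (0 : Fin k → ℝ) 1, |zeros F t f - hr f| := by
    rw [← integral_const_mul]
    refine integral_congr_ae (Eventually.of_forall fun t => ?_)
    have hz : zeros F t f = rs f (cv A t) / F.degreeOf 0 := by
      have h6 := congrFun (zeros_FP hl t) f
      rw [← hA] at h6
      exact h6
    simp only [hz]
    rw [← abs_of_pos hdR, ← abs_mul, abs_of_pos hdR]
    congr 1
    field_simp
  have h6 := hdeg k (F.degreeOf 0) A hl hdisc (by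
    rw [h5, mul_comm]
    exact mul_le_mul_of_nonneg_left h hdR.le)
  rw [← log_mM_FP A (Prim.exists_ne hP), ← hA] at h6
  exact h6

end

end Pool.Agent.T9h56.EQ
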