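import Pool.Agent.T9h56.EQ.Pot

/-!
# Functions of the zeros depend continuously on the coefficients
-/

set_option autoImplicit false

namespace Pool.Agent.T9h56.EQ

open Polynomial Filter Topology OnePoint

noncomputable section

variable {d : ℕ}

/-- the polynomial with given coefficients -/
def pol (c : Fin (d + 1) → ℂ) : ℂ[X] := ∑ j, C (c j) * X ^ (j : ℕ)

theorem coeff_pol (c : Fin (d + 1) → ℂ) (n : ℕ) :
    (pol c).coeff n = if h : n < d + 1 then c ⟨n, h⟩ else 0 := by
  unfold pol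
  rw [Polynomial.finsetSum_coeff]
  simp only [Polynomial.coeff_C_mul, Polynomial.coeff_X_pow, mul_ite, mul_one, mul_zero]
  split_ifs with h
  · rw [Finset.sum_eq_single ⟨n, h⟩]
    · simp
    · intro j _ hj
      rw [if_neg]
      intro h1
      exact hj (Fin.ext h1.symm)
    · intro h1
      exact absurd (Finset.mem_univ _) h1
  · refine Finset.sum_eq_zero fun j _ => ?_
    rw [if_neg]
    intro h1
    exact h (h1 ▸ j.2)

theorem coeff_pol' (c : Fin (d + 1) → ℂ) (j : Fin (d + 1)) : (pol c).coeff j = c j := by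
  rw [coeff_pol, dif_pos j.2]

theorem natDegree_pol_le (c : Fin (d + 1) → ℂ) : (pol c).natDegree ≤ d := by
  rw [Polynomial.natDegree_le_iff_coeff_eq_zero]
  intro n hn
  rw [coeff_pol, dif_neg (by omega)]

theorem pol_smul (a : ℂ) (c : Fin (d + 1) → ℂ) : pol (a • c) = C a * pol c := by
  unfold pol
  rw [Finset.mul_sum]
  refine Finset.sum_congr rfl fun j _ => ?_
  rw [Pi.smul_apply, smul_eq_mul, C_mul, mul_assoc]

theorem pol_ne_zero {c : Fin (d + 1) → ℂ} (h : c ≠ 0) : pol c ≠ 0 := by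
  intro h1
  apply h
  funext j
  rw [← coeff_pol' c j, h1]
  rfl

theorem pol_zero : pol (0 : Fin (d + 1) → ℂ) = 0 := by
  simp [pol]

theorem pol_of {p : ℂ[X]} (h : p.natDegree ≤ d) : pol (fun j : Fin (d + 1) => p.coeff j) = p := by
  ext n
  rw [coeff_pol]
  split_ifs with h1
  · rfl
  · rw [Polynomial.coeff_eq_zero_of_natDegree_lt (by omega)]

theorem natDegree_pol {c : Fin (d + 1) → ℂ} (h : c (Fin.last d) ≠ 0) : (pol c).natDegree = d := by
  refine le_antisymm (natDegree_pol_le c) (Polynomial.le_natDegree_of_ne_zero ?_)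
  rw [coeff_pol, dif_pos (Nat.lt_succ_self d)]
  exact h

/-- The unit sphere of the plane. -/
def KS : Set (ℂ × ℂ) := Metric.sphere 0 1

theorem KS_ne {w : ℂ × ℂ} (h : w ∈ KS) : w ≠ 0 := by
  rintro rfl
  rw [KS, mem_sphere_zero_iff_norm, norm_zero] at h
  exact zero_ne_one h

/-- The linear factor with zero `u / v`. -/
def lin (w : ℂ × ℂ) : ℂ[X] := C w.2 * X - C w.1

theorem lin_ne {w : ℂ × ℂ} (h : w ≠ 0) : lin w ≠ 0 := by
  intro h1
  apply h
  have h2 := congrArg (fun p => Polynomial.coeff p 0) h1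
  have h3 := congrArg (fun p => Polynomial.coeff p 1) h1
  simp [lin] at h2 h3
  exact Prod.ext h2 h3

/-- The coefficients of the product of the linear factors. -/
def vec (w : Fin d → ℂ × ℂ) : Fin (d + 1) → ℂ := fun j => (∏ i, lin (w i)).coeff j

theorem natDegree_prod_lin (w : Fin d → ℂ × ℂ) : (∏ i, lin (w i)).natDegree ≤ d := by
  refine (Polynomial.natDegree_prod_le _ _).trans ?_
  have h : ∀ i ∈ (Finset.univ : Finset (Fin d)), (lin (w i)).natDegree ≤ 1 := by
    intro i _
    unfold lin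
    refine (Polynomial.natDegree_sub_le _ _).trans ?_
    rw [Polynomial.natDegree_C, max_le_iff]
    exact ⟨(Polynomial.natDegree_C_mul_le _ _).trans (Polynomial.natDegree_X_le), Nat.zero_le _⟩
  refine (Finset.sum_le_card_nsmul _ _ _ h).trans ?_
  simp

theorem pol_vec (w : Fin d → ℂ × ℂ) : pol (vec w) = ∏ i, lin (w i) := pol_of (natDegree_prod_lin w)

theorem vec_ne {w : Fin d → ℂ × ℂ} (h : ∀ i, w i ≠ 0) : vec w ≠ 0 := by
  intro h1
  have h2 : pol (vec w) = 0 := by rw [h1, pol_zero]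
  rw [pol_vec, Finset.prod_eq_zero_iff] at h2
  obtain ⟨i, _, hi⟩ := h2
  exact lin_ne (h i) hi

theorem vec_continuous : Continuous (vec : (Fin d → ℂ × ℂ) → Fin (d + 1) → ℂ) := by
  have h : ∀ (s : Finset (Fin d)) (n : ℕ),
      Continuous fun w : Fin d → ℂ × ℂ => (∏ i ∈ s, lin (w i)).coeff n := by
    intro s
    classical
    induction s using Finset.induction_on with
    | empty =>
      intro n
      simp only [Finset.prod_empty]
      exact continuous_const
    | insert i s hi ih =>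
      intro n
      simp only [Finset.prod_insert hi, Polynomial.coeff_mul]
      refine continuous_finsetSum _ fun x _ => ?_
      refine Continuous.mul ?_ (ih _)
      simp only [lin, Polynomial.coeff_sub, Polynomial.coeff_C_mul, Polynomial.coeff_C]
      have h1 : Continuous fun w : Fin d → ℂ × ℂ => (w i).1 := continuous_fst.comp (continuous_apply i)
      have h2 : Continuous fun w : Fin d → ℂ × ℂ => (w i).2 := continuous_snd.comp (continuous_apply i)
      refine (h2.mul continuous_const).sub ?_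
      split_ifs
      · exact h1
      · exact continuous_const
  exact continuous_pi fun j => h Finset.univ j

theorem decompose (d : ℕ) : ∀ p : ℂ[X], p ≠ 0 → p.natDegree ≤ d →
    ∃ (w : Fin d → ℂ × ℂ) (a : ℂ), a ≠ 0 ∧ (∀ i, w i ∈ KS) ∧ p = C a * ∏ i, lin (w i) := by
  induction d with
  | zero =>
    intro p hp hd
    have h1 := Polynomial.eq_C_of_natDegree_le_zero hd
    refine ⟨fun _ => 0, p.coeff 0, ?_, fun i => i.elim0, ?_⟩
    · intro h
      rw [h, C_0] at h1
      exact hp h1
    · rw [Finset.univ_eq_empty, Finset.prod_empty, mul_one]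
      exact h1
  | succ d ih =>
    intro p hp hd
    by_cases h : p.natDegree ≤ d
    · obtain ⟨w, a, ha, hw, hpa⟩ := ih p hp h
      refine ⟨Fin.cons (-1, 0) w, a, ha, ?_, ?_⟩
      · intro i
        refine Fin.cases ?_ (fun i => ?_) i
        · simp [KS, Prod.norm_def]
        · simpa using hw i
      · rw [Fin.prod_univ_succ, hpa]
        simp [lin]
    · have hdeg : p.natDegree = d + 1 := by omega
      obtain ⟨z, hz⟩ := IsAlgClosed.exists_root p (by
        intro h1
        have h2 : p.natDegree = 0 := Polynomial.natDegree_eq_zero_iff_degree_le_zero.2 h1.le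
        omega)
      obtain ⟨q, hq⟩ := Polynomial.dvd_iff_isRoot.2 hz
      have hq0 : q ≠ 0 := by
        rintro rfl
        exact hp (by rw [hq, mul_zero])
      have hqd : q.natDegree ≤ d := by
        have h1 := congrArg Polynomial.natDegree hq
        rw [Polynomial.natDegree_mul (Polynomial.X_sub_C_ne_zero z) hq0,
          Polynomial.natDegree_X_sub_C] at h1
        omega
      obtain ⟨w, a, ha, hw, hpa⟩ := ih q hq0 hqd
      set ν : ℝ := ‖((z, 1) : ℂ × ℂ)‖ with hν
      have hν1 : 0 < ν := by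
        rw [hν, norm_pos_iff]
        intro h1
        have := congrArg Prod.snd h1
        simp at this
      refine ⟨Fin.cons ((ν : ℂ)⁻¹ • (z, 1)) w, a * ν, mul_ne_zero ha (by exact_mod_cast hν1.ne'), ?_, ?_⟩
      · intro i
        refine Fin.cases ?_ (fun i => ?_) i
        · rw [Fin.cons_zero, KS, mem_sphere_zero_iff_norm, norm_smul, norm_inv, Complex.norm_real,
            Real.norm_of_nonneg hν1.le, ← hν, inv_mul_cancel₀ hν1.ne']
        · simpa using hw i
      · rw [Fin.prod_univ_succ, hq, hpa]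
        simp only [Fin.cons_zero, Fin.cons_succ]
        have h1 : lin ((ν : ℂ)⁻¹ • ((z, 1) : ℂ × ℂ)) = C (ν : ℂ)⁻¹ * (X - C z) := by
          unfold lin
          simp only [Prod.smul_snd, Prod.smul_fst, smul_eq_mul, mul_one]
          rw [C_mul, mul_sub]
        have h2 : C (ν : ℂ) * C (ν : ℂ)⁻¹ = (1 : ℂ[X]) := by
          rw [← C_mul, mul_inv_cancel₀ (by exact_mod_cast hν1.ne'), C_1]
        rw [h1, C_mul]
        calc (X - C z) * (C a * ∏ i, lin (w i)) = 1 * ((X - C z) * (C a * ∏ i, lin (w i))) := by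
              rw [one_mul]
          _ = _ := by
            rw [← h2]
            ring

/-- **The continuity principle.** -/
theorem continuousAt_of {Y : Type*} [TopologicalSpace Y] (G : (Fin (d + 1) → ℂ) → Y)
    (H : ℂ → (Fin d → ℂ × ℂ) → Y)
    (hGH : ∀ (a : ℂ) (w : Fin d → ℂ × ℂ), a ≠ 0 → (∀ i, w i ∈ KS) → G (a • vec w) = H a w)
    (hH : ∀ (a : ℂ) (w : Fin d → ℂ × ℂ), a ≠ 0 → (∀ i, w i ∈ KS) →
      ContinuousAt (fun x : ℂ × (Fin d → ℂ × ℂ) => H x.1 x.2) (a, w))
    (c₀ : Fin (d + 1) → ℂ) (hc₀ : c₀ ≠ 0) : ContinuousAt G c₀ := by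
  refine tendsto_of_subseq_tendsto fun ns hns => ?_
  have hdec : ∀ c : Fin (d + 1) → ℂ, ∃ (w : Fin d → ℂ × ℂ) (a : ℂ), (∀ i, w i ∈ KS) ∧
      (c ≠ 0 → a ≠ 0 ∧ c = a • vec w) := by
    intro c
    by_cases hc : c = 0
    · refine ⟨fun _ => (1, 0), 1, fun i => ?_, fun h => absurd hc h⟩
      simp [KS, Prod.norm_def]
    · obtain ⟨w, a, ha, hw, hp⟩ := decompose d (pol c) (pol_ne_zero hc) (natDegree_pol_le c)
      refine ⟨w, a, hw, fun _ => ⟨ha, ?_⟩⟩
      funext j
      rw [← coeff_pol' c j, hp, Polynomial.coeff_C_mul]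
      rfl
  choose W A hW hWA using hdec
  have hcompact : IsCompact {w : Fin d → ℂ × ℂ | ∀ i, w i ∈ KS} := by
    have h1 : {w : Fin d → ℂ × ℂ | ∀ i, w i ∈ KS} = Set.pi Set.univ fun _ => KS := by
      ext w
      simp
    rw [h1]
    exact isCompact_univ_pi fun _ => isCompact_sphere 0 1
  obtain ⟨w, hw, ms, hms, hlim⟩ := hcompact.tendsto_subseq (x := fun n => W (ns n))
    (fun n => hW (ns n))
  refine ⟨ms, ?_⟩
  have hvw : vec w ≠ 0 := vec_ne fun i => KS_ne (hw i)
  obtain ⟨j, hj⟩ : ∃ j, vec w j ≠ 0 := by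
    by_contra h
    push Not at h
    exact hvw (funext h)
  have hc : Tendsto (fun n => ns (ms n)) atTop (𝓝 c₀) := hns.comp hms.tendsto_atTop
  have hne : ∀ᶠ n in atTop, ns (ms n) ≠ 0 := hc.eventually_ne hc₀
  have hv : Tendsto (fun n => vec (W (ns (ms n)))) atTop (𝓝 (vec w)) :=
    (vec_continuous.tendsto w).comp hlim
  have hvj : Tendsto (fun n => vec (W (ns (ms n))) j) atTop (𝓝 (vec w j)) :=
    ((continuous_apply j).tendsto _).comp hv
  have hA : Tendsto (fun n => A (ns (ms n))) atTop (𝓝 (c₀ j / vec w j)) := by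
    have h1 : Tendsto (fun n => ns (ms n) j / vec (W (ns (ms n))) j) atTop
        (𝓝 (c₀ j / vec w j)) := (((continuous_apply j).tendsto _).comp hc).div hvj hj
    refine h1.congr' ?_
    filter_upwards [hne, hvj.eventually_ne hj] with n hn hn2
    obtain ⟨_, h2⟩ := hWA (ns (ms n)) hn
    have h3 := congrFun h2 j
    rw [Pi.smul_apply, smul_eq_mul] at h3
    conv_lhs => rw [h3]
    rw [mul_div_assoc, div_self hn2, mul_one]
  set a := c₀ j / vec w j with hadef
  have hc0 : c₀ = a • vec w := by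
    refine tendsto_nhds_unique hc ?_
    refine (hA.smul hv).congr' ?_
    filter_upwards [hne] with n hn
    exact ((hWA (ns (ms n)) hn).2).symm
  have ha : a ≠ 0 := by
    intro h
    rw [h, zero_smul] at hc0
    exact hc₀ hc0
  have hfin : Tendsto (fun n => H (A (ns (ms n))) (W (ns (ms n)))) atTop (𝓝 (H a w)) :=
    (hH a w ha hw).tendsto.comp (hA.prodMk_nhds hlim)
  have hG : G c₀ = H a w := by
    conv_lhs => rw [hc0]
    exact hGH a w ha hw
  rw [hG]
  refine hfin.congr' ?_
  filter_upwards [hne] with n hn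
  obtain ⟨h1, h2⟩ := hWA (ns (ms n)) hn
  rw [← hGH _ _ h1 (hW _), ← h2]

/-! ### sums over the zeros -/

/-- The value at the zero of the linear factor. -/
def ev {E : Type*} (f : OnePoint ℂ → E) (w : ℂ × ℂ) : E := if w.2 = 0 then f ∞ else f ((w.1 / w.2 : ℂ))

theorem ev_continuousAt {E : Type*} [TopologicalSpace E] {f : OnePoint ℂ → E} (hf : Continuous f)
    {w : ℂ × ℂ} (hw : w ≠ 0) : ContinuousAt (ev f) w := by
  by_cases h : w.2 = 0
  · have hw1 : w.1 ≠ 0 := by
      intro h1
      exact hw (Prod.ext h1 h)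
    have h1 : ev f w = f ∞ := by rw [ev, if_pos h]
    rw [ContinuousAt, h1]
    rw [tendsto_def]
    intro s hs
    have h2 := (hf.tendsto ∞) hs
    rw [mem_map, OnePoint.hasBasis_nhds_infty.mem_iff] at h2
    obtain ⟨t, ⟨_, htc⟩, hts⟩ := h2
    obtain ⟨R, hR⟩ := htc.isBounded.subset_closedBall 0
    have hR0 : Tendsto (fun x : ℂ × ℂ => ‖x.1‖ - |R| * ‖x.2‖) (𝓝 w) (𝓝 (‖w.1‖ - |R| * ‖w.2‖)) :=
      ((continuous_fst.norm.sub (continuous_const.mul continuous_snd.norm)).tendsto w)
    have hpos : 0 < ‖w.1‖ - |R| * ‖w.2‖ := by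
      rw [h, norm_zero, mul_zero, sub_zero]
      exact norm_pos_iff.2 hw1
    filter_upwards [hR0.eventually_const_lt hpos] with x hx
    show ev f x ∈ s
    unfold ev
    split_ifs with h3
    · exact hts (Or.inr rfl)
    · refine hts (Or.inl ⟨x.1 / x.2, ?_, rfl⟩)
      intro h4
      have h5 := hR h4
      rw [mem_closedBall_zero_iff, norm_div, div_le_iff₀ (norm_pos_iff.2 h3)] at h5
      have h6 : R * ‖x.2‖ ≤ |R| * ‖x.2‖ := mul_le_mul_of_nonneg_right (le_abs_self R) (norm_nonneg _)
      linarith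
  · have h1 : ∀ᶠ x in 𝓝 w, ev f x = f ((x.1 / x.2 : ℂ)) := by
      have h2 : ∀ᶠ x : ℂ × ℂ in 𝓝 w, x.2 ≠ 0 := (continuous_snd.tendsto w).eventually_ne h
      filter_upwards [h2] with x hx
      rw [ev, if_neg hx]
    refine ContinuousAt.congr ?_ (h1.mono fun x hx => hx.symm)
    refine (hf.continuousAt).comp (f := fun x : ℂ × ℂ => ((x.1 / x.2 : ℂ) : OnePoint ℂ)) ?_
    exact (OnePoint.continuous_coe.continuousAt).comp
      (f := fun x : ℂ × ℂ => (x.1 / x.2 : ℂ)) (continuousAt_fst.div continuousAt_snd h)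

/-- The sum of the values at the zeros (`d` of them, infinity included). -/
def rs {E : Type*} [AddCommMonoid E] (f : OnePoint ℂ → E) (c : Fin (d + 1) → ℂ) : E :=
  ((pol c).roots.map fun a : ℂ => f (a : OnePoint ℂ)).sum + (d - (pol c).natDegree) • f ∞

theorem rs_eq {E : Type*} [AddCommMonoid E] (f : OnePoint ℂ → E) (a : ℂ) (w : Fin d → ℂ × ℂ)
    (ha : a ≠ 0) (hw : ∀ i, w i ∈ KS) : rs f (a • vec w) = ∑ i, ev f (w i) := by
  classical
  have hne : ∀ i, lin (w i) ≠ 0 := fun i => lin_ne (KS_ne (hw i))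
  have hprod : ∏ i, lin (w i) ≠ 0 := Finset.prod_ne_zero_iff.2 fun i _ => hne i
  unfold rs
  rw [pol_smul, pol_vec, Polynomial.roots_C_mul _ ha, Polynomial.natDegree_C_mul ha,
    Polynomial.roots_prod _ _ hprod, Polynomial.natDegree_prod _ _ fun i _ => hne i]
  have h1 : ∀ i, (lin (w i)).natDegree = if (w i).2 = 0 then 0 else 1 := by
    intro i
    split_ifs with h
    · simp [lin, h]
    · unfold lin
      rw [Polynomial.natDegree_sub_C, Polynomial.natDegree_C_mul_X _ h]
  have h2 : ∀ i, ((lin (w i)).roots.map fun a : ℂ => f (a : OnePoint ℂ)).sum =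
      if (w i).2 = 0 then 0 else f (((w i).1 / (w i).2 : ℂ)) := by
    intro i
    split_ifs with h
    · simp only [lin, h, C_0, zero_mul, zero_sub, ← C_neg, Polynomial.roots_C]
      simp
    · have h3 : lin (w i) = C (w i).2 * (X - C ((w i).1 / (w i).2)) := by
        unfold lin
        rw [mul_sub, ← C_mul, mul_div_cancel₀ _ h]
      rw [h3, Polynomial.roots_C_mul _ h, Polynomial.roots_X_sub_C]
      simp
  have h3 : ((Finset.univ.val.bind fun i => (lin (w i)).roots).map fun a : ℂ => f (a : OnePoint ℂ)).sum =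
      ∑ i, if (w i).2 = 0 then 0 else f (((w i).1 / (w i).2 : ℂ)) := by
    rw [Multiset.map_bind, Multiset.sum_bind]
    exact Finset.sum_congr rfl fun i _ => h2 i
  rw [h3]
  have h4 : (d - ∑ i, (lin (w i)).natDegree) • f ∞ = ∑ i, if (w i).2 = 0 then f ∞ else 0 := by
    rw [Finset.sum_congr rfl fun i _ => h1 i, ← Finset.sum_filter, Finset.sum_const]
    congr 1
    have h5 : ∑ i : Fin d, (if (w i).2 = 0 then 0 else 1) =
        (Finset.univ.filter fun i => ¬ (w i).2 = 0).card := by
      rw [Finset.card_filter]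
      refine Finset.sum_congr rfl fun i _ => ?_
      split_ifs <;> rfl
    have h6 := Finset.card_filter_add_card_filter_not (s := (Finset.univ : Finset (Fin d)))
      (fun i => (w i).2 = 0)
    rw [Finset.card_univ, Fintype.card_fin] at h6
    rw [h5]
    omega
  rw [h4, ← Finset.sum_add_distrib]
  refine Finset.sum_congr rfl fun i _ => ?_
  unfold ev
  split_ifs <;> simp

theorem rs_continuousAt {E : Type*} [AddCommMonoid E] [TopologicalSpace E] [ContinuousAdd E]
    {f : OnePoint ℂ → E} (hf : Continuous f) (c₀ : Fin (d + 1) → ℂ) (hc₀ : c₀ ≠ 0) :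
    ContinuousAt (rs f) c₀ := by
  refine continuousAt_of (rs f) (fun _ w => ∑ i, ev f (w i)) (fun a w ha hw => rs_eq f a w ha hw)
    (fun a w ha hw => ?_) c₀ hc₀
  refine tendsto_finsetSum _ fun i _ => ?_
  exact (ev_continuousAt hf (KS_ne (hw i))).tendsto.comp
    (((continuous_apply i).comp continuous_snd).tendsto (a, w))

theorem rs_smul {E : Type*} [AddCommMonoid E] (f : OnePoint ℂ → E) {a : ℂ} (ha : a ≠ 0)
    (c : Fin (d + 1) → ℂ) : rs f (a • c) = rs f c := by
  unfold rs
  rw [pol_smul, Polynomial.roots_C_mul _ ha, Polynomial.natDegree_C_mul ha]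

theorem rs_of_last {E : Type*} [AddCommMonoid E] (f : OnePoint ℂ → E) {c : Fin (d + 1) → ℂ}
    (h : c (Fin.last d) ≠ 0) : rs f c = ((pol c).roots.map fun a : ℂ => f (a : OnePoint ℂ)).sum := by
  unfold rs
  rw [natDegree_pol h, Nat.sub_self, zero_smul, add_zero]

/-! ### the Mahler measure -/

theorem mahler_vec (a : ℂ) (w : Fin d → ℂ × ℂ) :
    (pol (a • vec w)).mahlerMeasure = ‖a‖ * ∏ i, max ‖(w i).2‖ ‖(w i).1‖ := by
  rw [pol_smul, pol_vec, Polynomial.mahlerMeasure_mul, Polynomial.mahlerMeasure_const]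
  congr 1
  have h : ∀ s : Finset (Fin d), (∏ i ∈ s, lin (w i)).mahlerMeasure =
      ∏ i ∈ s, max ‖(w i).2‖ ‖(w i).1‖ := by
    intro s
    classical
    induction s using Finset.induction_on with
    | empty => simp
    | insert i s hi ih =>
      rw [Finset.prod_insert hi, Finset.prod_insert hi, Polynomial.mahlerMeasure_mul, ih]
      congr 1
      unfold lin
      by_cases h : (w i).2 = 0
      · rw [h, C_0, zero_mul, zero_sub, ← C_neg, Polynomial.mahlerMeasure_const, norm_neg, norm_zero,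
          max_eq_right (norm_nonneg _)]
      · rw [sub_eq_add_neg, ← C_neg, Polynomial.mahlerMeasure_C_mul_X_add_C h, norm_neg]
  exact h _

/-- the Mahler measure as a function of the coefficients -/
def mm (c : Fin (d + 1) → ℂ) : ℝ := (pol c).mahlerMeasure

theorem mm_continuousAt (c₀ : Fin (d + 1) → ℂ) (hc₀ : c₀ ≠ 0) : ContinuousAt mm c₀ := by
  refine continuousAt_of mm (fun a w => ‖a‖ * ∏ i, max ‖(w i).2‖ ‖(w i).1‖)
    (fun a w ha hw => mahler_vec a w) (fun a w ha hw => ?_) c₀ hc₀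
  have h : Continuous fun x : ℂ × (Fin d → ℂ × ℂ) => ‖x.1‖ * ∏ i, max ‖(x.2 i).2‖ ‖(x.2 i).1‖ := by
    refine continuous_fst.norm.mul (continuous_finsetProd _ fun i _ => ?_)
    have h1 : Continuous fun x : ℂ × (Fin d → ℂ × ℂ) => x.2 i :=
      (continuous_apply i).comp continuous_snd
    exact (continuous_snd.comp h1).norm.max (continuous_fst.comp h1).norm
  exact h.continuousAt

theorem mm_le (c : Fin (d + 1) → ℂ) : mm c ≤ (d + 1) * ‖c‖ := by
  unfold mm
  refine (Polynomial.mahlerMeasure_le_sum_norm_coeff _).trans ?_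
  rw [Polynomial.sum_over_range' _ (by simp) (d + 1) (Nat.lt_succ_of_le (natDegree_pol_le c))]
  have h : ∀ i ∈ Finset.range (d + 1), ‖(pol c).coeff i‖ ≤ ‖c‖ := by
    intro i hi
    rw [coeff_pol, dif_pos (Finset.mem_range.1 hi)]
    exact norm_le_pi_norm c _
  refine (Finset.sum_le_card_nsmul _ _ _ h).trans ?_
  rw [Finset.card_range, nsmul_eq_mul]
  push_cast
  rfl

end

end Pool.Agent.T9h56.EQ
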