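import Pool.Agent.T9h56.EQ.Rad

/-!
# Equidistribution of the zeros, and the bound for the degree
-/

set_option autoImplicit false

namespace Pool.Agent.T9h56.EQ

open Polynomial Filter MeasureTheory Topology Pool.Agent.H261R2.CM Pool.Agent.T9h56.MT
  Pool.Agent.T9h56.SQ OnePoint

noncomputable section

/-- the mean over the unit circle -/
def hr (f : OnePoint ℂ → ℝ) : ℝ := ∫ s in (0:ℝ)..1, f ((ez s : ℂ) : OnePoint ℂ)

theorem ez_continuous : Continuous ez := by
  unfold ez
  fun_prop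

theorem trig (f : OnePoint ℂ → ℝ) (hf : Continuous f) (ε : ℝ) (hε : 0 < ε) :
    ∃ (s : Finset ℤ) (b : ℤ → ℂ),
      ∀ u : ℝ, |f ((ez u : ℂ) : OnePoint ℂ) - ∑ m ∈ s, (b m * ez u ^ m.natAbs).re| ≤ ε := by
  haveI : Fact ((0 : ℝ) < 1) := ⟨one_pos⟩
  set g : C(AddCircle (1 : ℝ), ℂ) :=
    ⟨fun x => ((f (((AddCircle.toCircle x : Circle) : ℂ) : OnePoint ℂ) : ℝ) : ℂ), by
      refine Complex.continuous_ofReal.comp (hf.comp (OnePoint.continuous_coe.comp ?_))
      exact continuous_subtype_val.comp AddCircle.continuous_toCircle⟩ with hg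
  have h1 : g ∈ (Submodule.span ℂ (Set.range (@fourier (1 : ℝ)))).topologicalClosure := by
    rw [span_fourier_closure_eq_top]
    trivial
  obtain ⟨P, hP, hgP⟩ := Metric.mem_closure_iff.1 h1 ε hε
  obtain ⟨c, rfl⟩ := Finsupp.mem_span_range_iff_exists_finsupp.1 hP
  rw [ContinuousMap.dist_lt_iff hε] at hgP
  refine ⟨c.support, fun m => if 0 ≤ m then c m else (starRingEnd ℂ) (c m), fun u => ?_⟩
  have h2 := hgP (u : AddCircle (1 : ℝ))
  have h3 : g (u : AddCircle (1 : ℝ)) = ((f ((ez u : ℂ) : OnePoint ℂ) : ℝ) : ℂ) := by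
    rw [hg]
    simp only [ContinuousMap.coe_mk]
    congr 3
    rw [AddCircle.toCircle_apply_mk, Circle.coe_exp]
    unfold ez
    congr 1
    push_cast
    ring
  have h4 : (c.sum fun i a => a • fourier i) (u : AddCircle (1 : ℝ)) =
      ∑ m ∈ c.support, c m * fourier m (u : AddCircle (1 : ℝ)) := by
    rw [Finsupp.sum, ContinuousMap.sum_apply]
    rfl
  have h5 : ∀ m : ℤ, (c m * fourier m (u : AddCircle (1 : ℝ))).re =
      ((if 0 ≤ m then c m else (starRingEnd ℂ) (c m)) * ez u ^ m.natAbs).re := by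
    intro m
    rw [fourier_coe_apply]
    have h6 : Complex.exp (2 * Real.pi * Complex.I * m * u / (1 : ℝ)) = ez u ^ m := by
      unfold ez
      rw [← Complex.exp_int_mul]
      congr 1
      push_cast
      ring
    rw [h6]
    split_ifs with h
    · obtain ⟨n, rfl⟩ := Int.eq_ofNat_of_zero_le h
      simp
    · obtain ⟨n, hn⟩ := Int.eq_ofNat_of_zero_le (show 0 ≤ -m by omega)
      have hm : m = -(n : ℤ) := by omega
      subst hm
      rw [Int.natAbs_neg, Int.natAbs_natCast, zpow_neg, zpow_natCast]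
      have h7 : (ez u ^ n)⁻¹ = (starRingEnd ℂ) (ez u ^ n) := by
        have h8 : ‖ez u ^ n‖ = 1 := by rw [norm_pow, D_norm_ez, one_pow]
        have h9 : ez u ^ n ≠ 0 := by
          rw [← norm_ne_zero_iff, h8]
          exact one_ne_zero
        rw [inv_eq_iff_eq_inv, ← one_div, eq_div_iff (by rwa [Ne, map_eq_zero]), Complex.mul_conj,
          Complex.normSq_eq_norm_sq, h8]
        simp
      rw [h7, ← Complex.conj_re ((starRingEnd ℂ) (c _) * _), map_mul, Complex.conj_conj]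
  rw [h3, h4, dist_eq_norm] at h2
  have h6 : f ((ez u : ℂ) : OnePoint ℂ) - ∑ m ∈ c.support,
      ((if 0 ≤ m then c m else (starRingEnd ℂ) (c m)) * ez u ^ m.natAbs).re =
      (((f ((ez u : ℂ) : OnePoint ℂ) : ℝ) : ℂ) -
        ∑ m ∈ c.support, c m * fourier m (u : AddCircle (1 : ℝ))).re := by
    rw [Complex.sub_re, Complex.ofReal_re, Complex.re_sum]
    congr 1
    exact Finset.sum_congr rfl fun m _ => (h5 m).symm
  rw [h6]
  exact (Complex.abs_re_le_norm _).trans h2.le

theorem int_ez (b : ℂ) (n : ℕ) (hn : n ≠ 0) : ∫ u in (0:ℝ)..1, (b * ez u ^ n).re = 0 := by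
  have hint : IntervalIntegrable (fun u => b * ez u ^ n) volume 0 1 :=
    (continuous_const.mul (ez_continuous.pow n)).intervalIntegrable _ _
  have h1 : ∫ u in (0:ℝ)..1, (b * ez u ^ n) = 0 := by
    rw [intervalIntegral.integral_const_mul, D_integral_ez_pow n hn, mul_zero]
  have h2 := intervalIntegral.intervalIntegral_re (𝕜 := ℂ) hint
  simp only [RCLike.re_to_complex] at h2
  rw [h2, h1, Complex.zero_re]

theorem ez_surj {z : ℂ} (hz : ‖z‖ = 1) : ∃ u : ℝ, ez u = z := by
  refine ⟨z.arg / (2 * Real.pi), ?_⟩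
  unfold ez
  have h1 := Complex.norm_mul_exp_arg_mul_I z
  rw [hz, Complex.ofReal_one, one_mul] at h1
  conv_rhs => rw [← h1]
  congr 1
  have h2 : (Real.pi : ℂ) ≠ 0 := by exact_mod_cast Real.pi_ne_zero
  push_cast
  field_simp

theorem norm_foldO_eq {x : OnePoint ℂ} (h : ‖foldO x‖ = 1) :
    ∃ u : ℝ, x = ((ez u : ℂ) : OnePoint ℂ) ∧ foldO x = ez u := by
  induction x using OnePoint.rec with
  | infty => simp [foldO] at h
  | coe z =>
    have h1 : ‖fold z‖ = 1 := h
    have h2 : ‖z‖ = 1 := by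
      unfold fold at h1
      split_ifs at h1 with h3
      · exact h1
      · rw [norm_inv, RCLike.norm_conj, inv_eq_one] at h1
        exact h1
    obtain ⟨u, hu⟩ := ez_surj h2
    refine ⟨u, by rw [hu], ?_⟩
    show fold z = ez u
    unfold fold
    rw [if_pos h2.le, hu]

theorem test (f : OnePoint ℂ → ℝ) (hf : Continuous f) (ε : ℝ) (hε : 0 < ε) :
    ∃ (s : Finset ℤ) (b : ℤ → ℂ) (C : ℝ), 0 ≤ C ∧ (∀ m ∈ s, m ≠ 0) ∧ ∀ x,
      |f x - hr f - ∑ m ∈ s, (b m * foldO x ^ m.natAbs).re| ≤ ε + C * wO x := by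
  classical
  obtain ⟨s0, b, hb⟩ := trig f hf (ε / 4) (by positivity)
  have hfc : Continuous fun u : ℝ => f ((ez u : ℂ) : OnePoint ℂ) :=
    hf.comp (OnePoint.continuous_coe.comp ez_continuous)
  have hterm : ∀ m : ℤ, Continuous fun u : ℝ => (b m * ez u ^ m.natAbs).re := fun m =>
    Complex.continuous_re.comp (continuous_const.mul (ez_continuous.pow _))
  set β : ℝ := ∑ m ∈ s0, if m = 0 then (b m).re else 0 with hβ
  have hint : ∫ u in (0:ℝ)..1, (f ((ez u : ℂ) : OnePoint ℂ) - ∑ m ∈ s0, (b m * ez u ^ m.natAbs).re) =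
      hr f - β := by
    rw [intervalIntegral.integral_sub (hfc.intervalIntegrable _ _)
      ((continuous_finsetSum _ fun m _ => hterm m).intervalIntegrable _ _),
      intervalIntegral.integral_finset_sum fun m _ => (hterm m).intervalIntegrable _ _]
    congr 1
    refine Finset.sum_congr rfl fun m _ => ?_
    split_ifs with h
    · subst h
      simp
    · exact int_ez (b m) m.natAbs (by omega)
  have h1 : |hr f - β| ≤ ε / 4 := by
    rw [← hint]
    have h2 := intervalIntegral.norm_integral_le_of_norm_le_const (a := (0:ℝ)) (b := 1)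
      (f := fun u => f ((ez u : ℂ) : OnePoint ℂ) - ∑ m ∈ s0, (b m * ez u ^ m.natAbs).re)
      (C := ε / 4) fun u _ => by
        rw [Real.norm_eq_abs]
        exact hb u
    rwa [sub_zero, abs_one, mul_one, Real.norm_eq_abs] at h2
  set s := s0.filter fun m => m ≠ 0 with hs
  set G : OnePoint ℂ → ℝ := fun x => f x - hr f - ∑ m ∈ s, (b m * foldO x ^ m.natAbs).re with hG
  have hGc : Continuous G := by
    refine (hf.sub continuous_const).sub (continuous_finsetSum _ fun m _ => ?_)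
    exact Complex.continuous_re.comp (continuous_const.mul (foldO_continuous.pow _))
  have hcirc : ∀ x, ‖foldO x‖ = 1 → |G x| ≤ ε / 2 := by
    intro x hx
    obtain ⟨u, hu1, hu2⟩ := norm_foldO_eq hx
    have h2 : G x = (f ((ez u : ℂ) : OnePoint ℂ) - ∑ m ∈ s0, (b m * ez u ^ m.natAbs).re) -
        (hr f - β) := by
      have h3 : ∑ m ∈ s0, (b m * ez u ^ m.natAbs).re =
          β + ∑ m ∈ s, (b m * ez u ^ m.natAbs).re := by
        rw [hβ, hs, Finset.sum_filter, ← Finset.sum_add_distrib]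
        refine Finset.sum_congr rfl fun m _ => ?_
        by_cases h : m = 0
        · subst h
          simp
        · simp [h]
      simp only [hG]
      rw [hu2, h3, hu1]
      ring
    rw [h2]
    have := abs_sub (f ((ez u : ℂ) : OnePoint ℂ) - ∑ m ∈ s0, (b m * ez u ^ m.natAbs).re) (hr f - β)
    have := hb u
    linarith
  obtain ⟨B, hB⟩ : ∃ B, ∀ x, |G x| ≤ B := by
    obtain ⟨B, hB⟩ := (isCompact_range hGc.abs).bddAbove
    exact ⟨B, fun x => hB ⟨x, rfl⟩⟩
  have hB0 : 0 ≤ B := (abs_nonneg _).trans (hB ∞)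
  have hKc : IsCompact {x | ε ≤ |G x|} := (isClosed_le continuous_const hGc.abs).isCompact
  by_cases hne : {x | ε ≤ |G x|}.Nonempty
  · obtain ⟨x0, hx0, hmin⟩ := hKc.exists_isMinOn hne wO_continuous.continuousOn
    have hw0 : 0 < wO x0 := by
      refine lt_of_le_of_ne (wO_nonneg x0) fun h => ?_
      have h2 : ‖foldO x0‖ = 1 := by
        unfold wO at h
        linarith
      have h3 := hcirc x0 h2
      have h4 : ε ≤ |G x0| := hx0
      linarith
    refine ⟨s, b, B / wO x0, by positivity, fun m hm => (Finset.mem_filter.1 hm).2, fun x => ?_⟩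
    show |G x| ≤ _
    by_cases hx : ε ≤ |G x|
    · have h2 : wO x0 ≤ wO x := hmin hx
      have h3 : B ≤ B / wO x0 * wO x := by
        rw [div_mul_eq_mul_div, le_div_iff₀ hw0]
        exact mul_le_mul_of_nonneg_left h2 hB0
      linarith [hB x]
    · have h3 : 0 ≤ B / wO x0 * wO x := mul_nonneg (by positivity) (wO_nonneg x)
      linarith [not_le.1 hx]
  · refine ⟨s, b, 0, le_rfl, fun m hm => (Finset.mem_filter.1 hm).2, fun x => ?_⟩
    show |G x| ≤ _
    have hx : ¬ ε ≤ |G x| := fun h => hne ⟨x, h⟩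
    rw [zero_mul, add_zero]
    exact (not_le.1 hx).le

theorem msum_le (f : OnePoint ℂ → ℝ) (s : Finset ℤ) (b : ℤ → ℂ) (C ε h : ℝ)
    (hx : ∀ x, |f x - h - ∑ m ∈ s, (b m * foldO x ^ m.natAbs).re| ≤ ε + C * wO x)
    (T : Multiset ℂ) :
    |(T.map fun a : ℂ => f (a : OnePoint ℂ)).sum - Multiset.card T * h -
      ∑ m ∈ s, (b m * (T.map fun a : ℂ => foldO (a : OnePoint ℂ) ^ m.natAbs).sum).re| ≤
      Multiset.card T * ε + C * (T.map fun a : ℂ => wO (a : OnePoint ℂ)).sum := by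
  induction T using Multiset.induction_on with
  | empty => simp
  | cons a T ih =>
    simp only [Multiset.map_cons, Multiset.sum_cons, Multiset.card_cons, mul_add, Complex.add_re,
      Finset.sum_add_distrib]
    have h1 := hx (a : OnePoint ℂ)
    have h2 : f (a : OnePoint ℂ) + (T.map fun a : ℂ => f (a : OnePoint ℂ)).sum -
        ((Multiset.card T + 1 : ℕ) : ℝ) * h -
        (∑ m ∈ s, (b m * foldO (a : OnePoint ℂ) ^ m.natAbs).re +
          ∑ m ∈ s, (b m * (T.map fun a : ℂ => foldO (a : OnePoint ℂ) ^ m.natAbs).sum).re) =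
        (f (a : OnePoint ℂ) - h - ∑ m ∈ s, (b m * foldO (a : OnePoint ℂ) ^ m.natAbs).re) +
        ((T.map fun a : ℂ => f (a : OnePoint ℂ)).sum - Multiset.card T * h -
          ∑ m ∈ s, (b m * (T.map fun a : ℂ => foldO (a : OnePoint ℂ) ^ m.natAbs).sum).re) := by
      push_cast
      ring
    rw [h2]
    refine (abs_add_le _ _).trans ?_
    push_cast
    linarith

variable {d k : ℕ}

theorem emp_le (f : OnePoint ℂ → ℝ) (s : Finset ℤ) (b : ℤ → ℂ) (C ε h : ℝ)
    (hx : ∀ x, |f x - h - ∑ m ∈ s, (b m * foldO x ^ m.natAbs).re| ≤ ε + C * wO x)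
    {c : Fin (d + 1) → ℂ} (hc : c (Fin.last d) ≠ 0) :
    |rs f c - d * h| ≤ d * ε + C * rs wO c + ∑ m ∈ s, ‖b m‖ * ‖ps m.natAbs c‖ := by
  have h1 := msum_le f s b C ε h hx (pol c).roots
  have hcard : Multiset.card (pol c).roots = d := by
    rw [IsAlgClosed.card_roots_eq_natDegree, natDegree_pol hc]
  rw [hcard, ← rs_of_last f hc, ← rs_of_last wO hc] at h1
  have h2 : ∀ m ∈ s, (b m * ((pol c).roots.map fun a : ℂ => foldO (a : OnePoint ℂ) ^ m.natAbs).sum).re =
      (b m * ps m.natAbs c).re := by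
    intro m _
    unfold ps
    rw [rs_of_last _ hc]
  rw [Finset.sum_congr rfl h2] at h1
  have h3 : |∑ m ∈ s, (b m * ps m.natAbs c).re| ≤ ∑ m ∈ s, ‖b m‖ * ‖ps m.natAbs c‖ := by
    refine (Finset.abs_sum_le_sum_abs _ _).trans (Finset.sum_le_sum fun m _ => ?_)
    rw [← norm_mul]
    exact Complex.abs_re_le_norm _
  have h4 : rs f c - d * h = (rs f c - d * h - ∑ m ∈ s, (b m * ps m.natAbs c).re) +
      ∑ m ∈ s, (b m * ps m.natAbs c).re := by ring
  rw [h4]
  refine (abs_add_le _ _).trans ?_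
  linarith

theorem Hk_mm_nonneg {A : Fin (d + 1) → MvPolynomial (Fin k) ℤ} (hA : A (Fin.last d) ≠ 0) :
    0 ≤ Hk mm A := by
  have h1 := one_le_mM (FP A) (PS_ne_zero A _ (fun i j h => Fin.ext h) ⟨_, hA⟩)
  rw [← log_mM_FP A ⟨_, hA⟩]
  exact Real.log_nonneg h1

/-- **Equidistribution in the mean.** -/
theorem mean_le (f : OnePoint ℂ → ℝ) (hf : Continuous f) (ε : ℝ) (hε : 0 < ε) :
    ∃ (C : ℝ) (d₀ : ℕ), 0 ≤ C ∧ 2 ≤ d₀ ∧ ∀ (k d : ℕ) (A : Fin (d + 1) → MvPolynomial (Fin k) ℤ),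
      d₀ ≤ d → A (Fin.last d) ≠ 0 → (RP A).discr ≠ 0 →
      ∫ t, |rs f (cv A t) - d * hr f| ∂(cube k) ≤
        2 * ε * d + C * (1 + Hk mm A + Real.log d) := by
  obtain ⟨s, b, C, hC, hs, hx⟩ := test f hf ε hε
  set B : ℝ := ∑ m ∈ s, ‖b m‖ with hB
  have hB0 : 0 ≤ B := Finset.sum_nonneg fun m _ => norm_nonneg _
  set δ : ℝ := ε / (B + 1) with hδ
  have hδ0 : 0 < δ := by positivity
  set C' : ℝ := 2 * C + ∑ m ∈ s, ‖b m‖ * (2 * (m.natAbs : ℝ) / δ) with hC'
  refine ⟨C', max 2 (s.sup Int.natAbs), ?_, le_max_left _ _, fun k d A hd hA hdisc => ?_⟩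
  · rw [hC']
    have : 0 ≤ ∑ m ∈ s, ‖b m‖ * (2 * (m.natAbs : ℝ) / δ) := Finset.sum_nonneg fun m _ => by positivity
    linarith
  have hd2 : 2 ≤ d := (le_max_left _ _).trans hd
  have hds : ∀ m ∈ s, m.natAbs ≤ d := fun m hm =>
    (Finset.le_sup (f := Int.natAbs) hm).trans ((le_max_right _ _).trans hd)
  have hdR : (2 : ℝ) ≤ d := by exact_mod_cast hd2
  have hd0 : (0 : ℝ) < d := by linarith
  have hL := Hk_mm_nonneg hA
  have hlogd : 0 ≤ Real.log d := Real.log_nonneg (by linarith)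
  obtain ⟨Bf, hBf⟩ : ∃ Bf, ∀ x, |f x| ≤ Bf := by
    obtain ⟨Bf, hBf⟩ := (isCompact_range hf.abs).bddAbove
    exact ⟨Bf, fun x => hBf ⟨x, rfl⟩⟩
  have hfm : AEStronglyMeasurable (fun t => rs f (cv A t)) (cube k) :=
    cube_meas (fun c hc => rs_continuousAt hf c hc) hA
  have hfi : Integrable (fun t => rs f (cv A t)) (cube k) := by
    refine Integrable.of_bound hfm ((d : ℝ) * Bf) (Eventually.of_forall fun t => ?_)
    rw [Real.norm_eq_abs]
    exact rs_boundR hBf _
  have hwm : AEStronglyMeasurable (fun t => rs wO (cv A t)) (cube k) :=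
    cube_meas (fun c hc => rs_continuousAt wO_continuous c hc) hA
  have hw : Integrable (fun t => rs wO (cv A t)) (cube k) := by
    refine Integrable.of_bound hwm ((d : ℝ) * 1) (Eventually.of_forall fun t => ?_)
    rw [Real.norm_eq_abs]
    refine rs_boundR (fun x => ?_) _
    rw [abs_of_nonneg (wO_nonneg x)]
    exact wO_le x
  have hpsm : ∀ n, AEStronglyMeasurable (fun t => ps n (cv A t)) (cube k) := fun n =>
    cube_meas (fun c hc => ps_continuousAt n c hc) hA
  have hps : ∀ n, Integrable (fun t => ‖ps n (cv A t)‖) (cube k) := by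
    intro n
    refine Integrable.of_bound (hpsm n).norm (d : ℝ) (Eventually.of_forall fun t => ?_)
    rw [norm_norm]
    exact ps_bound n _
  have hps2 : ∀ n, Integrable (fun t => ‖ps n (cv A t)‖ ^ 2) (cube k) := by
    intro n
    refine Integrable.of_bound (((hpsm n).norm).pow 2) ((d : ℝ) ^ 2) (Eventually.of_forall fun t => ?_)
    rw [Real.norm_of_nonneg (by positivity)]
    exact pow_le_pow_left₀ (norm_nonneg _) (ps_bound n _) 2
  have hpsmean : ∀ m ∈ s, ∫ t, ‖ps m.natAbs (cv A t)‖ ∂(cube k) ≤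
      δ * d + (m.natAbs : ℝ) / δ * (2 * Hk mm A + Real.log d + 1) := by
    intro m hm
    have hm1 : 1 ≤ m.natAbs := by
      have := hs m hm
      omega
    have h1 := ps_mean hd2 m.natAbs hm1 (hds m hm) hA hdisc
    have i1 : Integrable (fun t => δ * d + 1 / (4 * δ * d) * ‖ps m.natAbs (cv A t)‖ ^ 2) (cube k) :=
      (integrable_const _).add ((hps2 _).const_mul _)
    have h2 : ∫ t, ‖ps m.natAbs (cv A t)‖ ∂(cube k) ≤
        ∫ t, (δ * d + 1 / (4 * δ * d) * ‖ps m.natAbs (cv A t)‖ ^ 2) ∂(cube k) := by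
      refine integral_mono (hps _) i1 fun t => ?_
      simp only
      set x := ‖ps m.natAbs (cv A t)‖
      have h3 : δ * d + 1 / (4 * δ * d) * x ^ 2 - x = 1 / (4 * δ * d) * (2 * δ * d - x) ^ 2 := by
        field_simp
        ring
      have h4 : 0 ≤ 1 / (4 * δ * d) * (2 * δ * d - x) ^ 2 := by positivity
      linarith
    rw [integral_add (integrable_const _) ((hps2 _).const_mul _), integral_const, probReal_univ,
      one_smul, integral_const_mul] at h2
    refine h2.trans ?_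
    have h5 : 1 / (4 * δ * d) * ∫ t, ‖ps m.natAbs (cv A t)‖ ^ 2 ∂(cube k) ≤
        1 / (4 * δ * d) * (4 * m.natAbs * (2 * d * Hk mm A + d * Real.log d + d)) :=
      mul_le_mul_of_nonneg_left h1 (by positivity)
    have h6 : 1 / (4 * δ * d) * (4 * m.natAbs * (2 * d * Hk mm A + d * Real.log d + d)) =
        (m.natAbs : ℝ) / δ * (2 * Hk mm A + Real.log d + 1) := by
      field_simp
    linarith
  have hsumi : Integrable (fun t => ∑ m ∈ s, ‖b m‖ * ‖ps m.natAbs (cv A t)‖) (cube k) :=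
    integrable_finsetSum _ fun m _ => (hps _).const_mul _
  have i2 : Integrable (fun t => d * ε + C * rs wO (cv A t)) (cube k) :=
    (integrable_const _).add (hw.const_mul _)
  have hmain : ∫ t, |rs f (cv A t) - d * hr f| ∂(cube k) ≤
      ∫ t, (d * ε + C * rs wO (cv A t) + ∑ m ∈ s, ‖b m‖ * ‖ps m.natAbs (cv A t)‖) ∂(cube k) := by
    refine integral_mono_ae (hfi.sub (integrable_const _)).abs (i2.add hsumi) ?_
    filter_upwards [F_zero_null hA] with t ht
    exact emp_le f s b C ε (hr f) hx ht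
  rw [integral_add i2 hsumi, integral_add (integrable_const _) (hw.const_mul _), integral_const,
    probReal_univ, one_smul, integral_const_mul,
    integral_finsetSum _ fun m _ => (hps _).const_mul _] at hmain
  simp only [integral_const_mul] at hmain
  have h7 : ∑ m ∈ s, ‖b m‖ * ∫ t, ‖ps m.natAbs (cv A t)‖ ∂(cube k) ≤
      ∑ m ∈ s, ‖b m‖ * (δ * d + (m.natAbs : ℝ) / δ * (2 * Hk mm A + Real.log d + 1)) :=
    Finset.sum_le_sum fun m hm => mul_le_mul_of_nonneg_left (hpsmean m hm) (norm_nonneg _)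
  have h8 : ∑ m ∈ s, ‖b m‖ * (δ * d + (m.natAbs : ℝ) / δ * (2 * Hk mm A + Real.log d + 1)) =
      B * (δ * d) + (∑ m ∈ s, ‖b m‖ * ((m.natAbs : ℝ) / δ)) * (2 * Hk mm A + Real.log d + 1) := by
    rw [hB, Finset.sum_mul, Finset.sum_mul, ← Finset.sum_add_distrib]
    exact Finset.sum_congr rfl fun m _ => by ring
  have h9 : B * (δ * d) ≤ ε * d := by
    rw [hδ]
    have : B / (B + 1) ≤ 1 := by
      rw [div_le_one (by linarith)]
      linarith
    have h10 : B * (ε / (B + 1) * d) = B / (B + 1) * (ε * d) := by ring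
    rw [h10]
    exact mul_le_of_le_one_left (by positivity) this
  have h10 := w_mean hd2 hA hdisc
  have h11 : C * ∫ t, rs wO (cv A t) ∂(cube k) ≤ C * (1 + 2 * Hk mm A) :=
    mul_le_mul_of_nonneg_left h10 hC
  set S := ∑ m ∈ s, ‖b m‖ * ((m.natAbs : ℝ) / δ) with hS
  have hS0 : 0 ≤ S := Finset.sum_nonneg fun m _ => by positivity
  have hS2 : ∑ m ∈ s, ‖b m‖ * (2 * (m.natAbs : ℝ) / δ) = 2 * S := by
    rw [hS, Finset.mul_sum]
    exact Finset.sum_congr rfl fun m _ => by ring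
  rw [hC', hS2]
  have h12 : 0 ≤ S * (1 + Real.log d) := by positivity
  have h13 : 0 ≤ C * (1 + 2 * Real.log d) := by positivity
  nlinarith

/-- **The bound for the degree.** -/
theorem deg_bound (f : OnePoint ℂ → ℝ) (hf : Continuous f) (ε : ℝ) (hε : 0 < ε) :
    ∃ C : ℝ, 0 ≤ C ∧ ∀ (k d : ℕ) (A : Fin (d + 1) → MvPolynomial (Fin k) ℤ),
      A (Fin.last d) ≠ 0 → (RP A).discr ≠ 0 →
      ε * d ≤ ∫ t, |rs f (cv A t) - d * hr f| ∂(cube k) → (d : ℝ) ≤ C * (1 + Hk mm A) := by
  obtain ⟨C, d₀, hC, hd₀, h⟩ := mean_le f hf (ε / 4) (by positivity)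
  set η : ℝ := ε / (4 * (C + 1)) with hη
  have hη0 : 0 < η := by positivity
  set K : ℝ := max (d₀ : ℝ) (4 / ε * (C + C * |Real.log η|)) with hK
  have hK0 : 0 ≤ K := (Nat.cast_nonneg d₀).trans (le_max_left _ _)
  refine ⟨K, hK0, fun k d A hA hdisc hint => ?_⟩
  have hL := Hk_mm_nonneg hA
  by_cases hd : d₀ ≤ d
  · have h1 := h k d A hd hA hdisc
    have hdR : (2 : ℝ) ≤ d := by exact_mod_cast hd₀.trans hd
    have hd0 : (0 : ℝ) < d := by linarith
    have h2 : Real.log d ≤ η * d - 1 - Real.log η := by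
      have h3 := Real.log_le_sub_one_of_pos (show 0 < η * d by positivity)
      rw [Real.log_mul hη0.ne' hd0.ne'] at h3
      linarith
    have h3 : C * Real.log d ≤ ε / 4 * d + C * |Real.log η| := by
      have h4 : C * Real.log d ≤ C * (η * d + |Real.log η|) :=
        mul_le_mul_of_nonneg_left (by linarith [neg_abs_le (Real.log η)]) hC
      have h5 : C * η ≤ ε / 4 := by
        rw [hη, ← mul_div_assoc, div_le_div_iff₀ (by positivity) (by norm_num)]
        nlinarith
      nlinarith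
    have h6 : ε / 4 * d ≤ C * (1 + Hk mm A) + C * |Real.log η| := by nlinarith
    have h7 : (d : ℝ) = 4 / ε * (ε / 4 * d) := by field_simp
    have h8 : 4 / ε * (ε / 4 * d) ≤ 4 / ε * (C * (1 + Hk mm A) + C * |Real.log η|) :=
      mul_le_mul_of_nonneg_left h6 (by positivity)
    have h9 : 4 / ε * (C * (1 + Hk mm A) + C * |Real.log η|) ≤
        4 / ε * (C + C * |Real.log η|) * (1 + Hk mm A) := by
      rw [mul_assoc]
      refine mul_le_mul_of_nonneg_left ?_ (by positivity)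
      have : 0 ≤ C * |Real.log η| * Hk mm A := by positivity
      nlinarith
    have h10 : 4 / ε * (C + C * |Real.log η|) * (1 + Hk mm A) ≤ K * (1 + Hk mm A) :=
      mul_le_mul_of_nonneg_right (le_max_right _ _) (by linarith)
    linarith
  · have h1 : (d : ℝ) ≤ d₀ := by exact_mod_cast (not_le.1 hd).le
    have h2 : (d₀ : ℝ) ≤ K := le_max_left _ _
    nlinarith

end

end Pool.Agent.T9h56.EQ
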