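import Pool.Agent.T9h56.EQ.Law

/-!
# Squarefree polynomials and the resultant
-/

set_option autoImplicit false

namespace Pool.Agent.T9h56.EQ

open Polynomial Filter MeasureTheory Topology Pool.Agent.H261R2.CM Pool.Agent.T9h56.MT
  Pool.Agent.T9h56.SQ OnePoint

noncomputable section

variable {d k : ℕ}

/-! ### squarefree primitive polynomials over a factorial domain of characteristic zero -/

section

variable {R : Type*} [CommRing R] [IsDomain R] [UniqueFactorizationMonoid R] [CharZero R]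

theorem squarefree_map {P : R[X]} (hP : P.IsPrimitive) :
    Squarefree P ↔ Squarefree (P.map (algebraMap R (FractionRing R))) := by
  have inj : Function.Injective (algebraMap R (FractionRing R)) :=
    IsFractionRing.injective R (FractionRing R)
  constructor
  · intro h q hq
    have hP0 : P.map (algebraMap R (FractionRing R)) ≠ 0 :=
      (Polynomial.map_ne_zero_iff inj).2 hP.ne_zero
    have hq0 : q ≠ 0 := by
      rintro rfl
      apply hP0
      rw [zero_mul] at hq
      exact zero_dvd_iff.1 hq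
    let _ : NormalizedGCDMonoid R := Nonempty.some inferInstance
    obtain ⟨b, hb, hbq⟩ := IsLocalization.integerNormalization_spec (nonZeroDivisors R) q
    set g := (IsLocalization.integerNormalization (nonZeroDivisors R) q) with hg
    have hgP : (g.primPart).IsPrimitive := Polynomial.isPrimitive_primPart g
    have hdvd : (g.primPart).map (algebraMap R (FractionRing R)) ∣ q := by
      have h1 : (g.primPart).map (algebraMap R (FractionRing R)) ∣
          g.map (algebraMap R (FractionRing R)) :=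
        Polynomial.map_dvd _ (Polynomial.primPart_dvd g)
      rw [hbq] at h1
      have hb0 : algebraMap R (FractionRing R) b ≠ 0 := by
        rw [Ne, map_eq_zero_iff _ inj]
        exact nonZeroDivisors.ne_zero hb
      have h2 : (b • q) = C (algebraMap R (FractionRing R) b) * q := by
        rw [Algebra.smul_def, Polynomial.algebraMap_apply]
      rw [h2] at h1
      have hu : IsUnit (C (algebraMap R (FractionRing R) b)) :=
        Polynomial.isUnit_C.2 (isUnit_iff_ne_zero.2 hb0)
      exact (hu.dvd_mul_left).1 h1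
    have h3 : (g.primPart * g.primPart).map (algebraMap R (FractionRing R)) ∣
        P.map (algebraMap R (FractionRing R)) := by
      rw [Polynomial.map_mul]
      exact (mul_dvd_mul hdvd hdvd).trans hq
    have h4 : g.primPart * g.primPart ∣ P :=
      (hgP.mul hgP).dvd_of_fraction_map_dvd_fraction_map h3
    have h5 := h _ h4
    exact isUnit_or_eq_zero_of_isUnit_integerNormalization_primPart hq0 h5
  · intro h q hq
    have h1 : q.map (algebraMap R (FractionRing R)) * q.map (algebraMap R (FractionRing R)) ∣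
        P.map (algebraMap R (FractionRing R)) := by
      rw [← Polynomial.map_mul]
      exact Polynomial.map_dvd _ hq
    have h2 := h _ h1
    have h3 : q.natDegree = 0 := by
      rw [← Polynomial.natDegree_map_eq_of_injective inj]
      exact Polynomial.natDegree_eq_zero_of_isUnit h2
    have h4 := Polynomial.eq_C_of_natDegree_eq_zero h3
    rw [h4] at hq ⊢
    exact (hP _ ((dvd_mul_right _ _).trans hq)).map C

end

theorem RP_eq_RPg (A : Fin (d + 1) → MvPolynomial (Fin k) ℤ) : RP A = RPg A := rfl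

theorem RP_primitive {A : Fin (d + 1) → MvPolynomial (Fin k) ℤ} (hA : Prim A) :
    (RP A).IsPrimitive := by
  intro r hr
  refine hA r fun i => ?_
  rw [Polynomial.C_dvd_iff_dvd_coeff] at hr
  have h := hr i
  rwa [coeff_RP, dif_pos i.2] at h

theorem squarefree_iff_RP (A : Fin (d + 1) → MvPolynomial (Fin k) ℤ) :
    Squarefree (FP A) ↔ Squarefree (RP A) := by
  rw [← RP_eq]
  constructor
  · intro h q hq
    have h1 : (MvPolynomial.finSuccEquiv ℤ k).symm q * (MvPolynomial.finSuccEquiv ℤ k).symm q ∣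
        FP A := by
      rw [← map_mul]
      have h2 := map_dvd (MvPolynomial.finSuccEquiv ℤ k).symm hq
      rwa [AlgEquiv.symm_apply_apply] at h2
    have h2 := (h _ h1).map (MvPolynomial.finSuccEquiv ℤ k)
    rwa [AlgEquiv.apply_symm_apply] at h2
  · intro h q hq
    have h1 := map_dvd (MvPolynomial.finSuccEquiv ℤ k) hq
    rw [map_mul] at h1
    have h2 := (h _ h1).map (MvPolynomial.finSuccEquiv ℤ k).symm
    rwa [AlgEquiv.symm_apply_apply] at h2

theorem Res_ne_iff {A : Fin (d + 1) → MvPolynomial (Fin k) ℤ} (hd : 1 ≤ d) (hA : Prim A)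
    (hl : A (Fin.last d) ≠ 0) : Res A ≠ 0 ↔ Squarefree (FP A) := by
  set K := FractionRing (MvPolynomial (Fin k) ℤ) with hK
  have inj : Function.Injective (algebraMap (MvPolynomial (Fin k) ℤ) K) :=
    IsFractionRing.injective _ _
  haveI : CharZero K := charZero_of_injective_algebraMap inj
  rw [squarefree_iff_RP, squarefree_map (RP_primitive hA), ← PerfectField.separable_iff_squarefree]
  have hdeg : ((RP A).map (algebraMap (MvPolynomial (Fin k) ℤ) K)).natDegree = d := by
    rw [Polynomial.natDegree_map_eq_of_injective inj, natDegree_RP hl]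
  have h1 : algebraMap (MvPolynomial (Fin k) ℤ) K (Res A) =
      resultant ((RP A).map (algebraMap (MvPolynomial (Fin k) ℤ) K))
        ((RP A).map (algebraMap (MvPolynomial (Fin k) ℤ) K)).derivative := by
    rw [Polynomial.natDegree_derivative, hdeg, Polynomial.derivative_map, resultant_map_map]
    rfl
  have h2 : Res A ≠ 0 ↔ algebraMap (MvPolynomial (Fin k) ℤ) K (Res A) ≠ 0 := by
    rw [Ne, Ne, map_eq_zero_iff _ inj]
  rw [h2, h1, Ne, resultant_eq_zero_iff]
  have h3 : (RP A).map (algebraMap (MvPolynomial (Fin k) ℤ) K) ≠ 0 :=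
    (Polynomial.map_ne_zero_iff inj).2 (RP_primitive hA).ne_zero
  unfold Polynomial.Separable
  constructor
  · intro h
    by_contra hc
    exact h ⟨Or.inl h3, hc⟩
  · intro h h'
    exact h'.2 h

theorem Res_ne_iff' {A : Fin (d + 1) → MvPolynomial (Fin k) ℤ} (hd : 1 ≤ d) (hA : Prim A) :
    Res A ≠ 0 ↔ A (Fin.last d) ≠ 0 ∧ Squarefree (FP A) := by
  constructor
  · intro h
    have h1 := last_ne_of_Res hd h
    exact ⟨h1, (Res_ne_iff hd hA h1).1 h⟩
  · rintro ⟨h1, h2⟩
    exact (Res_ne_iff hd hA h1).2 h2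

/-! ### polynomials as vectors -/

theorem degreeOf_FP {A : Fin (d + 1) → MvPolynomial (Fin k) ℤ} (h : A (Fin.last d) ≠ 0) :
    (FP A).degreeOf 0 = d := by
  rw [← MvPolynomial.natDegree_finSuccEquiv, RP_eq, natDegree_RP h]

theorem exists_FP (F : MvPolynomial (Fin (k + 1)) ℤ) (hF : F ≠ 0) :
    ∃ A : Fin (F.degreeOf 0 + 1) → MvPolynomial (Fin k) ℤ, F = FP A ∧
      A (Fin.last (F.degreeOf 0)) ≠ 0 := by
  refine ⟨fun j => (MvPolynomial.finSuccEquiv ℤ k F).coeff j, ?_, ?_⟩
  · apply (MvPolynomial.finSuccEquiv ℤ k).injective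
    rw [RP_eq]
    ext1 n
    rw [coeff_RP]
    split_ifs with h
    · rfl
    · refine Polynomial.coeff_eq_zero_of_natDegree_lt ?_
      rw [MvPolynomial.natDegree_finSuccEquiv]
      omega
  · show (MvPolynomial.finSuccEquiv ℤ k F).coeff (F.degreeOf 0) ≠ 0
    rw [← MvPolynomial.natDegree_finSuccEquiv]
    rw [Polynomial.coeff_natDegree, Ne, Polynomial.leadingCoeff_eq_zero]
    intro h
    apply hF
    exact (MvPolynomial.finSuccEquiv ℤ k).injective (by rw [h, map_zero])

theorem prim_iff (A : Fin (d + 1) → MvPolynomial (Fin k) ℤ) :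
    Prim A ↔ ∀ Q, Q ∣ FP A → Q.degreeOf 0 = 0 → IsUnit Q :=
  ⟨fun h => PS_prim h fun _ _ h => Fin.ext h, fun h => prim_of_PS h⟩

/-- the polynomial in the first variable, at a point of the torus of the other variables -/
def slice (F : MvPolynomial (Fin (k + 1)) ℤ) (t : Fin k → ℝ) : ℂ[X] :=
  (MvPolynomial.finSuccEquiv ℤ k F).map (J.tvh t)

/-- the empirical measure of the zeros -/
def zeros (F : MvPolynomial (Fin (k + 1)) ℤ) (t : Fin k → ℝ) : Fun := fun f =>
  (((slice F t).roots.map fun z : ℂ => f (z : OnePoint ℂ)).sum +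
    ((F.degreeOf 0 : ℝ) - (slice F t).natDegree) * f ∞) / F.degreeOf 0

theorem slice_FP (A : Fin (d + 1) → MvPolynomial (Fin k) ℤ) (t : Fin k → ℝ) :
    slice (FP A) t = pol (cv A t) := by
  unfold slice
  rw [RP_eq, map_RP]

theorem zeros_FP {A : Fin (d + 1) → MvPolynomial (Fin k) ℤ} (h : A (Fin.last d) ≠ 0)
    (t : Fin k → ℝ) : zeros (FP A) t = emp (cv A t) := by
  funext f
  unfold zeros emp rs
  rw [slice_FP, degreeOf_FP h, nsmul_eq_mul, Nat.cast_sub (natDegree_pol_le _)]

/-- the law of the empirical measure -/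
def law (F : MvPolynomial (Fin (k + 1)) ℤ) : (BoundedContinuousFunction Fun ℝ) → ℝ :=
  fun Ψ => ∫ t in Set.Icc (0 : Fin k → ℝ) 1, Ψ (zeros F t)

theorem law_FP {A : Fin (d + 1) → MvPolynomial (Fin k) ℤ} (h : A (Fin.last d) ≠ 0) :
    law (FP A) = lawA A := by
  funext Ψ
  unfold law lawA cube
  simp only [zeros_FP h]

/-- the admissible polynomials -/
def Adm (F : MvPolynomial (Fin (k + 1)) ℤ) : Prop :=
  0 < F.degreeOf 0 ∧ (∀ Q : MvPolynomial (Fin (k + 1)) ℤ, Q ∣ F → Q.degreeOf 0 = 0 → IsUnit Q) ∧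
    Squarefree F

theorem Adm.exists {F : MvPolynomial (Fin (k + 1)) ℤ} (h : Adm F) :
    ∃ A : Fin (F.degreeOf 0 + 1) → MvPolynomial (Fin k) ℤ, F = FP A ∧ 1 ≤ F.degreeOf 0 ∧
      Prim A ∧ Res A ≠ 0 ∧ A (Fin.last (F.degreeOf 0)) ≠ 0 := by
  obtain ⟨h1, h2, h3⟩ := h
  obtain ⟨A, hA, hl⟩ := exists_FP F (by
    rintro rfl
    exact not_squarefree_zero h3)
  have hp : Prim A := (prim_iff A).2 (by rwa [← hA])
  exact ⟨A, hA, h1, hp, (Res_ne_iff' h1 hp).2 ⟨hl, by rwa [← hA]⟩, hl⟩

theorem adm_FP {A : Fin (d + 1) → MvPolynomial (Fin k) ℤ} (hd : 1 ≤ d) (hP : Prim A)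
    (hR : Res A ≠ 0) : Adm (FP A) := by
  obtain ⟨hl, hs⟩ := (Res_ne_iff' hd hP).1 hR
  exact ⟨by rw [degreeOf_FP hl]; omega, (prim_iff A).1 hP, hs⟩

/-- the Mahler measures of the admissible polynomials with law in the set -/
def MSet (𝒬 : Set ((BoundedContinuousFunction Fun ℝ) → ℝ)) : Set ℝ :=
  {x | ∃ (k : ℕ) (F : MvPolynomial (Fin (k + 1)) ℤ), Adm F ∧ law F ∈ 𝒬 ∧ x = mM F}

theorem MSet_eq (𝒬 : Set ((BoundedContinuousFunction Fun ℝ) → ℝ)) : MSet 𝒬 = SetM 𝒬 := by
  ext x
  constructor
  · rintro ⟨k, F, hF, hl, hx⟩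
    obtain ⟨A, hA, hd, hP, hR, hlast⟩ := hF.exists
    refine ⟨k, F.degreeOf 0, A, hd, hP, hR, ?_, by rw [← hA, hx]⟩
    rw [← law_FP hlast, ← hA]
    exact hl
  · rintro ⟨k, d, A, hd, hP, hR, hl, hx⟩
    refine ⟨k, FP A, adm_FP hd hP hR, ?_, hx⟩
    rw [law_FP (last_ne_of_Res hd hR)]
    exact hl

end

end Pool.Agent.T9h56.EQ
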